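import Pool.Agent.MP_56ff7a_an.Mg.Regular
import Pool.Agent.MP_56ff7a_an.Defs

-- part MP_56ff7a_an.Corona
section

/-!
Bounded sequences modulo null sequences, as a star algebra.
-/

set_option autoImplicit false

namespace Pool.Agent.MP_56ff7a_an

open Filter Topology

lemma cstar_norm_one_le (A : Type) [CStarAlgebra A] : ‖(1 : A)‖ ≤ 1 := by
  rcases subsingleton_or_nontrivial A with h | h
  · rw [Subsingleton.elim (1 : A) 0, norm_zero]; norm_num
  · rw [CStarRing.norm_one]

variable (B : ℕ → Type) [∀ n, CStarAlgebra (B n)]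

/-- Bounded sequences. -/
def Bdd : StarSubalgebra ℂ (∀ n, B n) where
  carrier := {x | ∃ C : ℝ, 0 ≤ C ∧ ∀ n, ‖x n‖ ≤ C}
  mul_mem' := by
    rintro x y ⟨C, hC, hx⟩ ⟨D, hD, hy⟩
    exact ⟨C * D, mul_nonneg hC hD, fun n =>
      (norm_mul_le _ _).trans (mul_le_mul (hx n) (hy n) (norm_nonneg _) hC)⟩
  add_mem' := by
    rintro x y ⟨C, hC, hx⟩ ⟨D, hD, hy⟩
    exact ⟨C + D, add_nonneg hC hD, fun n => (norm_add_le _ _).trans (add_le_add (hx n) (hy n))⟩
  algebraMap_mem' := by
    intro c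
    refine ⟨‖c‖, norm_nonneg _, fun n => ?_⟩
    rw [Pi.algebraMap_apply, Algebra.algebraMap_eq_smul_one, norm_smul]
    exact mul_le_of_le_one_right (norm_nonneg _) (cstar_norm_one_le _)
  star_mem' := by
    rintro x ⟨C, hC, hx⟩
    exact ⟨C, hC, fun n => by rw [Pi.star_apply, norm_star]; exact hx n⟩

variable {B}

lemma Bdd.bound (x : Bdd B) : ∃ C : ℝ, 0 ≤ C ∧ ∀ n, ‖x.1 n‖ ≤ C := x.2

lemma tendsto_zero_of_le {f g : ℕ → ℝ} (hg : Tendsto g atTop (𝓝 0)) (h0 : ∀ n, 0 ≤ f n)
    (h : ∀ n, f n ≤ g n) : Tendsto f atTop (𝓝 0) :=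
  squeeze_zero h0 h hg

variable (B)

/-- Null sequences. -/
def nullIdeal : Ideal (Bdd B) where
  carrier := {x | Tendsto (fun n => ‖x.1 n‖) atTop (𝓝 0)}
  add_mem' := by
    intro x y hx hy
    have := Tendsto.add hx hy
    rw [add_zero] at this
    exact squeeze_zero (fun n => norm_nonneg _) (fun n => norm_add_le _ _) this
  zero_mem' := by
    change Tendsto (fun n => ‖(0 : ∀ n, B n) n‖) atTop (𝓝 0)
    simp
  smul_mem' := by
    intro c x hx
    obtain ⟨C, hC, hc⟩ := Bdd.bound c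
    have := Tendsto.const_mul C hx
    rw [mul_zero] at this
    exact squeeze_zero (fun n => norm_nonneg _) (fun n => (norm_mul_le _ _).trans
      (mul_le_mul_of_nonneg_right (hc n) (norm_nonneg _))) this

variable {B}

lemma mem_nullIdeal {x : Bdd B} :
    x ∈ nullIdeal B ↔ Tendsto (fun n => ‖x.1 n‖) atTop (𝓝 0) := Iff.rfl

lemma star_mem_nullIdeal {x : Bdd B} (hx : x ∈ nullIdeal B) : star x ∈ nullIdeal B := by
  rw [mem_nullIdeal] at hx ⊢
  convert hx using 2 with n
  exact norm_star (x.1 n)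

instance : (nullIdeal B).IsTwoSided where
  mul_mem_of_left := by
    intro x c hx
    have := star_mem_nullIdeal ((nullIdeal B).mul_mem_left (star c) (star_mem_nullIdeal hx))
    rwa [star_mul, star_star, star_star] at this

variable (B)

/-- Bounded sequences modulo null sequences. -/
def Corona : Type := Bdd B ⧸ nullIdeal B

noncomputable instance : Ring (Corona B) := inferInstanceAs (Ring (Bdd B ⧸ nullIdeal B))

noncomputable instance : Algebra ℂ (Corona B) :=
  inferInstanceAs (Algebra ℂ (Bdd B ⧸ nullIdeal B))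

/-- The quotient map. -/
noncomputable def mk : Bdd B →ₐ[ℂ] Corona B := Ideal.Quotient.mkₐ ℂ (nullIdeal B)

variable {B}

lemma mk_surjective : Function.Surjective (mk B) := Ideal.Quotient.mkₐ_surjective ℂ _

lemma mk_eq_mk {x y : Bdd B} : mk B x = mk B y ↔ x - y ∈ nullIdeal B := Ideal.Quotient.eq

lemma mk_eq_zero {x : Bdd B} : mk B x = 0 ↔ x ∈ nullIdeal B := Ideal.Quotient.eq_zero_iff_mem

noncomputable instance : Star (Corona B) where
  star x := mk B (star (Function.surjInv mk_surjective x))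

lemma star_mk (x : Bdd B) : star (mk B x) = mk B (star x) := by
  change mk B (star (Function.surjInv mk_surjective (mk B x))) = _
  rw [mk_eq_mk]
  have h : Function.surjInv mk_surjective (mk B x) - x ∈ nullIdeal B := by
    rw [← mk_eq_mk, Function.surjInv_eq mk_surjective]
  have h2 := star_mem_nullIdeal h
  rwa [star_sub] at h2

noncomputable instance : StarRing (Corona B) where
  star_involutive x := by
    obtain ⟨x, rfl⟩ := mk_surjective x
    rw [star_mk, star_mk, star_star]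
  star_mul x y := by
    obtain ⟨x, rfl⟩ := mk_surjective x
    obtain ⟨y, rfl⟩ := mk_surjective y
    rw [← map_mul, star_mk, star_mk, star_mk, star_mul, map_mul]
  star_add x y := by
    obtain ⟨x, rfl⟩ := mk_surjective x
    obtain ⟨y, rfl⟩ := mk_surjective y
    rw [← map_add, star_mk, star_mk, star_mk, star_add, map_add]

instance : StarModule ℂ (Corona B) where
  star_smul c x := by
    obtain ⟨x, rfl⟩ := mk_surjective x
    rw [← map_smul, star_mk, star_mk, star_smul, map_smul]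

lemma exists_pos_lift {x : Corona B} (hx : x ∈ Pos (Corona B)) :
    ∃ y : Bdd B, mk B y = x ∧ ∀ n, y.1 n ∈ Pos (B n) := by
  induction hx using AddSubmonoid.closure_induction with
  | mem x hx =>
    obtain ⟨y, rfl⟩ := hx
    obtain ⟨y, rfl⟩ := mk_surjective y
    exact ⟨star y * y, by simp only [map_mul, star_mk], fun n => star_mul_self_mem_pos (y.1 n)⟩
  | zero => exact ⟨0, map_zero _, fun n => zero_mem _⟩
  | add x y _ _ hx hy =>
    obtain ⟨x, rfl, hx⟩ := hx
    obtain ⟨y, rfl, hy⟩ := hy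
    exact ⟨x + y, map_add _ _ _, fun n => add_mem (hx n) (hy n)⟩

lemma exists_sa_lift {x : Corona B} (hx : star x = x) :
    ∃ y : Bdd B, mk B y = x ∧ star y = y := by
  obtain ⟨y, rfl⟩ := mk_surjective x
  refine ⟨(2⁻¹ : ℂ) • (y + star y), ?_, ?_⟩
  · rw [map_smul, map_add, ← star_mk, hx]; module
  · rw [star_smul, star_add, star_star, add_comm]; simp

lemma corona_proper (y x : Corona B) (hx : x ∈ Pos (Corona B)) (h : star y * y + x = 0) :
    y = 0 := by
  obtain ⟨x, rfl, hx'⟩ := exists_pos_lift hx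
  obtain ⟨y, rfl⟩ := mk_surjective y
  rw [star_mk, ← map_mul, ← map_add, mk_eq_zero, mem_nullIdeal] at h
  rw [mk_eq_zero, mem_nullIdeal]
  have h1 : Tendsto (fun n => ‖y.1 n‖ * ‖y.1 n‖) atTop (𝓝 0) :=
    squeeze_zero (fun n => mul_self_nonneg _) (fun n => norm_sq_le_of_mem_pos (hx' n)) h
  have h2 := h1.sqrt
  simp only [Real.sqrt_mul_self (norm_nonneg _), Real.sqrt_zero] at h2
  exact h2

lemma corona_pinv {D : Corona B} (hD : star D = D) (h1 : D ∈ Pos (Corona B))
    (h2 : D * D - ((10⁻¹ : ℝ) : ℂ) • D ∈ Pos (Corona B)) :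
    ∃ g : Corona B, star g = g ∧ Commute g D ∧ D * g * D = D := by
  obtain ⟨d, rfl, hd⟩ := exists_sa_lift hD
  obtain ⟨y, hy, hyp⟩ := exists_pos_lift h1
  obtain ⟨y', hy', hyp'⟩ := exists_pos_lift h2
  have n1 : d - y ∈ nullIdeal B := mk_eq_mk.mp hy.symm
  have n2 : d * d - ((10⁻¹ : ℝ) : ℂ) • d - y' ∈ nullIdeal B := by
    rw [← mk_eq_mk, hy', map_sub, map_mul, map_smul]
  let δ : ℕ → ℝ := fun n => ‖(d - y).1 n‖ + ‖(d * d - ((10⁻¹ : ℝ) : ℂ) • d - y').1 n‖
  have hδ : Tendsto δ atTop (𝓝 0) := by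
    have := Tendsto.add (mem_nullIdeal.mp n1) (mem_nullIdeal.mp n2)
    rwa [add_zero] at this
  have hg : ∀ n, ∃ g : B n, star g = g ∧ Commute g (d.1 n) ∧ ‖g‖ ≤ 20 ∧
      ‖d.1 n * g * d.1 n - d.1 n‖ ≤ 20 * δ n + 20 * δ n ^ 2 := by
    intro n
    exact exists_pinv (congrFun (congrArg Subtype.val hd) n) (hyp n) (hyp' n)
      (le_add_of_nonneg_right (norm_nonneg _)) (le_add_of_nonneg_left (norm_nonneg _))
  choose g g1 g2 g3 g4 using hg
  let g' : Bdd B := ⟨g, 20, by norm_num, g3⟩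
  refine ⟨mk B g', ?_, ?_, ?_⟩
  · rw [star_mk]; congr 1; ext n; exact g1 n
  · have : Commute g' d := by
      apply Subtype.ext; funext n; exact (g2 n).eq
    exact this.map (mk B)
  · rw [← map_mul, ← map_mul, mk_eq_mk, mem_nullIdeal]
    have : Tendsto (fun n => 20 * δ n + 20 * δ n ^ 2) atTop (𝓝 0) := by
      have := (hδ.const_mul 20).add ((hδ.pow 2).const_mul 20)
      simpa using this
    exact squeeze_zero (fun n => norm_nonneg _) g4 this

lemma corona_proj {e : Corona B} (he : star e = e) (hee : e * e = e) :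
    ∃ q : Bdd B, mk B q = e ∧ star q = q ∧ q * q = q := by
  obtain ⟨h, rfl, hh⟩ := exists_sa_lift he
  have n1 : h * h - h ∈ nullIdeal B := by rw [← mk_eq_mk, map_mul, hee]
  rw [mem_nullIdeal] at n1
  have hq : ∀ n, ∃ q : B n, star q = q ∧ q * q = q ∧
      (‖h.1 n * h.1 n - h.1 n‖ ≤ 5⁻¹ → ‖h.1 n - q‖ ≤ 2 * ‖h.1 n * h.1 n - h.1 n‖) :=
    fun n => exists_proj (congrFun (congrArg Subtype.val hh) n)
  choose q q1 q2 q3 using hq
  have hb : ∀ n, ‖q n‖ ≤ 1 := by
    intro n
    have := CStarRing.norm_star_mul_self (x := q n)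
    rw [q1, q2] at this
    nlinarith [norm_nonneg (q n)]
  let q' : Bdd B := ⟨q, 1, by norm_num, hb⟩
  refine ⟨q', ?_, ?_, ?_⟩
  · symm
    rw [mk_eq_mk, mem_nullIdeal]
    have h2 := n1.const_mul 2
    rw [mul_zero] at h2
    refine squeeze_zero' (Eventually.of_forall fun n => norm_nonneg _) ?_ h2
    have h3 := n1.eventually (ge_mem_nhds (show (0 : ℝ) < 5⁻¹ by norm_num))
    filter_upwards [h3] with n hn
    exact q3 n hn
  · ext n; exact q1 n
  · apply Subtype.ext; funext n; exact q2 n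

lemma norm_swap_le {A : Type} [CStarAlgebra A] [IsDedekindFiniteMonoid A] (x y : A)
    (h : ‖x * y - 1‖ ≤ 2⁻¹) : ‖y * x - 1‖ ≤ 2 * ‖y‖ * ‖x‖ * ‖x * y - 1‖ := by
  have h1 : ‖1 - x * y‖ < 1 := by rw [norm_sub_rev]; linarith
  have hu : IsUnit (x * y) := by
    have := (Units.oneSub (1 - x * y) h1).isUnit
    simpa using this
  obtain ⟨w, hw⟩ := hu.exists_right_inv
  have hxw : x * (y * w) = 1 := by rw [← mul_assoc, hw]
  have hwx : (y * w) * x = 1 := mul_eq_one_comm.mp hxw
  have hwn : ‖w‖ ≤ 2 := by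
    have h2 : w = 1 - (x * y - 1) * w := by rw [sub_mul, hw]; simp
    have h3 : ‖w‖ ≤ 1 + 2⁻¹ * ‖w‖ := by
      calc ‖w‖ = ‖1 - (x * y - 1) * w‖ := by rw [← h2]
        _ ≤ ‖(1 : A)‖ + ‖(x * y - 1) * w‖ := norm_sub_le _ _
        _ ≤ 1 + 2⁻¹ * ‖w‖ := add_le_add (cstar_norm_one_le A)
            ((norm_mul_le _ _).trans (mul_le_mul_of_nonneg_right h (norm_nonneg _)))
    linarith
  have h4 : y * x - 1 = y * w * (x * y - 1) * x := by
    calc y * x - 1 = (y * w * x) * (y * x) - y * w * x := by rw [hwx, one_mul]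
      _ = y * w * (x * y - 1) * x := by noncomm_ring
  rw [h4]
  calc ‖y * w * (x * y - 1) * x‖ ≤ ‖y‖ * ‖w‖ * ‖x * y - 1‖ * ‖x‖ := by
        refine (norm_mul_le _ _).trans (mul_le_mul_of_nonneg_right ?_ (norm_nonneg _))
        refine (norm_mul_le _ _).trans (mul_le_mul_of_nonneg_right ?_ (norm_nonneg _))
        exact norm_mul_le _ _
    _ ≤ ‖y‖ * 2 * ‖x * y - 1‖ * ‖x‖ := by gcongr
    _ = 2 * ‖y‖ * ‖x‖ * ‖x * y - 1‖ := by ring

instance [∀ n, IsDedekindFiniteMonoid (B n)] : IsDedekindFiniteMonoid (Corona B) where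
  mul_eq_one_symm := by
    intro x y h
    obtain ⟨x, rfl⟩ := mk_surjective x
    obtain ⟨y, rfl⟩ := mk_surjective y
    rw [← map_mul, ← map_one (mk B), mk_eq_mk, mem_nullIdeal] at h ⊢
    obtain ⟨C, hC, hx⟩ := Bdd.bound x
    obtain ⟨D, hD, hy⟩ := Bdd.bound y
    have h2 := h.const_mul (2 * D * C)
    rw [mul_zero] at h2
    refine squeeze_zero' (Eventually.of_forall fun n => norm_nonneg _) ?_ h2
    have h3 := h.eventually (ge_mem_nhds (show (0 : ℝ) < 2⁻¹ by norm_num))
    filter_upwards [h3] with n hn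
    refine (norm_swap_le (x.1 n) (y.1 n) hn).trans ?_
    apply mul_le_mul_of_nonneg_right _ (norm_nonneg _)
    have := hx n
    have := hy n
    gcongr

end Pool.Agent.MP_56ff7a_an

end

-- part MP_56ff7a_an.Vanish
section

/-!
The vanishing theorem for asymptotic matrix representations.
-/

set_option autoImplicit false

namespace Pool.Agent.MP_56ff7a_an

open Filter Topology Asymptotics

section Push

variable {B : ℕ → Type} [∀ n, CStarAlgebra (B n)]

/-- The image of a left ideal in the quotient. -/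
def pushIdeal (K : Ideal (Bdd B)) : Ideal (Corona B) where
  carrier := {x | ∃ y ∈ K, mk B y = x}
  add_mem' := by
    rintro _ _ ⟨x, hx, rfl⟩ ⟨y, hy, rfl⟩
    exact ⟨x + y, add_mem hx hy, map_add _ _ _⟩
  zero_mem' := ⟨0, zero_mem _, map_zero _⟩
  smul_mem' := by
    rintro c _ ⟨y, hy, rfl⟩
    obtain ⟨c, rfl⟩ := mk_surjective c
    exact ⟨c * y, K.mul_mem_left _ hy, map_mul _ _ _⟩

lemma mk_mem_pushIdeal {K : Ideal (Bdd B)} (hK : nullIdeal B ≤ K) {y : Bdd B} :
    mk B y ∈ pushIdeal K ↔ y ∈ K := by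
  constructor
  · rintro ⟨z, hz, hzy⟩
    have := add_mem (hK (mk_eq_mk.mp hzy.symm)) hz
    rwa [sub_add_cancel] at this
  · intro h
    exact ⟨y, h, rfl⟩

end Push

lemma isLittleO_of_le_mul {f N z : ℕ → ℝ} (hz : Tendsto z atTop (𝓝 0)) (hf : ∀ n, 0 ≤ f n)
    (hN : ∀ n, 0 ≤ N n) (h : ∀ n, f n ≤ z n * N n) : f =o[atTop] N := by
  rw [isLittleO_iff]
  intro c hc
  filter_upwards [hz.eventually (ge_mem_nhds hc)] with n hn
  rw [Real.norm_of_nonneg (hf n), Real.norm_of_nonneg (hN n)]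
  exact (h n).trans (mul_le_mul_of_nonneg_right hn (hN n))

lemma isLittleO_of_le_const_mul {f g N : ℕ → ℝ} {C : ℝ} (hg : g =o[atTop] N) (hf : ∀ n, 0 ≤ f n)
    (hg0 : ∀ n, 0 ≤ g n) (h : ∀ n, f n ≤ C * g n) : f =o[atTop] N := by
  refine IsBigO.trans_isLittleO (IsBigO.of_bound C (Eventually.of_forall fun n => ?_)) hg
  rw [Real.norm_of_nonneg (hf n), Real.norm_of_nonneg (hg0 n)]
  exact h n

lemma isLittleO_of_le_add {f g g' N : ℕ → ℝ} (hg : g =o[atTop] N) (hg' : g' =o[atTop] N)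
    (hf : ∀ n, 0 ≤ f n) (h : ∀ n, f n ≤ g n + g' n) : f =o[atTop] N := by
  refine IsBigO.trans_isLittleO (IsBigO.of_bound 1 (Eventually.of_forall fun n => ?_)) (hg.add hg')
  rw [Real.norm_of_nonneg (hf n), one_mul]
  exact (h n).trans (le_abs_self _)

/-- Abstract Hilbert-Schmidt data for a C*-algebra `A`. -/
structure HSData (A A' H : Type) [CStarAlgebra A] [CStarAlgebra A'] [NormedAddCommGroup H] where
  ι : A →+ H
  ι_eq_zero : ∀ x, ι x = 0 → x = 0
  norm_left : ∀ a x, ‖ι (a * x)‖ ≤ ‖a‖ * ‖ι x‖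
  norm_right : ∀ x b, ‖ι (x * b)‖ ≤ ‖b‖ * ‖ι x‖
  ad : A →* A'
  star_ad : ∀ u, star (ad u) = ad (star u)
  norm_ad : ∀ u, ‖ad u‖ ≤ ‖u‖ * ‖u‖
  norm_ad_sub : ∀ u v, ‖ad u - ad v‖ ≤ (‖u‖ + ‖v‖) * ‖u - v‖
  act : A' → H → H
  act_add : ∀ y z v, act (y + z) v = act y v + act z v
  act_mul : ∀ y z v, act (y * z) v = act y (act z v)
  norm_act : ∀ y v, ‖act y v‖ ≤ ‖y‖ * ‖v‖
  act_ad : ∀ u x, act (ad u - 1) (ι x) = ι (u * x * star u - x)

variable {B B' H : ℕ → Type} [∀ n, CStarAlgebra (B n)] [∀ n, CStarAlgebra (B' n)]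
  [∀ n, NormedAddCommGroup (H n)] (d : ∀ n, HSData (B n) (B' n) (H n))

/-- Conjugation, on bounded sequences. -/
noncomputable def adB : Bdd B →* Bdd B' where
  toFun u := ⟨fun n => (d n).ad (u.1 n), by
    obtain ⟨C, hC, hu⟩ := Bdd.bound u
    exact ⟨C * C, mul_nonneg hC hC, fun n =>
      ((d n).norm_ad _).trans (mul_le_mul (hu n) (hu n) (norm_nonneg _) hC)⟩⟩
  map_one' := Subtype.ext (funext fun n => map_one (d n).ad)
  map_mul' u v := Subtype.ext (funext fun n => map_mul (d n).ad (u.1 n) (v.1 n))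

lemma star_adB (u : Bdd B) : star (adB d u) = adB d (star u) :=
  Subtype.ext (funext fun n => (d n).star_ad (u.1 n))

lemma adB_congr {u v : Bdd B} (h : mk B u = mk B v) : mk B' (adB d u) = mk B' (adB d v) := by
  rw [mk_eq_mk, mem_nullIdeal] at h ⊢
  obtain ⟨C, hC, hu⟩ := Bdd.bound u
  obtain ⟨D, hD, hv⟩ := Bdd.bound v
  have h2 := h.const_mul (C + D)
  rw [mul_zero] at h2
  refine squeeze_zero (fun n => norm_nonneg _) (fun n => ?_) h2
  exact ((d n).norm_ad_sub (u.1 n) (v.1 n)).trans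
    (mul_le_mul_of_nonneg_right (add_le_add (hu n) (hv n)) (norm_nonneg _))

lemma mk_adB_surjInv (u : Bdd B) :
    mk B' (adB d (Function.surjInv mk_surjective (mk B u))) = mk B' (adB d u) :=
  adB_congr d (Function.surjInv_eq mk_surjective _)

/-- Conjugation, on the quotients. -/
noncomputable def adC : Corona B →* Corona B' where
  toFun x := mk B' (adB d (Function.surjInv mk_surjective x))
  map_one' := by rw [← map_one (mk B), mk_adB_surjInv, map_one, map_one]
  map_mul' x y := by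
    obtain ⟨x, rfl⟩ := mk_surjective x
    obtain ⟨y, rfl⟩ := mk_surjective y
    rw [← map_mul, mk_adB_surjInv, mk_adB_surjInv, mk_adB_surjInv, map_mul, map_mul]

lemma adC_mk (u : Bdd B) : adC d (mk B u) = mk B' (adB d u) := mk_adB_surjInv d u

lemma star_adC (x : Corona B) : star (adC d x) = adC d (star x) := by
  obtain ⟨x, rfl⟩ := mk_surjective x
  rw [star_mk, adC_mk, adC_mk, star_mk, star_adB]

/-- Sequences whose Hilbert-Schmidt norm is small compared with that of `q`. -/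
def hsIdeal (q : Bdd B) : Ideal (Bdd B) where
  carrier := {y | (fun n => ‖(d n).ι (y.1 n)‖) =o[atTop] (fun n => ‖(d n).ι (q.1 n)‖)}
  add_mem' := by
    intro x y hx hy
    refine isLittleO_of_le_add hx hy (fun n => norm_nonneg _) (fun n => ?_)
    change ‖(d n).ι (x.1 n + y.1 n)‖ ≤ _
    rw [map_add]
    exact norm_add_le _ _
  zero_mem' := by
    change (fun n => ‖(d n).ι 0‖) =o[atTop] _
    simp
  smul_mem' := by
    intro c x hx
    obtain ⟨C, hC, hc⟩ := Bdd.bound c
    refine isLittleO_of_le_const_mul (C := C) hx (fun n => norm_nonneg _) (fun n => norm_nonneg _)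
      (fun n => ?_)
    exact ((d n).norm_left (c.1 n) (x.1 n)).trans
      (mul_le_mul_of_nonneg_right (hc n) (norm_nonneg _))

variable {d}

lemma mem_hsIdeal {q y : Bdd B} : y ∈ hsIdeal d q ↔
    (fun n => ‖(d n).ι (y.1 n)‖) =o[atTop] (fun n => ‖(d n).ι (q.1 n)‖) := Iff.rfl

lemma null_mul_mem {q z : Bdd B} (hz : z ∈ nullIdeal B) : z * q ∈ hsIdeal d q :=
  isLittleO_of_le_mul hz (fun _ => norm_nonneg _) (fun _ => norm_nonneg _)
    (fun n => (d n).norm_left (z.1 n) (q.1 n))

lemma mul_null_mem {q z : Bdd B} (hz : z ∈ nullIdeal B) : q * z ∈ hsIdeal d q :=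
  isLittleO_of_le_mul hz (fun _ => norm_nonneg _) (fun _ => norm_nonneg _)
    (fun n => (d n).norm_right (q.1 n) (z.1 n))

lemma comm_mem {q y : Bdd B} (hq : q * q = q) (hy : Commute (mk B y) (mk B q)) :
    y * q - q * y ∈ hsIdeal d q := by
  have h : y * q - q * y ∈ nullIdeal B := by
    rw [← mk_eq_mk, map_mul, map_mul, hy.eq]
  have h2 := add_mem (null_mul_mem (d := d) (q := q) h) (mul_null_mem (d := d) (q := q) h)
  have h3 : (y * q - q * y) * q + q * (y * q - q * y) = y * q - q * y := by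
    rw [sub_mul, mul_sub, mul_assoc y q q, ← mul_assoc q q y, hq, mul_assoc q y q]
    abel
  rwa [h3] at h2

lemma null_of_mem_hsIdeal {q : Bdd B} (h : q ∈ hsIdeal d q) : q ∈ nullIdeal B := by
  rw [mem_hsIdeal, isLittleO_iff] at h
  rw [mem_nullIdeal]
  refine tendsto_const_nhds.congr' ?_
  filter_upwards [h (show (0 : ℝ) < 2⁻¹ by norm_num)] with n hn
  rw [norm_norm] at hn
  have h0 : ‖(d n).ι (q.1 n)‖ = 0 := by nlinarith [norm_nonneg ((d n).ι (q.1 n))]
  have h1 : q.1 n = 0 := (d n).ι_eq_zero _ (norm_eq_zero.mp h0)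
  rw [h1, norm_zero]

variable (d)

/-- Sequences `y` with `y q` small. -/
def cornerIdeal (q : Bdd B) : Ideal (Bdd B) where
  carrier := {y | y * q ∈ hsIdeal d q}
  add_mem' := by
    intro x y hx hy
    change (x + y) * q ∈ hsIdeal d q
    rw [add_mul]; exact add_mem hx hy
  zero_mem' := by
    change 0 * q ∈ hsIdeal d q
    rw [zero_mul]; exact zero_mem _
  smul_mem' := by
    intro c x hx
    change (c * x) * q ∈ hsIdeal d q
    rw [mul_assoc]; exact (hsIdeal d q).mul_mem_left _ hx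

/-- Sequences of operators almost killing the vectors `x`. -/
def vecIdeal (q x : Bdd B) : Ideal (Bdd B') where
  carrier := {y | (fun n => ‖(d n).act (y.1 n) ((d n).ι (x.1 n))‖) =o[atTop]
    (fun n => ‖(d n).ι (q.1 n)‖)}
  add_mem' := by
    intro y z hy hz
    refine isLittleO_of_le_add hy hz (fun n => norm_nonneg _) (fun n => ?_)
    change ‖(d n).act (y.1 n + z.1 n) _‖ ≤ _
    rw [(d n).act_add]
    exact norm_add_le _ _
  zero_mem' := by
    refine isLittleO_of_le_mul (z := fun _ => 0) tendsto_const_nhds (fun n => norm_nonneg _)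
      (fun n => norm_nonneg _) (fun n => ?_)
    refine ((d n).norm_act _ _).trans ?_
    change ‖(0 : B' n)‖ * _ ≤ _
    simp
  smul_mem' := by
    intro c y hy
    obtain ⟨C, hC, hc⟩ := Bdd.bound c
    refine isLittleO_of_le_const_mul (C := C) hy (fun n => norm_nonneg _) (fun n => norm_nonneg _)
      (fun n => ?_)
    change ‖(d n).act (c.1 n * y.1 n) _‖ ≤ _
    rw [(d n).act_mul]
    exact ((d n).norm_act _ _).trans (mul_le_mul_of_nonneg_right (hc n) (norm_nonneg _))

lemma null_le_vecIdeal (q U : Bdd B) : nullIdeal B' ≤ vecIdeal d q (U * q) := by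
  intro z hz
  obtain ⟨C, hC, hU⟩ := Bdd.bound U
  have h2 := (mem_nullIdeal.mp hz).mul_const C
  rw [zero_mul] at h2
  refine isLittleO_of_le_mul h2 (fun _ => norm_nonneg _) (fun _ => norm_nonneg _) (fun n => ?_)
  refine ((d n).norm_act _ _).trans ?_
  rw [mul_assoc]
  refine mul_le_mul_of_nonneg_left ?_ (norm_nonneg _)
  exact ((d n).norm_left (U.1 n) (q.1 n)).trans
    (mul_le_mul_of_nonneg_right (hU n) (norm_nonneg _))

lemma adB_sub_one_mem {q x u : Bdd B} :
    adB d u - 1 ∈ vecIdeal d q x ↔ u * x * star u - x ∈ hsIdeal d q := by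
  have : (fun n => ‖(d n).act ((adB d u - 1).1 n) ((d n).ι (x.1 n))‖) =
      fun n => ‖(d n).ι ((u * x * star u - x).1 n)‖ :=
    funext fun n => congrArg norm ((d n).act_ad (u.1 n) (x.1 n))
  change (fun n => ‖(d n).act ((adB d u - 1).1 n) ((d n).ι (x.1 n))‖) =o[atTop] _ ↔ _
  rw [this]
  rfl

lemma adC_sub_one_mem {q U : Bdd B} (hq : q * q = q) {x : Corona B}
    (hx : Commute (star x) (mk B q)) :
    adC d x - 1 ∈ pushIdeal (vecIdeal d q (U * q)) ↔
      x * mk B U * star x - mk B U ∈ pushIdeal (cornerIdeal d q) := by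
  obtain ⟨u, rfl⟩ := mk_surjective x
  rw [star_mk] at hx
  rw [adC_mk, ← map_one (mk B'), ← map_sub, mk_mem_pushIdeal (null_le_vecIdeal d q U),
    adB_sub_one_mem, star_mk, ← map_mul, ← map_mul, ← map_sub,
    mk_mem_pushIdeal (K := cornerIdeal d q) (fun z hz => null_mul_mem hz)]
  change _ ↔ (u * U * star u - U) * q ∈ hsIdeal d q
  have h := (hsIdeal d q).mul_mem_left (u * U) (comm_mem hq hx)
  have h2 : (u * U * star u - U) * q =
      u * U * (star u * q - q * star u) + (u * (U * q) * star u - U * q) := by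
    simp only [sub_mul, mul_sub, mul_assoc]
    abel
  rw [h2]
  exact ((hsIdeal d q).add_mem_iff_right h).symm

include d in
/-- The vanishing theorem. -/
theorem vanish [∀ n, IsDedekindFiniteMonoid (B' n)] {G : Type} [Group G] {a : Fin 3 → G}
    (ha : IsTriple a) {t g : G}
    (ht : ∀ i, t * a i * t⁻¹ ∈ Subgroup.closure (Set.range a))
    (hgt : ∀ i, Commute (t * a i * t⁻¹) g) (hga : ∀ i, g⁻¹ * a i * g = (a i)⁻¹)
    (π : G →* Corona B) (hπ : ∀ h, star (π h) = π h⁻¹)
    {e : Corona B} (he : star e = e) (hee : e * e = e) (hc : ∀ h, Commute (π h) e)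
    {w : Corona B} (hw : w * (e * lap π a) = e) : e = 0 := by
  obtain ⟨q, rfl, -, hq⟩ := corona_proj he hee
  obtain ⟨U, hU⟩ := mk_surjective (π g)
  let ρ : G →* Corona B' := (adC d).comp π
  have hρ : ∀ h, star (ρ h) = ρ h⁻¹ := fun h => by
    change star (adC d (π h)) = adC d (π h⁻¹)
    rw [star_adC, hπ]
  obtain ⟨g₀, g1, g2, g3⟩ := corona_pinv (star_lap hρ ha) (lap_mem_pos hρ ha) (lap_gap hρ ha)
  have key : ∀ h, ρ h - 1 ∈ pushIdeal (vecIdeal d q (U * q)) ↔
      π (h * g * h⁻¹) - π g ∈ pushIdeal (cornerIdeal d q) := by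
    intro h
    have := adC_sub_one_mem d (U := U) hq (x := π h) (by rw [hπ]; exact hc _)
    rw [hU, hπ, ← map_mul, ← map_mul] at this
    exact this
  have h1 : ∀ i, ρ (a i) - 1 ∈ pushIdeal (vecIdeal d q (U * q)) := by
    apply compression hρ corona_proper ha ht g1 g2 g3
    intro i
    rw [key, (hgt i).eq, mul_assoc, mul_inv_cancel, mul_one, sub_self]
    exact zero_mem _
  have h2 : ∀ i, π (a i) - 1 ∈ pushIdeal (cornerIdeal d q) := by
    intro i
    have h3 := (pushIdeal (cornerIdeal d q)).mul_mem_left (π g⁻¹) ((key _).mp (h1 i))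
    rw [mul_sub, ← map_mul, ← map_mul, inv_mul_cancel, map_one, ← mul_assoc, ← mul_assoc, hga i]
      at h3
    have h4 := (pushIdeal (cornerIdeal d q)).mul_mem_left (π ((a i)⁻¹ * (a i)⁻¹) + 1) h3
    have h5 : (a i)⁻¹ * (a i)⁻¹ * ((a i)⁻¹ * (a i)⁻¹) = a i := by
      have h6 := inv_eq_pow_four (ha.h5 i)
      have h7 : (a i)⁻¹ * (a i)⁻¹ * ((a i)⁻¹ * (a i)⁻¹) = (a i ^ 4)⁻¹ := by group
      rw [h7, ← h6, inv_inv]
    have h8 : (π ((a i)⁻¹ * (a i)⁻¹) + 1) * (π ((a i)⁻¹ * (a i)⁻¹) - 1) = π (a i) - 1 := by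
      rw [add_mul, mul_sub, ← map_mul, h5, one_mul, mul_one]
      abel
    rwa [h8] at h4
  have h3 : lap π a ∈ pushIdeal (cornerIdeal d q) :=
    add_mem (add_mem (one_sub_avg_mem (h2 0)) (one_sub_avg_mem (h2 1))) (one_sub_avg_mem (h2 2))
  have h4 : mk B q ∈ pushIdeal (cornerIdeal d q) := by
    rw [← hw]
    exact Ideal.mul_mem_left _ _ (Ideal.mul_mem_left _ _ h3)
  rw [mk_mem_pushIdeal (K := cornerIdeal d q) (fun z hz => null_mul_mem hz)] at h4
  change q * q ∈ hsIdeal d q at h4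
  rw [hq] at h4
  exact mk_eq_zero.mpr (null_of_mem_hsIdeal h4)

end Pool.Agent.MP_56ff7a_an

end

-- part MP_56ff7a_an.Group
section

/-!
A concrete countable group with a compressed triple.
-/

set_option autoImplicit false

namespace Pool.Agent.MP_56ff7a_an

open Matrix

section Elementary

variable {R : Type} [Ring R]

/-- Elementary matrices as units. -/
def el (i j : Fin 3) (h : i ≠ j) (r : R) : (Matrix (Fin 3) (Fin 3) R)ˣ where
  val := 1 + single i j r
  inv := 1 - single i j r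
  val_inv := by
    rw [mul_sub, add_mul, add_mul, single_mul_single_of_ne _ _ _ _ h.symm]; simp
  inv_val := by
    rw [mul_add, sub_mul, sub_mul, single_mul_single_of_ne _ _ _ _ h.symm]; simp

lemma el_val (i j : Fin 3) (h : i ≠ j) (r : R) : (el i j h r).val = 1 + single i j r := rfl

lemma el_inv_val (i j : Fin 3) (h : i ≠ j) (r : R) : (el i j h r)⁻¹.val = 1 - single i j r := rfl

lemma el_mul (i j : Fin 3) (h : i ≠ j) (r r' : R) :
    el i j h r * el i j h r' = el i j h (r + r') := by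
  apply Units.ext
  rw [Units.val_mul, el_val, el_val, el_val, mul_add, add_mul, add_mul,
    single_mul_single_of_ne _ _ _ _ h.symm, single_add]
  simp [add_assoc]

lemma el_zero (i j : Fin 3) (h : i ≠ j) : el i j h (0 : R) = 1 := by
  apply Units.ext
  rw [el_val]; simp

lemma el_inv (i j : Fin 3) (h : i ≠ j) (r : R) : (el i j h r)⁻¹ = el i j h (-r) := by
  rw [inv_eq_iff_mul_eq_one, el_mul, add_neg_cancel, el_zero]

lemma el_pow (i j : Fin 3) (h : i ≠ j) (r : R) (n : ℕ) : el i j h r ^ n = el i j h (n * r) := by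
  induction n with
  | zero => simp [el_zero]
  | succ n ih => rw [pow_succ, ih, el_mul]; push_cast; rw [add_mul, one_mul]

lemma el_commute {i j k l : Fin 3} (h : i ≠ j) (h' : k ≠ l) (h1 : j ≠ k) (h2 : l ≠ i) (r r' : R) :
    Commute (el i j h r) (el k l h' r') := by
  apply Units.ext
  rw [Units.val_mul, Units.val_mul, el_val, el_val, mul_add, add_mul, add_mul, mul_add, add_mul,
    add_mul, single_mul_single_of_ne _ _ _ _ h1, single_mul_single_of_ne _ _ _ _ h2]
  simp only [mul_one, one_mul, add_zero]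
  abel

lemma cm_el {i j k : Fin 3} (h : i ≠ j) (h' : j ≠ k) (h'' : i ≠ k) (r r' : R) :
    cm (el i j h r) (el j k h' r') = el i k h'' (r * r') := by
  have : el i j h r * el j k h' r' = el i k h'' (r * r') * el j k h' r' * el i j h r := by
    apply Units.ext
    simp only [Units.val_mul, el_val, mul_add, add_mul, mul_one, one_mul, single_mul_single_same,
      single_mul_single_of_ne _ _ _ _ h'.symm, single_mul_single_of_ne _ _ _ _ h''.symm,
      add_zero]
    abel
  unfold cm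
  rw [this]; group

/-- Scalar matrices as units. -/
def sc (u : Rˣ) : (Matrix (Fin 3) (Fin 3) R)ˣ :=
  Units.map (Matrix.scalar (Fin 3)).toMonoidHom u

lemma sc_conj (u : Rˣ) (i j : Fin 3) (h : i ≠ j) (r : R) :
    sc u * el i j h r * (sc u)⁻¹ = el i j h (u * r * u⁻¹.val) := by
  apply Units.ext
  have h1 : (sc u).val = Matrix.scalar (Fin 3) u.val := rfl
  have h2 : (sc u)⁻¹.val = Matrix.scalar (Fin 3) u⁻¹.val := rfl
  rw [Units.val_mul, Units.val_mul, h1, h2, el_val, el_val, mul_add, add_mul, mul_one, ← map_mul,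
    Units.mul_inv, map_one]
  congr 1
  ext a b
  simp only [scalar_apply, mul_diagonal, diagonal_mul, single_apply]
  split_ifs <;> simp

end Elementary

/-- The relations used in the argument. -/
structure Rel {G : Type} [Group G] (a : Fin 3 → G) (t g : G) : Prop where
  triple : IsTriple a
  ht : ∀ i, t * a i * t⁻¹ = cm (cm (a i) (a (i + 1))) (cm (a (i + 2)) (a i))
  hgt : ∀ i, Commute (t * a i * t⁻¹) g
  hga : ∀ i, g⁻¹ * a i * g = (a i)⁻¹
  hne : a 0 ≠ 1

lemma exists_rel_of_ring {R : Type} [Ring R] (h5 : (5 : R) = 0) (s : R) (σ χ : Rˣ)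
    (hσ : σ * s * σ⁻¹.val = s * s * (s * s)) (hχ : χ * s * χ⁻¹.val = -s) (hs : s ≠ 0) :
    ∃ (a : Fin 3 → (Matrix (Fin 3) (Fin 3) R)ˣ) (t g : (Matrix (Fin 3) (Fin 3) R)ˣ),
      Rel a t g := by
  have n1 : ∀ i : Fin 3, i ≠ i + 1 := by decide
  have n2 : ∀ i : Fin 3, i ≠ i + 1 + 1 := by decide
  have n3 : ∀ i : Fin 3, i + 2 ≠ i + 1 := by decide
  have n4 : ∀ i : Fin 3, i + 2 ≠ i := by decide
  have e1 : ∀ i : Fin 3, i + 1 + 1 = i + 2 := by decide
  have e2 : ∀ i : Fin 3, i + 2 + 1 = i := by decide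
  have elc : ∀ (i j j' : Fin 3) (h : i ≠ j) (h' : i ≠ j') (r : R), j = j' →
      el i j h r = el i j' h' r := by
    rintro i j j' h h' r rfl; rfl
  refine ⟨fun i => el i (i + 1) (n1 i) s, sc σ, (sc χ)⁻¹, ⟨?_, ?_, ?_⟩, ?_, ?_, ?_, ?_⟩
  · intro i
    rw [el_pow]; push_cast; rw [h5, zero_mul, el_zero]
  · intro i
    rw [cm_el _ _ (n2 i)]
    exact el_commute _ _ (n2 i).symm (n1 i).symm _ _
  · intro i
    rw [cm_el _ _ (n2 i)]
    exact el_commute _ _ (n1 (i + 1)).symm (n2 i).symm _ _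
  · intro i
    rw [sc_conj, cm_el _ _ (n2 i), elc (i + 2) _ i _ (n4 i) s (e2 i), cm_el _ _ (n3 i),
      elc i _ (i + 2) _ (n4 i).symm _ (e1 i), cm_el _ _ (n1 i), hσ]
  · intro i
    rw [sc_conj, hσ]
    apply Commute.inv_right
    have h1 : (χ : R) * (s * s * (s * s)) * χ⁻¹.val = s * s * (s * s) := by
      have h2 : (χ : R) * (s * s * (s * s)) * χ⁻¹.val = (χ * s * χ⁻¹.val) * (χ * s * χ⁻¹.val) *
          ((χ * s * χ⁻¹.val) * (χ * s * χ⁻¹.val)) := by
        simp only [mul_assoc, Units.inv_mul_cancel_left]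
      rw [h2, hχ, neg_mul_neg]
    have h3 := sc_conj χ i (i + 1) (n1 i) (s * s * (s * s))
    rw [h1, mul_inv_eq_iff_eq_mul] at h3
    exact h3.symm
  · intro i
    rw [inv_inv, sc_conj, hχ, el_inv]
  · intro h
    apply hs
    have h1 : (el 0 (0 + 1) (n1 0) s).val = 1 := congrArg Units.val h
    have := congrFun (congrFun h1 0) 1
    simpa [el_val] using this

/-- The sign attached to a rational number. -/
def sgn (q : ℚ) : ZMod 5 := if Even ⌊q⌋ then 1 else -1

lemma sgn_mul_self (q : ℚ) : sgn q * sgn q = 1 := by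
  unfold sgn; split_ifs <;> simp

lemma sgn_add_one (q : ℚ) : sgn (q + 1) = -sgn q := by
  unfold sgn
  rw [Int.floor_add_one]
  by_cases h : Even ⌊q⌋ <;> simp [h]

/-- Multiplication by the sign. -/
def sgnMap : Module.End (ZMod 5) (ℚ → ZMod 5) where
  toFun f q := sgn q * f q
  map_add' f f' := by funext q; simp [mul_add]
  map_smul' c f := by funext q; simp [mul_left_comm]

lemma exists_rel : ∃ (K : Type) (_ : Group K) (a : Fin 3 → K) (t g : K), Rel a t g := by
  let R := Module.End (ZMod 5) (ℚ → ZMod 5)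
  let s : R := LinearMap.funLeft (ZMod 5) (ZMod 5) (fun q : ℚ => q + 1)
  let σ : Rˣ := ⟨LinearMap.funLeft (ZMod 5) (ZMod 5) (fun q : ℚ => q / 4),
    LinearMap.funLeft (ZMod 5) (ZMod 5) (fun q : ℚ => 4 * q), by
      apply LinearMap.ext; intro f; funext q
      change f (4 * (q / 4)) = f q
      congr 1; ring, by
      apply LinearMap.ext; intro f; funext q
      change f (4 * q / 4) = f q
      congr 1; ring⟩
  have hχ : sgnMap * sgnMap = 1 := by
    apply LinearMap.ext; intro f; funext q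
    change sgn q * (sgn q * f q) = f q
    rw [← mul_assoc, sgn_mul_self, one_mul]
  let χ : Rˣ := ⟨sgnMap, sgnMap, hχ, hχ⟩
  refine ⟨_, inferInstance, exists_rel_of_ring (R := R) ?_ s σ χ ?_ ?_ ?_⟩
  · have : (5 : R) = algebraMap (ZMod 5) R 5 := (map_ofNat _ 5).symm
    rw [this, show (5 : ZMod 5) = 0 from rfl, map_zero]
  · apply LinearMap.ext; intro f; funext q
    change f (4 * (q / 4 + 1)) = f (q + 1 + 1 + 1 + 1)
    congr 1; ring
  · apply LinearMap.ext; intro f; funext q
    change sgn q * (sgn (q + 1) * f (q + 1)) = -f (q + 1)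
    rw [sgn_add_one, ← mul_assoc, mul_neg, sgn_mul_self]; ring
  · intro h
    have := congrFun (LinearMap.congr_fun h (fun _ => 1)) 0
    change (1 : ZMod 5) = 0 at this
    exact absurd this (by decide)

lemma exists_countable_rel :
    ∃ (G : Type) (_ : Group G) (_ : Countable G) (a : Fin 3 → G) (t g : G), Rel a t g := by
  obtain ⟨K, _, a, t, g, h⟩ := exists_rel
  let f : FreeGroup (Fin 3 ⊕ Bool) →* K :=
    FreeGroup.lift (Sum.elim a (fun b => if b then t else g))
  have hc : Countable f.range := f.rangeRestrict_surjective.countable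
  refine ⟨f.range, inferInstance, hc, fun i => ⟨a i, FreeGroup.of (Sum.inl i), by simp [f]⟩,
    ⟨t, FreeGroup.of (Sum.inr true), by simp [f]⟩,
    ⟨g, FreeGroup.of (Sum.inr false), by simp [f]⟩, ⟨?_, ?_, ?_⟩, ?_, ?_, ?_, ?_⟩
  · intro i; exact Subtype.ext (h.triple.h5 i)
  · intro i; exact Subtype.ext (h.triple.hl i)
  · intro i; exact Subtype.ext (h.triple.hr i)
  · intro i; exact Subtype.ext (h.ht i)
  · intro i; exact Subtype.ext (h.hgt i)
  · intro i; exact Subtype.ext (h.hga i)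
  · intro h'; exact h.hne (congrArg Subtype.val h')

lemma Rel.mem_closure {G : Type} [Group G] {a : Fin 3 → G} {t g : G} (h : Rel a t g) (i : Fin 3) :
    t * a i * t⁻¹ ∈ Subgroup.closure (Set.range a) := by
  have ha : ∀ j, a j ∈ Subgroup.closure (Set.range a) := fun j => Subgroup.subset_closure ⟨j, rfl⟩
  have hcm : ∀ x ∈ Subgroup.closure (Set.range a), ∀ y ∈ Subgroup.closure (Set.range a),
      cm x y ∈ Subgroup.closure (Set.range a) := fun x hx y hy =>
    mul_mem (mul_mem (mul_mem hx hy) (inv_mem hx)) (inv_mem hy)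
  rw [h.ht]
  exact hcm _ (hcm _ (ha _) _ (ha _)) _ (hcm _ (ha _) _ (ha _))

end Pool.Agent.MP_56ff7a_an

end

-- part MP_56ff7a_an.HS
section

/-!
The Hilbert-Schmidt space of a matrix algebra and two-sided multiplication operators.
-/

set_option autoImplicit false

namespace Pool.Agent.MP_56ff7a_an

open scoped InnerProductSpace

instance dedekindFinite (E : Type) [NormedAddCommGroup E] [InnerProductSpace ℂ E]
    [FiniteDimensional ℂ E] : IsDedekindFiniteMonoid (E →L[ℂ] E) := by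
  have : IsDedekindFiniteMonoid (E →ₗ[ℂ] E) :=
    inferInstance
  exact IsDedekindFiniteMonoid.of_injective
    (ContinuousLinearMap.toLinearMapRingHom : (E →L[ℂ] E) →+* E →ₗ[ℂ] E)
    ContinuousLinearMap.coe_injective

/-- The Hilbert-Schmidt space: tuples of columns. -/
abbrev HS (k : ℕ) : Type := PiLp 2 (fun _ : Fin k => EuclideanSpace ℂ (Fin k))

variable {k : ℕ}

/-- A matrix as the tuple of its columns. -/
noncomputable def toHS (k : ℕ) : Mat k ≃ₗ[ℂ] HS k :=
  LinearMap.toContinuousLinearMap.symm.trans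
    (((EuclideanSpace.basisFun (Fin k) ℂ).toBasis.constr ℂ).symm.trans
      (WithLp.linearEquiv 2 ℂ (Fin k → EuclideanSpace ℂ (Fin k))).symm)

lemma toHS_apply (x : Mat k) (j : Fin k) :
    toHS k x j = x (EuclideanSpace.basisFun (Fin k) ℂ j) := rfl

lemma mat_norm_star (x : Mat k) : ‖star x‖ = ‖x‖ := norm_star x

lemma mat_star_sub (x y : Mat k) : star (x - y) = star x - star y := star_sub x y

/-- The trace. -/
noncomputable def tr (x : Mat k) : ℂ := LinearMap.trace ℂ _ x.toLinearMap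

lemma tr_mul_comm (x y : Mat k) : tr (x * y) = tr (y * x) :=
  LinearMap.trace_mul_comm ℂ x.toLinearMap y.toLinearMap

lemma inner_toHS (x y : Mat k) : ⟪toHS k x, toHS k y⟫_ℂ = tr (star x * y) := by
  unfold tr
  rw [LinearMap.trace_eq_sum_inner _ (EuclideanSpace.basisFun (Fin k) ℂ), PiLp.inner_apply]
  refine Finset.sum_congr rfl fun j _ => ?_
  rw [toHS_apply, toHS_apply, ← ContinuousLinearMap.adjoint_inner_right]
  rfl

lemma norm_toHS_star (x : Mat k) : ‖toHS k (star x)‖ = ‖toHS k x‖ := by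
  rw [@norm_eq_sqrt_re_inner ℂ, @norm_eq_sqrt_re_inner ℂ, inner_toHS, inner_toHS, star_star,
    tr_mul_comm]

lemma norm_toHS_mul_left (a x : Mat k) : ‖toHS k (a * x)‖ ≤ ‖a‖ * ‖toHS k x‖ := by
  rw [← sq_le_sq₀ (norm_nonneg _) (by positivity), mul_pow, PiLp.norm_sq_eq_of_L2,
    PiLp.norm_sq_eq_of_L2, Finset.mul_sum]
  refine Finset.sum_le_sum fun j _ => ?_
  rw [← mul_pow, toHS_apply, toHS_apply]
  exact pow_le_pow_left₀ (norm_nonneg _) (a.le_opNorm _) 2

lemma norm_toHS_mul_right (x b : Mat k) : ‖toHS k (x * b)‖ ≤ ‖b‖ * ‖toHS k x‖ := by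
  rw [← norm_toHS_star, star_mul, ← norm_toHS_star x, ← norm_star b]
  exact norm_toHS_mul_left _ _

lemma norm_toHS_mul_mul (a x b : Mat k) :
    ‖toHS k (a * x * b)‖ ≤ ‖a‖ * ‖b‖ * ‖toHS k x‖ := by
  calc ‖toHS k (a * x * b)‖ ≤ ‖b‖ * ‖toHS k (a * x)‖ := norm_toHS_mul_right _ _
    _ ≤ ‖b‖ * (‖a‖ * ‖toHS k x‖) :=
        mul_le_mul_of_nonneg_left (norm_toHS_mul_left _ _) (norm_nonneg _)
    _ = ‖a‖ * ‖b‖ * ‖toHS k x‖ := by ring

/-- The operator `x ↦ a x b` on the Hilbert-Schmidt space. -/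
noncomputable def twoSided (a b : Mat k) : HS k →L[ℂ] HS k :=
  LinearMap.mkContinuous
    ((toHS k).toLinearMap ∘ₗ LinearMap.mulLeftRight ℂ (a, b) ∘ₗ (toHS k).symm.toLinearMap)
    (‖a‖ * ‖b‖) (fun v => by
      obtain ⟨x, rfl⟩ := (toHS k).surjective v
      simpa using norm_toHS_mul_mul a x b)

lemma twoSided_apply (a b x : Mat k) : twoSided a b (toHS k x) = toHS k (a * x * b) := by
  simp [twoSided]

lemma norm_twoSided_le (a b : Mat k) : ‖twoSided a b‖ ≤ ‖a‖ * ‖b‖ :=
  LinearMap.mkContinuous_norm_le _ (by positivity) _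

lemma hs_ext {S T : HS k →L[ℂ] HS k} (h : ∀ x, S (toHS k x) = T (toHS k x)) : S = T := by
  ext1 v
  obtain ⟨x, rfl⟩ := (toHS k).surjective v
  exact h x

/-- Conjugation `x ↦ u x u*` on the Hilbert-Schmidt space. -/
noncomputable def ad (u : Mat k) : HS k →L[ℂ] HS k := twoSided u (star u)

lemma ad_apply (u x : Mat k) : ad u (toHS k x) = toHS k (u * x * star u) := twoSided_apply _ _ _

lemma ad_one : ad (1 : Mat k) = 1 := hs_ext fun x => by simp [ad_apply]

lemma ad_mul (u v : Mat k) : ad (u * v) = ad u * ad v := hs_ext fun x => by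
  rw [mul_apply_eq_comp, ad_apply, ad_apply, ad_apply, star_mul]
  simp only [mul_assoc]

lemma star_ad (u : Mat k) : star (ad u) = ad (star u) := by
  rw [ContinuousLinearMap.star_eq_adjoint]
  symm
  rw [ContinuousLinearMap.eq_adjoint_iff]
  intro v w
  obtain ⟨x, rfl⟩ := (toHS k).surjective v
  obtain ⟨y, rfl⟩ := (toHS k).surjective w
  rw [ad_apply, ad_apply, inner_toHS, inner_toHS, star_star, star_mul, star_mul, star_star,
    mul_assoc, tr_mul_comm]
  simp only [mul_assoc]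

lemma norm_ad_le (u : Mat k) : ‖ad u‖ ≤ ‖u‖ * ‖u‖ := by
  have := norm_twoSided_le u (star u)
  rwa [mat_norm_star] at this

lemma norm_ad_sub_le (u v : Mat k) : ‖ad u - ad v‖ ≤ (‖u‖ + ‖v‖) * ‖u - v‖ := by
  have h : ad u - ad v = twoSided (u - v) (star u) + twoSided v (star (u - v)) :=
    hs_ext fun x => by
      rw [sub_apply, add_apply, ad_apply, ad_apply,
        twoSided_apply, twoSided_apply, ← map_sub, ← map_add, mat_star_sub]
      congr 1
      simp only [sub_mul, mul_sub]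
      abel
  rw [h]
  refine (norm_add_le _ _).trans ?_
  have h1 := norm_twoSided_le (u - v) (star u)
  have h2 := norm_twoSided_le v (star (u - v))
  rw [mat_norm_star] at h1 h2
  nlinarith

end Pool.Agent.MP_56ff7a_an

end

-- part MP_56ff7a_an.Final
section

/-!
Every star homomorphism from the reduced C*-algebra of the group into a quotient of bounded
sequences of matrices by null sequences vanishes.
-/

set_option autoImplicit false

namespace Pool.Agent.MP_56ff7a_an

open Filter Topology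
open scoped ENNReal

section Abstract

variable {B B' H : ℕ → Type} [∀ n, CStarAlgebra (B n)] [∀ n, CStarAlgebra (B' n)]
  [∀ n, NormedAddCommGroup (H n)]

theorem vanish_hom (d : ∀ n, HSData (B n) (B' n) (H n)) [∀ n, IsDedekindFiniteMonoid (B' n)]
    {G : Type} [Group G] {a : Fin 3 → G} {t g : G} (h : Rel a t g)
    {A : Type} [Ring A] [StarRing A] [Algebra ℂ A] (l : G →* A) (hl : ∀ x, star (l x) = l x⁻¹)
    {w : A} (hw : w * lap l a = 1) (φ : A →⋆ₙₐ[ℂ] Corona B) : φ 1 = 0 := by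
  have e1 : ∀ x, φ x * φ 1 = φ x := fun x => by rw [← map_mul, mul_one]
  have e2 : ∀ x, φ 1 * φ x = φ x := fun x => by rw [← map_mul, one_mul]
  let π : G →* Corona B :=
    { toFun := fun x => φ (l x) + (1 - φ 1)
      map_one' := by rw [map_one]; abel
      map_mul' := fun x y => by
        simp only [map_mul, add_mul, mul_add, mul_sub, sub_mul, one_mul, mul_one, e1, e2]
        abel }
  have hπ : ∀ x, π x = φ (l x) + (1 - φ 1) := fun _ => rfl
  have s1 : star (φ 1) = φ 1 := by rw [← map_star, star_one]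
  have e3 : ∀ x, φ 1 * π x = φ (l x) := fun x => by
    rw [hπ, mul_add, mul_sub, e2, e2, mul_one]; abel
  have e4 : ∀ x, π x * φ 1 = φ (l x) := fun x => by
    rw [hπ, add_mul, sub_mul, e1, e1, one_mul]; abel
  have e5 : ∀ x, φ 1 * (1 - avg (π x)) = φ (1 - avg (l x)) := fun x => by
    unfold avg
    simp only [← map_pow, mul_sub, mul_add, mul_smul_comm, mul_one, e3, map_sub, map_add, map_smul]
  refine vanish d h.triple h.mem_closure h.hgt h.hga π (fun x => ?_) s1 (e1 1)
    (fun x => (e4 x).trans (e3 x).symm) (w := φ w) ?_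
  · rw [hπ, hπ, star_add, star_sub, star_one, s1, ← map_star, hl]
  · unfold lap
    rw [mul_add (φ 1), mul_add (φ 1), e5, e5, e5, ← map_add, ← map_add, ← map_mul]
    exact congrArg φ hw

/-- Elements of the product as bounded sequences. -/
def toBdd (x : lp B ∞) : Bdd B :=
  ⟨fun n => x n, ‖x‖, norm_nonneg _, fun n => lp.norm_apply_le_norm ENNReal.top_ne_zero x n⟩

theorem exists_corona_hom {Q : Type} [NonUnitalRing Q] [Module ℂ Q] [Star Q]
    (q : lp B ∞ →⋆ₙₐ[ℂ] Q) (hq : Function.Surjective q)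
    (hker : ∀ x : lp B ∞, q x = 0 ↔ Tendsto (fun n => ‖x n‖) atTop (𝓝 0)) :
    ∃ θ : Q →⋆ₙₐ[ℂ] Corona B, ∀ y, θ y = 0 → y = 0 := by
  let f : Q → Corona B := fun y => mk B (toBdd (Function.surjInv hq y))
  have hf : ∀ x, f (q x) = mk B (toBdd x) := by
    intro x
    apply mk_eq_mk.mpr
    have : q (Function.surjInv hq (q x) - x) = 0 := by
      rw [map_sub, Function.surjInv_eq hq, sub_self]
    exact (hker _).mp this
  refine ⟨{ toFun := f, map_smul' := ?_, map_zero' := ?_, map_add' := ?_, map_mul' := ?_,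
            map_star' := ?_ }, ?_⟩
  · intro c y
    obtain ⟨x, rfl⟩ := hq y
    rw [← map_smul, hf, hf, MonoidHom.id_apply, ← map_smul]; rfl
  · rw [← map_zero q, hf, ← map_zero (mk B)]; rfl
  · intro y y'
    obtain ⟨x, rfl⟩ := hq y
    obtain ⟨x', rfl⟩ := hq y'
    rw [← map_add, hf, hf, hf, ← map_add]; rfl
  · intro y y'
    obtain ⟨x, rfl⟩ := hq y
    obtain ⟨x', rfl⟩ := hq y'
    rw [← map_mul, hf, hf, hf, ← map_mul]; rfl
  · intro y
    obtain ⟨x, rfl⟩ := hq y
    rw [← map_star, hf, hf, star_mk]; rfl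
  · intro y hy
    obtain ⟨x, rfl⟩ := hq y
    change f (q x) = 0 at hy
    rw [hf, mk_eq_zero] at hy
    exact (hker x).mpr hy

end Abstract

/-- The Hilbert-Schmidt data of a matrix algebra. -/
noncomputable def matData (k : ℕ) : HSData (Mat k) (HS k →L[ℂ] HS k) (HS k) where
  ι := (toHS k).toLinearMap.toAddMonoidHom
  ι_eq_zero _ h := (toHS k).map_eq_zero_iff.mp h
  norm_left := norm_toHS_mul_left
  norm_right := norm_toHS_mul_right
  ad := { toFun := ad, map_one' := ad_one, map_mul' := ad_mul }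
  star_ad := star_ad
  norm_ad := norm_ad_le
  norm_ad_sub := norm_ad_sub_le
  act y v := y v
  act_add _ _ _ := rfl
  act_mul _ _ _ := rfl
  norm_act y v := y.le_opNorm v
  act_ad u x := by
    change ad u (toHS k x) - toHS k x = toHS k (u * x * star u - x)
    rw [ad_apply, map_sub]

section Reduced

variable {G : Type} [Group G]

/-- The reduced group C*-algebra. -/
noncomputable abbrev reducedCStar (G : Type) [Group G] : StarSubalgebra ℂ (BL2 G) :=
  generatedCStar (leftTranslations G)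

lemma lam_mem (x : G) : lam G x ∈ reducedCStar G :=
  StarSubalgebra.le_topologicalClosure _ (StarAlgebra.subset_adjoin ℂ _ ⟨x, fun _ _ => rfl⟩)

/-- The left regular representation with values in the reduced C*-algebra. -/
noncomputable def lamRed (G : Type) [Group G] : G →* reducedCStar G where
  toFun x := ⟨lam G x, lam_mem x⟩
  map_one' := Subtype.ext (map_one (lam G))
  map_mul' x y := Subtype.ext (map_mul (lam G) x y)

lemma exists_lap_inv_red {a : Fin 3 → G} (ha : IsTriple a)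
    [Infinite (Subgroup.closure (Set.range a))] :
    ∃ w : reducedCStar G, w * lap (lamRed G) a = 1 := by
  obtain ⟨w, -, w2, w3⟩ := exists_lap_inv ha
  have hu : IsUnit (lap (lam G) a) := ⟨⟨_, w, w3, w2⟩, rfl⟩
  have : IsClosed (reducedCStar G : Set (L2 G →L[ℂ] L2 G)) :=
    StarSubalgebra.isClosed_topologicalClosure _
  have h2 : IsUnit (lap (lamRed G) a) := (StarSubalgebra.coe_isUnit (reducedCStar G)).mp hu
  exact h2.exists_left_inv

theorem liftsAlong_of {A : Type} [Ring A] [Module ℂ A] [Star A] {B : ℕ → Type}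
    [∀ n, CStarAlgebra (B n)] (h : ∀ φ : A →⋆ₙₐ[ℂ] Corona B, φ 1 = 0) :
    Lifts A (lp B ∞) (nullSequences B) := by
  intro Q _ _ _ q hq hker φ
  obtain ⟨θ, hθ⟩ := exists_corona_hom q hq hker
  have h2 : φ 1 = 0 := hθ _ (h (θ.comp φ))
  refine ⟨{ toFun := fun _ => 0
            map_smul' := fun c _ => (smul_zero c).symm
            map_zero' := rfl
            map_add' := fun _ _ => (add_zero _).symm
            map_mul' := fun _ _ => (mul_zero (0 : lp B ∞)).symm
            map_star' := fun _ => (star_zero (lp B ∞)).symm }, fun x => ?_⟩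
  have h3 : φ x = 0 := by rw [← one_mul x, map_mul φ, h2, zero_mul]
  rw [h3]
  exact map_zero q

theorem matricial_of_rel {a : Fin 3 → G} {t g : G} (h : Rel a t g) :
    IsMatriciallyWeaklySemiprojective (generatedCStar (leftTranslations G)) := by
  intro k
  have := closure_infinite h.triple h.mem_closure h.hgt h.hga h.hne
  obtain ⟨w, hw⟩ := exists_lap_inv_red h.triple
  exact liftsAlong_of (fun φ => vanish_hom (fun n => matData (k n)) h (lamRed G)
    (fun x => Subtype.ext (star_lam x)) hw φ)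

end Reduced

end Pool.Agent.MP_56ff7a_an

end
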