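import Pool.Agent.MP_56ff7a_an.Mg.H20_Schur

/-!
Groups containing a free subgroup of rank two.
-/

namespace Pool.Agent.MP_56ff7a_an.H20

open Finset Filter Topology

theorem gen_le {C I : Type} [CStarAlgebra C] (f : I → C) (hf : ∀ i, ∃ j, star (f i) = f j) :
    (generatedCStar (Set.range f) : Set C) ⊆
      closure (Submodule.span ℂ (Set.range fun l : List I => (l.map f).prod)) := by
  refine closure_mono fun x hx => adjoin_le_span
    (s := Set.range fun l : List I => (l.map f).prod) ⟨[], rfl⟩ ?_ ?_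
    (StarAlgebra.adjoin_mono (by rintro _ ⟨i, rfl⟩; exact ⟨[i], by simp⟩) hx)
  · rintro _ ⟨a, rfl⟩ _ ⟨b, rfl⟩
    exact ⟨a ++ b, by simp⟩
  · rintro _ ⟨l, rfl⟩
    induction l with
    | nil => exact ⟨[], by simp⟩
    | cons i l ih =>
      obtain ⟨k, hk⟩ := ih
      obtain ⟨j, hj⟩ := hf i
      exact ⟨k ++ [j], by simp_all⟩

theorem range_lam (G : Type) [Group G] : leftTranslations G = Set.range (lam G) := by
  ext T
  exact exists_congr fun g => ⟨fun h => by ext ξ k; exact (h ξ k).symm, fun h _ _ => h ▸ rfl⟩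

/-- Evaluation of sequences. -/
def evn {B : Type} [CStarAlgebra B] [Nontrivial B] (n : ℕ) : Sq B →⋆ₙₐ[ℂ] B where
  toFun x := x n
  map_smul' _ _ := rfl
  map_zero' := rfl
  map_add' _ _ := rfl
  map_mul' _ _ := rfl
  map_star' _ := rfl

theorem re_ge {z : ℂ} (h : ‖z - 9 / 10‖ < 1 / 100) : 89 / 100 ≤ z.re := by
  have := abs_lt.1 ((Complex.abs_re_le_norm _).trans_lt h)
  norm_num at this
  linarith [this.1]

/-- The angle along the homotopy. -/
noncomputable def ang (t : ℚ) : ℝ := Real.arcsin (9 / 10) * (1 - t)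

theorem sin_ang {t : ℚ} (ht : t ∈ Set.Icc (0 : ℚ) 1) : |Real.sin (ang t)| ≤ 9 / 10 := by
  have h0 : (0 : ℝ) ≤ t := by exact_mod_cast ht.1
  have h1 : (t : ℝ) ≤ 1 := by exact_mod_cast ht.2
  have h2 := Real.arcsin_nonneg.2 (show (0 : ℝ) ≤ 9 / 10 by norm_num)
  have h3 := Real.arcsin_le_pi_div_two (9 / 10)
  have h4 : 0 ≤ ang t := mul_nonneg h2 (by linarith)
  have h5 : ang t ≤ Real.arcsin (9 / 10) := mul_le_of_le_one_right h2 (by linarith)
  rw [abs_of_nonneg (Real.sin_nonneg_of_nonneg_of_le_pi h4 (by linarith [Real.pi_pos]))]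
  exact (Real.sin_le_sin_of_le_of_le_pi_div_two (by linarith [Real.pi_pos]) h3 h5).trans_eq
    (Real.sin_arcsin (by norm_num) (by norm_num))

theorem ang_sub (s t : ℚ) : |ang s - ang t| ≤ 2 * |(s : ℝ) - t| := by
  have h2 := Real.arcsin_nonneg.2 (show (0 : ℝ) ≤ 9 / 10 by norm_num)
  have h3 := Real.arcsin_le_pi_div_two (9 / 10)
  rw [ang, ang, ← mul_sub, abs_mul, abs_of_nonneg h2, sub_sub_sub_cancel_left, abs_sub_comm]
  exact mul_le_mul_of_nonneg_right (by linarith [Real.pi_le_four]) (abs_nonneg _)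

variable {G : Type} [Group G] {ι : F →* G} (D : Dec ι) {Y : Type} (a : F →* Equiv.Perm Y)

/-- The path of representations. -/
noncomputable def pth (t : ℚ) : G →* BK (D.X × Y) × BK (D.X × F) :=
  (D.ind a (ang t)).prod (D.ind (MulAction.toPermHom F F) (ang t))

theorem star_pth (t : ℚ) (g : G) : star (pth D a t g) = pth D a t g⁻¹ :=
  Prod.ext (D.star_ind _ _ g) (D.star_ind _ _ g)

/-- The C*-algebra generated by the path. -/
noncomputable abbrev Bp : StarSubalgebra ℂ (BK (D.X × Y) × BK (D.X × F)) :=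
  generatedCStar (Set.range fun p : ℚ × G => pth D a p.1 p.2)

theorem Bp_le : (Bp D a : Set (BK (D.X × Y) × BK (D.X × F))) ⊆ closure (Submodule.span ℂ
    (Set.range fun l : List (ℚ × G) => (l.map fun p => pth D a p.1 p.2).prod)) :=
  gen_le _ fun p => ⟨(p.1, p.2⁻¹), star_pth D a _ _⟩

theorem Bp_ind (P : Submodule ℂ (BK (D.X × Y) × BK (D.X × F)))
    (h1 : IsClosed (P : Set (BK (D.X × Y) × BK (D.X × F)))) (h2 : ∀ m, D.Tw a m → m ∈ P)
    (x : Bp D a) : x.1 ∈ P := by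
  refine closure_minimal (Submodule.span_le.2 ?_) h1 (Bp_le D a x.2)
  rintro _ ⟨l, rfl⟩
  refine h2 _ ?_
  induction l with
  | nil => exact .one
  | cons p l ih =>
    exact .mul ⟨p.2⁻¹, fun x => sg (ang p.1) (D.cm p.2⁻¹ x).2⁻¹, fun _ _ => rfl, fun _ _ => rfl⟩ ih

instance [Countable G] : TopologicalSpace.SeparableSpace (Bp D a) :=
  (((Set.countable_range _).isSeparable.span.closure).mono (Bp_le D a)).separableSpace

instance : Nontrivial (Bp D a) := ⟨0, 1, fun h => by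
  have := congrArg (fun x : Bp D a => D.om 1 1 x.1.2) h
  simp [Dec.om_apply, Dec.pt_apply] at this⟩

theorem Bp_comm {β : Equiv.Perm Y} (hβ : ∀ h, Commute (a h) β) (x : Bp D a) :
    Commute x.1.1 (D.rgtH β) :=
  Bp_ind D a
    { carrier := {m | m.1 * D.rgtH β = D.rgtH β * m.1}
      add_mem' := fun h1 h2 => Commute.add_left h1 h2
      zero_mem' := Commute.zero_left _
      smul_mem' := fun c _ h => Commute.smul_left h c }
    (isClosed_eq (by fun_prop) (by fun_prop)) (fun _ hm => hm.comm hβ) x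

theorem Bp_tendsto {y : ℕ → Y} (hy : ∀ h ≠ 1, ∀ᶠ k in atTop, a h (y k) ≠ y k) (t : F)
    (x : Bp D a) :
    Tendsto (fun k => D.om (y k) (a t (y k)) x.1.1) atTop (𝓝 (D.om 1 t x.1.2)) :=
  Bp_ind D a
    { carrier := {m | Tendsto (fun k => D.om (y k) (a t (y k)) m.1) atTop (𝓝 (D.om 1 t m.2))}
      add_mem' := fun h1 h2 => by simpa using Tendsto.add h1 h2
      zero_mem' := by simp
      smul_mem' := fun c _ h => by simpa using Tendsto.const_smul h c }
    ((LipschitzWith.uniformEquicontinuous _ 1 fun k => LipschitzWith.of_dist_le_mul fun m n => by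
      rw [dist_eq_norm, ← map_sub, dist_eq_norm, NNReal.coe_one, one_mul]
      exact (D.norm_om _ _ _).trans (norm_fst_le (m - n))).equicontinuous.isClosed_setOfPred_tendsto
        (by fun_prop))
    (fun _ hm => tendsto_const_nhds.congr' ((hm.ev hy t).mono fun _ h => h.symm)) x

/-- The path with values in the generated algebra. -/
noncomputable def pU (t : ℚ) : G →* Bp D a := (pth D a t).codRestrict _ fun g =>
  StarSubalgebra.le_topologicalClosure _ (StarAlgebra.subset_adjoin _ _ ⟨(t, g), rfl⟩)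

/-- The second coordinate. -/
noncomputable def pq : Bp D a →⋆ₐ[ℂ] BK (D.X × F) :=
  (StarAlgHom.snd ℂ _ _).comp (Bp D a).subtype

theorem pU_lip (s : ℚ) (hs : s ∈ Set.Icc (0 : ℚ) 1) (t : ℚ) (ht : t ∈ Set.Icc (0 : ℚ) 1) (g : G) :
    ‖pU D a s g - pU D a t g‖ ≤ 402 * |(s : ℝ) - t| :=
  show ‖pth D a s g - pth D a t g‖ ≤ _ from norm_prod_le_iff.2
    ⟨(D.ind_lip _ (sin_ang hs) (sin_ang ht) g).trans (by linarith [ang_sub s t]),
      (D.ind_lip _ (sin_ang hs) (sin_ang ht) g).trans (by linarith [ang_sub s t])⟩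

theorem pU_one (f : G →₀ ℂ) :
    ‖f.sum fun g c => c • pU D a 1 g‖ ≤ ‖f.sum fun g c => c • lam G g‖ := by
  change ‖(Bp D a).subtype _‖ ≤ _
  have e : ang 1 = 0 := by simp [ang]
  rw [map_finsuppSum, norm_prod_le_iff]
  have e1 := D.temp_zero a f
  have e2 := D.temp_reg 0 f
  rw [← e] at e1 e2
  simp only [Finsupp.sum, Prod.fst_sum, Prod.snd_sum] at e1 e2 ⊢
  exact ⟨e1, e2⟩

theorem om_pq (x : Fin 2 × Bool) :
    D.om 1 (lt x)⁻¹ (pq D a (pU D a 0 (ι (lt x)))) = 9 / 10 := by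
  change D.ind (MulAction.toPermHom F F) (ang 0) (ι (lt x)) (D.pt (lt x)⁻¹) (D.o, 1) 1 = _
  rw [Dec.ind_apply, Dec.act_apply, ← map_inv ι, D.cm_o, Dec.pt_apply, if_pos (by simp), inv_inv,
    sg_coef, ang]
  norm_num [Real.sin_arcsin]

theorem abs_hom {B E : Type} [CStarAlgebra B] [CStarAlgebra E] [Nontrivial B]
    [TopologicalSpace.SeparableSpace B] (h : IsWeaklySemiprojective (Cr G)) (q : B →⋆ₐ[ℂ] E)
    (U : ℚ → G →* B) (hs : ∀ t g, star (U t g) = U t g⁻¹) {K : ℝ} (hK : 0 ≤ K)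
    (hU : ∀ s ∈ Set.Icc (0 : ℚ) 1, ∀ t ∈ Set.Icc (0 : ℚ) 1, ∀ g,
      ‖U s g - U t g‖ ≤ K * |(s : ℝ) - t|)
    (e1 : ∀ f : G →₀ ℂ, ‖f.sum fun g c => c • U 1 g‖ ≤ ‖f.sum fun g c => c • lam G g‖)
    (e2 : ∀ (f : G →₀ ℂ) t, ‖f.sum fun g c => c • q (U t g)‖ ≤ ‖f.sum fun g c => c • lam G g‖)
    {I : Type} [Finite I] (g : I → G) {ε : ℝ} (hε : 0 < ε) :
    ∃ ψ : Cr G →⋆ₙₐ[ℂ] B, ∀ i, ‖q (ψ (lamr G (g i))) - q (U 0 (g i))‖ < ε := by
  obtain ⟨V, h1, h2, h3⟩ := homotopy_lift q U hs hK hU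
  obtain ⟨φ, hφ⟩ := exists_ext (lam G) V star_lam h1 (K := 2) fun f => h2 f _ (e1 f) (e2 f)
  obtain ⟨ψ, hψ⟩ := lift_of_wsp h φ
  obtain ⟨n, hn⟩ := (eventually_all.2 fun i => (h3 (g i) _ ((hψ _).trans
    (hφ _ (lamr G (g i)) rfl))).eventually (gt_mem_nhds hε)).exists
  exact ⟨(evn n).comp ψ, hn⟩

theorem exists_hom [Countable G] (h : IsWeaklySemiprojective (Cr G)) :
    ∃ ψ : Cr G →⋆ₙₐ[ℂ] Bp D a,
      ∀ x, ‖D.om 1 (lt x)⁻¹ (pq D a (ψ (lamr G (ι (lt x))))) - 9 / 10‖ < 1 / 100 := by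
  obtain ⟨ψ, hψ⟩ := abs_hom h (pq D a) (pU D a) (fun t g => Subtype.ext (star_pth D a t g))
    (by norm_num) (pU_lip D a) (pU_one D a) (fun f t => D.temp_reg (ang t) f)
    (fun x => ι (lt x)) (show (0 : ℝ) < 1 / 100 by norm_num)
  refine ⟨ψ, fun x => ?_⟩
  rw [← om_pq D a x, ← map_sub]
  exact (D.norm_om _ _ _).trans_lt (hψ x)

theorem not_wsp [Countable G] (hι : Function.Injective ι) :
    ¬ IsWeaklySemiprojective (generatedCStar (leftTranslations G)) := by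
  rw [range_lam]
  intro h
  obtain ⟨D⟩ := exists_dec hι
  choose p hp1 hp2 using exists_fin
  let a : F →* Equiv.Perm (ℕ × Equiv.Perm F) := MonoidHom.toHomPerm
    { toFun := fun h y => (y.1, p y.1 h * y.2)
      map_one' := funext fun _ => by simp; rfl
      map_mul' := fun _ _ => funext fun _ => by simp [mul_assoc]; rfl }
  let R : Equiv.Perm F →* Equiv.Perm (ℕ × Equiv.Perm F) := MonoidHom.toHomPerm
    { toFun := fun β y => (y.1, y.2 * β⁻¹)
      map_one' := funext fun _ => by simp; rfl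
      map_mul' := fun _ _ => funext fun _ => by simp; rfl }
  obtain ⟨ψ, hψ⟩ := exists_hom D a h
  have hy : ∀ h ≠ 1, ∀ᶠ k in atTop, a h (k, 1) ≠ (k, 1) := fun h h1 => by
    filter_upwards [eventually_ge_atTop h.norm] with k hk h2
    have h3 : p k h * 1 = 1 := congrArg Prod.snd h2
    exact h1 (by rw [← hp2 k h hk, ← mul_one (p k h), h3]; rfl)
  obtain ⟨k, hk⟩ := (eventually_all.2 fun x : Fin 2 × Bool =>
    (((Bp_tendsto D a hy (lt x)⁻¹ (ψ (lamr G (ι (lt x))))).sub_const (9 / 10)).norm).eventually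
      (gt_mem_nhds (hψ x))).exists
  have h1 := (D.norm_om (k, 1) (k, 1) _).trans (power D
    ((((StarAlgHom.fst ℂ _ _).comp (Bp D a).subtype).toNonUnitalStarAlgHom).comp ψ) (p k) (hp1 k)
    (D.rgtH.comp R) (fun β => (D.star_rgtH _).trans (by rw [← map_inv R]; rfl))
    fun x h => Bp_comm D a (fun g => Equiv.ext fun y =>
      Prod.ext rfl (mul_assoc _ _ _).symm) (ψ x))
  have h2 : ∀ x, R (p k (lt x)) (k, 1) = a (lt x)⁻¹ (k, 1) := fun x =>
    Prod.ext rfl (show 1 * (p k (lt x))⁻¹ = p k (lt x)⁻¹ * 1 by simp)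
  rw [map_sum, sum_congr rfl (g := fun x => D.om (k, 1) (a (lt x)⁻¹ (k, 1))
    (ψ (lamr G (ι (lt x)))).1.1) fun x _ => by rw [← h2, Dec.om_apply, Dec.om_apply, ← D.rgt_pt]; rfl]
    at h1
  have h3 := (Complex.re_le_norm _).trans h1
  rw [Complex.re_sum] at h3
  have h4 := (card_nsmul_le_sum _ _ (89 / 100 : ℝ) fun x _ => re_ge (hk x)).trans h3
  norm_num at h4

end Pool.Agent.MP_56ff7a_an.H20
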