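import Mathlib
import Pool.Agent.MP_56ff7a_an.Defs

-- part MP_56ff7a_an.Alg
section

/-!
Purely algebraic part: sums of hermitian squares for a triple of elements of order five with
Heisenberg relations, and the compression argument in a directly finite star algebra.
-/

set_option autoImplicit false

namespace Pool.Agent.MP_56ff7a_an

section Pos

variable (R : Type) [Ring R] [StarRing R]

/-- Sums of hermitian squares. -/
def Pos : AddSubmonoid R := AddSubmonoid.closure (Set.range fun y : R => star y * y)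

variable {R}

lemma star_mul_self_mem_pos (y : R) : star y * y ∈ Pos R :=
  AddSubmonoid.subset_closure ⟨y, rfl⟩

lemma proj_mem_pos {p : R} (h1 : star p = p) (h2 : p * p = p) : p ∈ Pos R := by
  have := star_mul_self_mem_pos p
  rwa [h1, h2] at this

lemma mul_sq_mem_pos {W f : R} (hW : star W = W) (hWW : W * W = W) (hf : star f = f)
    (hc : Commute W f) : W * (f * f) ∈ Pos R := by
  have := star_mul_self_mem_pos (W * f)
  rw [star_mul, hW, hf] at this
  have h2 : f * W * (W * f) = W * (f * f) := by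
    calc f * W * (W * f) = f * (W * W) * f := by noncomm_ring
      _ = W * (f * f) := by rw [hWW, ← hc.eq, mul_assoc]
  rwa [h2] at this

variable [Algebra ℂ R] [StarModule ℂ R]

lemma smul_mem_pos {r : ℝ} (hr : 0 ≤ r) {x : R} (hx : x ∈ Pos R) : (r : ℂ) • x ∈ Pos R := by
  induction hx using AddSubmonoid.closure_induction with
  | mem x hx =>
    obtain ⟨y, rfl⟩ := hx
    have := star_mul_self_mem_pos (((Real.sqrt r : ℝ) : ℂ) • y)
    rw [star_smul, smul_mul_smul_comm] at this
    convert this using 2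
    rw [Complex.star_def, Complex.conj_ofReal, ← Complex.ofReal_mul, Real.mul_self_sqrt hr]
  | zero => simp
  | add x y _ _ hx hy => rw [smul_add]; exact add_mem hx hy

end Pos

section Avg

variable {R : Type} [Ring R] [Algebra ℂ R]

/-- The average over the powers of an element of order five. -/
noncomputable def avg (u : R) : R := (5⁻¹ : ℂ) • (1 + u + u ^ 2 + u ^ 3 + u ^ 4)

lemma mul_avg {u : R} (hu : u ^ 5 = 1) : u * avg u = avg u := by
  unfold avg
  rw [mul_smul_comm]
  congr 1
  have : u * (1 + u + u ^ 2 + u ^ 3 + u ^ 4) = u + u ^ 2 + u ^ 3 + u ^ 4 + u ^ 5 := by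
    noncomm_ring
  rw [this, hu]; abel

lemma avg_mul {u : R} (hu : u ^ 5 = 1) : avg u * u = avg u := by
  unfold avg
  rw [smul_mul_assoc]
  congr 1
  have : (1 + u + u ^ 2 + u ^ 3 + u ^ 4) * u = u + u ^ 2 + u ^ 3 + u ^ 4 + u ^ 5 := by
    noncomm_ring
  rw [this, hu]; abel

omit [Algebra ℂ R] in
lemma pow_mul_of_mul_eq {w y : R} (h : w * y = y) (m : ℕ) : w ^ m * y = y := by
  induction m with
  | zero => simp
  | succ m ih => rw [pow_succ, mul_assoc, h, ih]

lemma avg_mul_of_mul_eq {u y : R} (h : u * y = y) : avg u * y = y := by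
  unfold avg
  rw [smul_mul_assoc]
  simp only [add_mul, one_mul, h, pow_mul_of_mul_eq h]
  module

lemma avg_mul_avg {u : R} (hu : u ^ 5 = 1) : avg u * avg u = avg u :=
  avg_mul_of_mul_eq (mul_avg hu)

lemma commute_avg {z u : R} (h : Commute z u) : Commute z (avg u) := by
  unfold avg
  apply Commute.smul_right
  exact ((((Commute.one_right z).add_right h).add_right (h.pow_right 2)).add_right
    (h.pow_right 3)).add_right (h.pow_right 4)

omit [Algebra ℂ R] in
lemma pow_mod_five {u : R} (hu : u ^ 5 = 1) (m : ℕ) : u ^ m = u ^ (m % 5) := by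
  conv_lhs => rw [← Nat.div_add_mod m 5, pow_add, pow_mul, hu, one_pow, one_mul]

lemma avg_pow_four {u : R} (hu : u ^ 5 = 1) : avg (u ^ 4) = avg u := by
  unfold avg
  congr 1
  rw [← pow_mul, ← pow_mul, ← pow_mul, pow_mod_five hu (4 * 2), pow_mod_five hu (4 * 3),
    pow_mod_five hu (4 * 4)]
  norm_num
  abel

lemma star_avg [StarRing R] [StarModule ℂ R] {u : R} (hu : u ^ 5 = 1) (hs : star u = u ^ 4) :
    star (avg u) = avg u := by
  rw [← avg_pow_four hu]
  conv_lhs => rw [avg_pow_four hu]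
  unfold avg
  simp only [star_smul, star_add, star_one, star_pow, hs]
  simp

/-- If a nontrivial power of `z` fixes `y`, so does the average of `z`. -/
lemma avg_mul_of_pow {z y : R} (hz : z ^ 5 = 1) {j : ℕ} (hj1 : 1 ≤ j) (hj4 : j ≤ 4)
    (h : z ^ j * y = y) : avg z * y = y := by
  apply avg_mul_of_mul_eq
  have key : ∀ m, j * m % 5 = 1 → z * y = y := by
    intro m hm
    have := pow_mul_of_mul_eq h m
    rwa [← pow_mul, pow_mod_five hz, hm, pow_one] at this
  interval_cases j
  · exact key 1 rfl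
  · exact key 3 rfl
  · exact key 2 rfl
  · exact key 4 rfl

/-- The angle identity. -/
lemma angle {z u v : R} (hz : z ^ 5 = 1) (hu : u ^ 5 = 1)
    (h : ∀ j : ℕ, z ^ j * (avg u * v ^ j * avg u) = avg u * v ^ j * avg u) :
    (5 : ℂ) • ((1 - avg z) * (avg u * avg v * avg u)) = (1 - avg z) * avg u := by
  have h0 : ∀ j : ℕ, 1 ≤ j → j ≤ 4 → (1 - avg z) * (avg u * v ^ j * avg u) = 0 := by
    intro j h1 h4
    rw [sub_mul, one_mul, avg_mul_of_pow hz h1 h4 (h j), sub_self]
  have h1 := h0 1 le_rfl (by norm_num)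
  have h2 := h0 2 (by norm_num) (by norm_num)
  have h3 := h0 3 (by norm_num) (by norm_num)
  have h4 := h0 4 (by norm_num) (by norm_num)
  rw [pow_one] at h1
  have hexp : avg u * avg v * avg u = (5⁻¹ : ℂ) • (avg u * avg u + avg u * v * avg u +
      avg u * v ^ 2 * avg u + avg u * v ^ 3 * avg u + avg u * v ^ 4 * avg u) := by
    conv_lhs => rw [show avg v = (5⁻¹ : ℂ) • (1 + v + v ^ 2 + v ^ 3 + v ^ 4) from rfl]
    rw [mul_smul_comm, smul_mul_assoc]
    congr 1
    simp only [mul_add, add_mul, mul_one]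
  rw [hexp, mul_smul_comm, smul_smul]
  simp only [mul_add, h1, h2, h3, h4, add_zero, avg_mul_avg hu]
  norm_num

end Avg

section Pair

variable {R : Type} [Ring R] [StarRing R]

omit [StarRing R] in
open Polynomial in
lemma poly_identity (T : R) :
    5760 * ((1 - T) * (9 - 20 * T)) =
      288 * ((9 - 20 * T) * (9 - 20 * T)) +
        11 * (((20 * T - 9) * (5 - 5 * T ^ 2)) * ((20 * T - 9) * (5 - 5 * T ^ 2))) +
        11 * ((5 - 5 * T ^ 2) * (5 - 5 * T ^ 2)) +
        5742 * ((5 * T ^ 2 - 1) * (5 * T ^ 2 - 1)) +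
        ((T + 1) * (5 * T ^ 2 - 1)) * (-220 - 35420 * T + 41800 * T ^ 2 - 22000 * T ^ 3) := by
  have key : (5760 * ((1 - X) * (9 - 20 * X)) : ℤ[X]) =
      288 * ((9 - 20 * X) * (9 - 20 * X)) +
        11 * (((20 * X - 9) * (5 - 5 * X ^ 2)) * ((20 * X - 9) * (5 - 5 * X ^ 2))) +
        11 * ((5 - 5 * X ^ 2) * (5 - 5 * X ^ 2)) +
        5742 * ((5 * X ^ 2 - 1) * (5 * X ^ 2 - 1)) +
        ((X + 1) * (5 * X ^ 2 - 1)) * (-220 - 35420 * X + 41800 * X ^ 2 - 22000 * X ^ 3) := by
    ring
  have := congrArg (aeval T) key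
  simpa only [map_add, map_sub, map_mul, map_pow, map_neg, map_ofNat, map_one, aeval_X] using this

lemma natCast_mul_mem_pos (n : ℕ) {x : R} (hx : x ∈ Pos R) : (n : R) * x ∈ Pos R := by
  rw [← nsmul_eq_mul]; exact nsmul_mem hx n

/-- Positivity for one pair of projections. -/
lemma pair_pos {P P' Z : R} (hP : P * P = P) (hP' : P' * P' = P') (hZ : Z * Z = Z)
    (sP : star P = P) (sP' : star P' = P') (sZ : star Z = Z)
    (cP : Commute Z P) (cP' : Commute Z P') (hcomm : Z * (P * P') = Z * (P' * P))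
    (ha : 5 * ((1 - Z) * (P * P' * P)) = (1 - Z) * P)
    (hb : 5 * ((1 - Z) * (P' * P * P')) = (1 - Z) * P') :
    5760 * (20 * ((1 - P) * (1 - P') + (1 - P') * (1 - P)) + 9 * ((1 - P) + (1 - P'))) ∈
      Pos R := by
  set E := 20 * ((1 - P) * (1 - P') + (1 - P') * (1 - P)) + 9 * ((1 - P) + (1 - P')) with hE
  set W := 1 - Z with hW
  set T := P + P' - 1 with hT
  have hWW : W * W = W := by
    rw [hW]; simp only [mul_sub, sub_mul, one_mul, mul_one, hZ]; abel
  have sW : star W = W := by rw [hW, star_sub, star_one, sZ]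
  have sT : star T = T := by rw [hT, star_sub, star_add, star_one, sP, sP']
  have cT : Commute W T := by
    have h1 : Commute Z T := (cP.add_right cP').sub_right (Commute.one_right Z)
    exact (Commute.one_left T).sub_left h1
  have hET : E = (1 - T) * (9 - 20 * T) := by
    have h1 : (1 - T) * (9 - 20 * T) = 20 * ((1 - P) * (1 - P') + (1 - P') * (1 - P)) +
        9 * ((1 - P) + (1 - P')) + 20 * (P * P - P) + 20 * (P' * P' - P') := by
      rw [hT]; noncomm_ring
    rw [h1, hP, hP', hE]; simp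
  have hcubic : W * ((T + 1) * (5 * T ^ 2 - 1)) = 0 := by
    have h1 : (T + 1) * (5 * T ^ 2 - 1) = 5 * (P * P' * P) + 5 * (P' * P * P') - P - P' +
        5 * ((P * P - P) * P + (P * P - P) * P' + P' * (P * P - P) - (P * P - P)) +
        5 * ((P' * P' - P') * P' + (P' * P' - P') * P + P * (P' * P' - P') - (P' * P' - P')) := by
      rw [hT]; noncomm_ring
    rw [h1, hP, hP']
    have h2 : W * (5 * (P * P' * P) + 5 * (P' * P * P') - P - P') =
        5 * (W * (P * P' * P)) + 5 * (W * (P' * P * P')) - W * P - W * P' := by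
      noncomm_ring
    simp only [sub_self, zero_mul, mul_zero, add_zero]
    rw [h2, ha, hb]; abel
  have hWpart : W * (5760 * E) ∈ Pos R := by
    rw [hET, poly_identity T]
    have c5 : Commute W (5 : R) := (Nat.cast_commute 5 W).symm
    have c9 : Commute W (9 : R) := (Nat.cast_commute 9 W).symm
    have c20 : Commute W (20 : R) := (Nat.cast_commute 20 W).symm
    have cf1 : Commute W (9 - 20 * T) := c9.sub_right (c20.mul_right cT)
    have cf1' : Commute W (20 * T - 9) := (c20.mul_right cT).sub_right c9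
    have cf2 : Commute W (5 - 5 * T ^ 2) := c5.sub_right (c5.mul_right (cT.pow_right 2))
    have cf3 : Commute W (5 * T ^ 2 - 1) :=
      (c5.mul_right (cT.pow_right 2)).sub_right (Commute.one_right W)
    have sf1 : star (9 - 20 * T) = 9 - 20 * T := by
      simp only [star_sub, star_mul, star_ofNat, sT]; noncomm_ring
    have sf2 : star (5 - 5 * T ^ 2) = 5 - 5 * T ^ 2 := by
      simp only [star_sub, star_mul, star_ofNat, star_pow, sT]; noncomm_ring
    have sf3 : star (5 * T ^ 2 - 1) = 5 * T ^ 2 - 1 := by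
      simp only [star_sub, star_mul, star_ofNat, star_pow, star_one, sT]; noncomm_ring
    have sf4 : star ((20 * T - 9) * (5 - 5 * T ^ 2)) = (20 * T - 9) * (5 - 5 * T ^ 2) := by
      have sf1' : star (20 * T - 9) = 20 * T - 9 := by
        simp only [star_sub, star_mul, star_ofNat, sT]; noncomm_ring
      rw [star_mul, sf2, sf1']
      have d5 : Commute (20 * T - 9) (5 : R) := (Nat.cast_commute 5 _).symm
      have dT : Commute (20 * T - 9) T :=
        ((Nat.cast_commute 20 T).mul_left (Commute.refl T)).sub_left (Nat.cast_commute 9 T)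
      exact (d5.sub_right (d5.mul_right (dT.pow_right 2))).symm.eq
    have m1 := natCast_mul_mem_pos 288 (mul_sq_mem_pos sW hWW sf1 cf1)
    have m2 := natCast_mul_mem_pos 11 (mul_sq_mem_pos sW hWW sf4 (cf1'.mul_right cf2))
    have m3 := natCast_mul_mem_pos 11 (mul_sq_mem_pos sW hWW sf2 cf2)
    have m4 := natCast_mul_mem_pos 5742 (mul_sq_mem_pos sW hWW sf3 cf3)
    have hsum := add_mem (add_mem (add_mem m1 m2) m3) m4
    convert hsum using 1
    rw [mul_add, mul_add, mul_add, mul_add, ← mul_assoc W ((T + 1) * (5 * T ^ 2 - 1)), hcubic,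
      zero_mul, add_zero]
    have cn : ∀ (n : ℕ) (x : R), W * ((n : R) * x) = (n : R) * (W * x) := by
      intro n x
      rw [← mul_assoc, ← (Nat.cast_commute n W).eq, mul_assoc]
    have e1 := cn 288
    have e2 := cn 11
    have e3 := cn 5742
    push_cast at e1 e2 e3 ⊢
    rw [e1, e2, e2, e3]
  have hZpart : Z * E ∈ Pos R := by
    set Q := 1 - P with hQ
    set Q' := 1 - P' with hQ'
    have hQQ : Q * Q = Q := by
      rw [hQ]; simp only [mul_sub, sub_mul, one_mul, mul_one, hP]; abel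
    have hQQ' : Q' * Q' = Q' := by
      rw [hQ']; simp only [mul_sub, sub_mul, one_mul, mul_one, hP']; abel
    have sQ : star Q = Q := by rw [hQ, star_sub, star_one, sP]
    have sQ' : star Q' = Q' := by rw [hQ', star_sub, star_one, sP']
    have cQ : Commute Z Q := (Commute.one_right Z).sub_right cP
    have cQ' : Commute Z Q' := (Commute.one_right Z).sub_right cP'
    have hc : Z * (Q * Q') = Z * (Q' * Q) := by
      have h1 : Z * (Q * Q') = Z - Z * P - Z * P' + Z * (P * P') := by
        rw [hQ, hQ']; noncomm_ring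
      have h2 : Z * (Q' * Q) = Z - Z * P - Z * P' + Z * (P' * P) := by
        rw [hQ, hQ']; noncomm_ring
      rw [h1, h2, hcomm]
    have m1 : Z * (Q * Q') ∈ Pos R := by
      have := star_mul_self_mem_pos (Z * (Q * Q'))
      rw [star_mul, star_mul, sZ, sQ, sQ'] at this
      convert this using 1
      symm
      calc Q' * Q * Z * (Z * (Q * Q')) = Q' * Q * (Z * Z) * (Q * Q') := by noncomm_ring
        _ = Z * (Q' * Q) * (Q * Q') := by
            rw [hZ, ← (cQ'.mul_right cQ).eq]
        _ = Z * (Q' * (Q * Q)) * Q' := by noncomm_ring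
        _ = Z * (Q * Q') * Q' := by rw [hQQ, hc]
        _ = Z * (Q * (Q' * Q')) := by noncomm_ring
        _ = Z * (Q * Q') := by rw [hQQ']
    have m2 : Z * Q ∈ Pos R := by
      have := mul_sq_mem_pos sZ hZ sQ cQ
      rwa [hQQ] at this
    have m3 : Z * Q' ∈ Pos R := by
      have := mul_sq_mem_pos sZ hZ sQ' cQ'
      rwa [hQQ'] at this
    have hsum := add_mem (add_mem (natCast_mul_mem_pos 40 m1) (natCast_mul_mem_pos 9 m2))
      (natCast_mul_mem_pos 9 m3)
    convert hsum using 1
    have h1 : Z * E = 20 * (Z * (Q * Q')) + 20 * (Z * (Q' * Q)) + 9 * (Z * Q) + 9 * (Z * Q') := by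
      rw [hE]; noncomm_ring
    rw [h1, ← hc]
    push_cast
    noncomm_ring
  have hsum := add_mem hWpart (natCast_mul_mem_pos 5760 hZpart)
  convert hsum using 1
  rw [hW]
  push_cast
  noncomm_ring

end Pair

end Pool.Agent.MP_56ff7a_an

end

-- part MP_56ff7a_an.Cfc
section

/-!
Functional calculus lemmas: approximate pseudo-inverses and exact projections.
-/

set_option autoImplicit false

namespace Pool.Agent.MP_56ff7a_an

variable {B : Type} [CStarAlgebra B]

lemma nonneg_of_mem_pos [PartialOrder B] [StarOrderedRing B] {y : B} (hy : y ∈ Pos B) :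
    0 ≤ y := StarOrderedRing.nonneg_iff.mpr hy

lemma norm_sq_le_of_mem_pos {y x : B} (hx : x ∈ Pos B) : ‖y‖ * ‖y‖ ≤ ‖star y * y + x‖ := by
  let _ := CStarAlgebra.spectralOrder B
  have _ := CStarAlgebra.spectralOrderedRing B
  rw [← CStarRing.norm_star_mul_self]
  apply CStarAlgebra.norm_le_norm_of_nonneg_of_le (star_mul_self_nonneg y)
  exact le_add_of_nonneg_right (nonneg_of_mem_pos hx)

lemma eq_zero_of_mem_pos (y x : B) (hx : x ∈ Pos B) (h : star y * y + x = 0) : y = 0 := by
  have := norm_sq_le_of_mem_pos (y := y) hx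
  rw [h, norm_zero] at this
  have h2 : ‖y‖ * ‖y‖ = 0 := le_antisymm this (mul_self_nonneg _)
  exact norm_eq_zero.mp (mul_self_eq_zero.mp h2)

lemma spec_ge {f : ℝ → ℝ} (hf : Continuous f) {D y : B} (hD : IsSelfAdjoint D) (hy : y ∈ Pos B)
    {δ : ℝ} (h : ‖cfc f D - y‖ ≤ δ) : ∀ x ∈ spectrum ℝ D, -δ ≤ f x := by
  let _ := CStarAlgebra.spectralOrder B
  have _ := CStarAlgebra.spectralOrderedRing B
  have hy0 : 0 ≤ y := nonneg_of_mem_pos hy
  have hsa : IsSelfAdjoint (cfc f D - y) :=
    (cfc_predicate f D : IsSelfAdjoint _).sub (IsSelfAdjoint.of_nonneg hy0)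
  have h1 := hsa.neg_algebraMap_norm_le_self
  have h2 : algebraMap ℝ B (-‖cfc f D - y‖) ≤ cfc f D := by
    rw [map_neg]
    exact h1.trans (sub_le_self _ hy0)
  intro x hx
  have := (algebraMap_le_cfc_iff f _ D hf.continuousOn hD).mp h2 x hx
  linarith

/-- Approximate pseudo-inverse of an approximately gapped self-adjoint element. -/
lemma exists_pinv {D y y' : B} (hD : star D = D) (hy : y ∈ Pos B) (hy' : y' ∈ Pos B) {δ : ℝ}
    (h1 : ‖D - y‖ ≤ δ) (h2 : ‖D * D - ((10⁻¹ : ℝ) : ℂ) • D - y'‖ ≤ δ) :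
    ∃ g : B, star g = g ∧ Commute g D ∧ ‖g‖ ≤ 20 ∧ ‖D * g * D - D‖ ≤ 20 * δ + 20 * δ ^ 2 := by
  have hsa : IsSelfAdjoint D := hD
  have hδ : 0 ≤ δ := (norm_nonneg _).trans h1
  let f : ℝ → ℝ := fun x => (max x 20⁻¹)⁻¹
  have hpos : ∀ x : ℝ, 0 < max x 20⁻¹ := fun x => lt_max_of_lt_right (by norm_num)
  have hf : Continuous f := (continuous_id.max continuous_const).inv₀ (fun x => (hpos x).ne')
  have s1 : ∀ x ∈ spectrum ℝ D, -δ ≤ x := by
    apply spec_ge (f := fun x => x) continuous_id hsa hy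
    rwa [cfc_id' ℝ D]
  have s2 : ∀ x ∈ spectrum ℝ D, -δ ≤ x * x - 10⁻¹ * x := by
    apply spec_ge (f := fun x => x * x - 10⁻¹ * x) (by fun_prop) hsa hy'
    rw [cfc_sub _ _ D, cfc_mul _ _ D, cfc_const_mul _ _ D, cfc_id' ℝ D]
    rwa [← Complex.coe_smul]
  refine ⟨cfc f D, (cfc_predicate f D : IsSelfAdjoint _), (Commute.refl D).cfc_real f, ?_, ?_⟩
  · apply norm_cfc_le (by norm_num)
    intro x _
    rw [Real.norm_eq_abs, abs_of_pos (inv_pos.mpr (hpos x))]
    have : (20⁻¹ : ℝ) ≤ max x 20⁻¹ := le_max_right _ _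
    calc (max x 20⁻¹)⁻¹ ≤ (20⁻¹ : ℝ)⁻¹ := inv_anti₀ (by norm_num) this
      _ = 20 := by norm_num
  · have : D * cfc f D * D - D = cfc (fun x => x * f x * x - x) D := by
      have c1 : Continuous (fun x : ℝ => x * f x) := continuous_id.mul hf
      have c2 : Continuous (fun x : ℝ => x * f x * x) := c1.mul continuous_id
      rw [cfc_sub (fun x => x * f x * x) (fun x => x) D c2.continuousOn continuousOn_id,
        cfc_mul (fun x => x * f x) (fun x => x) D c1.continuousOn continuousOn_id,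
        cfc_mul (fun x => x) f D continuousOn_id hf.continuousOn, cfc_id' ℝ D]
    rw [this]
    apply norm_cfc_le (by positivity)
    intro x hx
    have t1 := s1 x hx
    have t2 := s2 x hx
    rw [Real.norm_eq_abs]
    rcases le_total x 20⁻¹ with hx2 | hx2
    · have hfx : f x = 20 := by simp only [f, max_eq_right hx2]; norm_num
      rw [hfx, abs_le]
      constructor <;> nlinarith
    · have hfx : f x = x⁻¹ := by simp only [f, max_eq_left hx2]
      have hx0 : x ≠ 0 := by
        intro h; rw [h] at hx2; norm_num at hx2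
      rw [hfx, mul_inv_cancel₀ hx0, one_mul, sub_self, abs_zero]
      positivity

/-- An approximate projection is close to a projection. -/
lemma exists_proj {h : B} (hh : star h = h) :
    ∃ q : B, star q = q ∧ q * q = q ∧ (‖h * h - h‖ ≤ 5⁻¹ → ‖h - q‖ ≤ 2 * ‖h * h - h‖) := by
  by_cases hδ : ‖h * h - h‖ ≤ 5⁻¹
  swap
  · exact ⟨0, star_zero _, mul_zero _, fun h' => (hδ h').elim⟩
  have hsa : IsSelfAdjoint h := hh
  let f : ℝ → ℝ := fun x => max 0 (min 1 (3 * x - 1))
  have hf : Continuous f := by fun_prop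
  have hs : ∀ x ∈ spectrum ℝ h, |x * x - x| ≤ ‖h * h - h‖ := by
    intro x hx
    have := norm_apply_le_norm_cfc (fun x : ℝ => x * x - x) h hx
    rwa [cfc_sub _ _ h, cfc_mul _ _ h, cfc_id' ℝ h] at this
  have hcase : ∀ x ∈ spectrum ℝ h, (x ≤ 3⁻¹ ∧ f x = 0) ∨ (2 / 3 ≤ x ∧ f x = 1) := by
    intro x hx
    have h1 := (abs_le.mp ((hs x hx).trans hδ)).1
    rcases le_total x 2⁻¹ with hx2 | hx2
    · have hx3 : x ≤ 3⁻¹ := by nlinarith
      left
      refine ⟨hx3, ?_⟩
      simp only [f]
      exact max_eq_left ((min_le_right _ _).trans (by linarith))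
    · have hx3 : 2 / 3 ≤ x := by nlinarith
      right
      refine ⟨hx3, ?_⟩
      simp only [f]
      rw [min_eq_left (by linarith), max_eq_right (by norm_num)]
  refine ⟨cfc f h, (cfc_predicate f h : IsSelfAdjoint _), ?_, fun _ => ?_⟩
  · rw [← cfc_mul f f h hf.continuousOn hf.continuousOn]
    apply cfc_congr
    intro x hx
    rcases hcase x hx with ⟨-, h1⟩ | ⟨-, h1⟩ <;> simp [h1]
  · have : h - cfc f h = cfc (fun x => x - f x) h := by
      rw [cfc_sub (fun x => x) f h continuousOn_id hf.continuousOn, cfc_id' ℝ h]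
    rw [this]
    apply norm_cfc_le (by positivity)
    intro x hx
    have h1 := abs_le.mp (hs x hx)
    rw [Real.norm_eq_abs, abs_le]
    rcases hcase x hx with ⟨h2, h3⟩ | ⟨h2, h3⟩
    · rw [h3]
      rcases le_total 0 x with h4 | h4
      · constructor <;> nlinarith [norm_nonneg (h * h - h)]
      · constructor <;> nlinarith [norm_nonneg (h * h - h)]
    · rw [h3]
      rcases le_total 1 x with h4 | h4
      · constructor <;> nlinarith [norm_nonneg (h * h - h)]
      · constructor <;> nlinarith [norm_nonneg (h * h - h)]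

end Pool.Agent.MP_56ff7a_an

end

-- part MP_56ff7a_an.Triple
section

/-!
Triples of group elements of order five with Heisenberg relations: the spectral gap as a sum of
hermitian squares, and the compression argument.
-/

set_option autoImplicit false

namespace Pool.Agent.MP_56ff7a_an

section Group

variable {G : Type} [Group G]

/-- The commutator `x y x⁻¹ y⁻¹`. -/
def cm (x y : G) : G := x * y * x⁻¹ * y⁻¹

/-- Three elements of order dividing five, consecutive ones generating Heisenberg groups. -/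
structure IsTriple (a : Fin 3 → G) : Prop where
  h5 : ∀ i, a i ^ 5 = 1
  hl : ∀ i, Commute (cm (a i) (a (i + 1))) (a i)
  hr : ∀ i, Commute (cm (a i) (a (i + 1))) (a (i + 1))

lemma mul_eq_cm (x y : G) : x * y = cm x y * y * x := by
  unfold cm; group

lemma pow_mul_eq_cm {x y : G} (hl : Commute (cm x y) x) (j : ℕ) :
    x ^ j * y = cm x y ^ j * y * x ^ j := by
  induction j with
  | zero => simp
  | succ j ih =>
    calc x ^ (j + 1) * y = x * (x ^ j * y) := by rw [pow_succ', mul_assoc]
      _ = x * cm x y ^ j * y * x ^ j := by rw [ih]; simp only [mul_assoc]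
      _ = cm x y ^ j * (x * y) * x ^ j := by
          rw [← (hl.pow_left j).eq]; simp only [mul_assoc]
      _ = cm x y ^ (j + 1) * y * x ^ (j + 1) := by
          rw [mul_eq_cm x y, pow_succ, pow_succ']; simp only [mul_assoc]

lemma mul_pow_eq_cm {x y : G} (hr : Commute (cm x y) y) (j : ℕ) :
    x * y ^ j = cm x y ^ j * y ^ j * x := by
  induction j with
  | zero => simp
  | succ j ih =>
    calc x * y ^ (j + 1) = (x * y ^ j) * y := by rw [pow_succ, mul_assoc]
      _ = cm x y ^ j * y ^ j * (x * y) := by rw [ih]; simp only [mul_assoc]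
      _ = cm x y ^ j * (y ^ j * cm x y) * y * x := by
          rw [mul_eq_cm x y]; simp only [mul_assoc]
      _ = cm x y ^ (j + 1) * y ^ (j + 1) * x := by
          rw [← (hr.pow_right j).eq, pow_succ, pow_succ]; simp only [mul_assoc]

lemma cm_pow_five {x y : G} (hx : x ^ 5 = 1) (hl : Commute (cm x y) x) : cm x y ^ 5 = 1 := by
  have := pow_mul_eq_cm hl 5
  rw [hx, one_mul, mul_one] at this
  exact (mul_eq_right.mp this.symm)

lemma inv_eq_pow_four {x : G} (hx : x ^ 5 = 1) : x⁻¹ = x ^ 4 := by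
  rw [inv_eq_iff_mul_eq_one, ← pow_succ', hx]

end Group

section Rep

variable {G : Type} [Group G] {R : Type} [Ring R] [StarRing R] [Algebra ℂ R] [StarModule ℂ R]
  (π : G →* R)

/-- The Laplacian of the triple. -/
noncomputable def lap (a : Fin 3 → G) : R :=
  (1 - avg (π (a 0))) + (1 - avg (π (a 1))) + (1 - avg (π (a 2)))

variable {π}

omit [StarRing R] [Algebra ℂ R] [StarModule ℂ R] in
lemma map_pow_five {x : G} (hx : x ^ 5 = 1) : π x ^ 5 = 1 := by
  rw [← map_pow, hx, map_one]

lemma star_avg_map (hπ : ∀ h, star (π h) = π h⁻¹) {x : G} (hx : x ^ 5 = 1) :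
    star (avg (π x)) = avg (π x) :=
  star_avg (map_pow_five hx) (by rw [hπ, inv_eq_pow_four hx, map_pow])

lemma pair_group (hπ : ∀ h, star (π h) = π h⁻¹) {x y : G} (hx : x ^ 5 = 1) (hy : y ^ 5 = 1)
    (hl : Commute (cm x y) x) (hr : Commute (cm x y) y) :
    5760 * (20 * ((1 - avg (π x)) * (1 - avg (π y)) + (1 - avg (π y)) * (1 - avg (π x))) +
      9 * ((1 - avg (π x)) + (1 - avg (π y)))) ∈ Pos R := by
  have hz := cm_pow_five hx hl
  set z := cm x y with hzdef
  have hu := map_pow_five (π := π) hx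
  have hv := map_pow_five (π := π) hy
  have hw := map_pow_five (π := π) hz
  have cu : Commute (π z) (π x) := hl.map π
  have cv : Commute (π z) (π y) := hr.map π
  have cP : Commute (π z) (avg (π x)) := commute_avg cu
  have cP' : Commute (π z) (avg (π y)) := commute_avg cv
  have five : ∀ w : R, (5 : ℂ) • w = 5 * w := by
    intro w
    rw [show (5 : ℂ) = ((5 : ℕ) : ℂ) by norm_num, Nat.cast_smul_eq_nsmul, nsmul_eq_mul]
    norm_num
  apply pair_pos (Z := avg (π z)) (avg_mul_avg hu) (avg_mul_avg hv) (avg_mul_avg hw)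
    (star_avg_map hπ hx) (star_avg_map hπ hy) (star_avg_map hπ hz)
    (commute_avg cP.symm).symm (commute_avg cP'.symm).symm
  · have cZu : Commute (avg (π z)) (π x) := (commute_avg cu.symm).symm
    have cZv : Commute (avg (π z)) (π y) := (commute_avg cv.symm).symm
    have h1 : Commute (avg (π z) * π y) (π x) := by
      have h2 : π x * π y = π z * π y * π x := by
        rw [← map_mul, ← map_mul, ← map_mul, ← mul_eq_cm]
      change avg (π z) * π y * π x = π x * (avg (π z) * π y)
      rw [← mul_assoc, ← cZu.eq, mul_assoc (avg (π z)) (π x), h2, ← mul_assoc, ← mul_assoc,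
        avg_mul hw]
    have h3 : Commute (avg (π z) * π y) (avg (π x)) := commute_avg h1
    have cZP : Commute (avg (π z)) (avg (π x)) := commute_avg cZu
    have h4 : Commute (avg (π z) * avg (π x)) (π y) := by
      change avg (π z) * avg (π x) * π y = π y * (avg (π z) * avg (π x))
      rw [← mul_assoc, ← cZv.eq, h3.eq, ← mul_assoc, cZP.eq]
    have h5 : Commute (avg (π z) * avg (π x)) (avg (π y)) := commute_avg h4
    have cZP' : Commute (avg (π z)) (avg (π y)) := commute_avg cZv
    rw [← mul_assoc, h5.eq, ← mul_assoc, ← cZP'.eq, mul_assoc]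
  · rw [← five]
    apply angle hw hu
    intro j
    have h2 : π x * π y ^ j = π z ^ j * π y ^ j * π x := by
      rw [← map_pow, ← map_pow, ← map_mul, ← map_mul, ← map_mul, mul_pow_eq_cm hr]
    calc π z ^ j * (avg (π x) * π y ^ j * avg (π x))
        = avg (π x) * (π z ^ j * π y ^ j * π x) * avg (π x) := by
          rw [← mul_assoc, ← mul_assoc, (cP.pow_left j).eq]
          simp only [mul_assoc, mul_avg hu]
      _ = avg (π x) * π y ^ j * avg (π x) := by
          rw [← h2, ← mul_assoc, avg_mul hu]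
  · rw [← five]
    apply angle hw hv
    intro j
    have h2 : π x ^ j * π y = π z ^ j * π y * π x ^ j := by
      rw [← map_pow, ← map_pow, ← map_mul, ← map_mul, ← map_mul, pow_mul_eq_cm hl]
    calc π z ^ j * (avg (π y) * π x ^ j * avg (π y))
        = avg (π y) * (π z ^ j * π y * π x ^ j) * avg (π y) := by
          rw [← mul_assoc, ← mul_assoc, ← mul_assoc, ← mul_assoc, ← (cP'.pow_left j).eq,
            mul_assoc (π z ^ j) (avg (π y)) (π y), avg_mul hv]
      _ = avg (π y) * π x ^ j * avg (π y) := by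
          rw [← h2]; simp only [mul_assoc, mul_avg hv]

omit [StarRing R] [StarModule ℂ R] in
lemma one_sub_avg_sq {u : R} (hu : u ^ 5 = 1) : (1 - avg u) * (1 - avg u) = 1 - avg u := by
  simp only [mul_sub, sub_mul, one_mul, mul_one, avg_mul_avg hu]; abel

lemma star_one_sub_avg (hπ : ∀ h, star (π h) = π h⁻¹) {x : G} (hx : x ^ 5 = 1) :
    star (1 - avg (π x)) = 1 - avg (π x) := by
  rw [star_sub, star_one, star_avg_map hπ hx]

lemma one_sub_avg_mem_pos (hπ : ∀ h, star (π h) = π h⁻¹) {x : G} (hx : x ^ 5 = 1) :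
    1 - avg (π x) ∈ Pos R :=
  proj_mem_pos (star_one_sub_avg hπ hx) (one_sub_avg_sq (map_pow_five hx))

lemma star_lap (hπ : ∀ h, star (π h) = π h⁻¹) {a : Fin 3 → G} (ha : IsTriple a) :
    star (lap π a) = lap π a := by
  unfold lap
  rw [star_add, star_add, star_one_sub_avg hπ (ha.h5 0), star_one_sub_avg hπ (ha.h5 1),
    star_one_sub_avg hπ (ha.h5 2)]

lemma lap_mem_pos (hπ : ∀ h, star (π h) = π h⁻¹) {a : Fin 3 → G} (ha : IsTriple a) :
    lap π a ∈ Pos R :=
  add_mem (add_mem (one_sub_avg_mem_pos hπ (ha.h5 0)) (one_sub_avg_mem_pos hπ (ha.h5 1)))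
    (one_sub_avg_mem_pos hπ (ha.h5 2))

/-- The spectral gap. -/
lemma lap_gap (hπ : ∀ h, star (π h) = π h⁻¹) {a : Fin 3 → G} (ha : IsTriple a) :
    lap π a * lap π a - ((10⁻¹ : ℝ) : ℂ) • lap π a ∈ Pos R := by
  have h0 := pair_group hπ (ha.h5 0) (ha.h5 1) (ha.hl 0) (ha.hr 0)
  have h1 := pair_group hπ (ha.h5 1) (ha.h5 2) (ha.hl 1) (ha.hr 1)
  have h2 := pair_group hπ (ha.h5 2) (ha.h5 0) (ha.hl 2) (ha.hr 2)
  have hsum := add_mem (add_mem h0 h1) h2
  have e0 := one_sub_avg_sq (map_pow_five (π := π) (ha.h5 0))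
  have e1 := one_sub_avg_sq (map_pow_five (π := π) (ha.h5 1))
  have e2 := one_sub_avg_sq (map_pow_five (π := π) (ha.h5 2))
  unfold lap
  set Q0 := 1 - avg (π (a 0))
  set Q1 := 1 - avg (π (a 1))
  set Q2 := 1 - avg (π (a 2))
  have := smul_mem_pos (show (0 : ℝ) ≤ 115200⁻¹ by norm_num) hsum
  convert this using 1
  have hn : ∀ (n : ℕ) [n.AtLeastTwo] (w : R), (OfNat.ofNat n : R) * w = (OfNat.ofNat n : ℂ) • w := by
    intro n _ w
    rw [← Nat.cast_ofNat (R := ℂ), Nat.cast_smul_eq_nsmul, nsmul_eq_mul, Nat.cast_ofNat]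
  simp only [hn, mul_add, add_mul, e0, e1, e2]
  push_cast
  module

omit [StarRing R] [StarModule ℂ R] in
lemma one_sub_avg_mem {I : Ideal R} {u : R} (hu : u - 1 ∈ I) : 1 - avg u ∈ I := by
  have h : 1 - avg u = (-5⁻¹ : ℂ) • ((4 + 3 * u + 2 * u ^ 2 + u ^ 3) * (u - 1)) := by
    have h2 : (4 + 3 * u + 2 * u ^ 2 + u ^ 3) * (u - 1) =
        (1 + u + u ^ 2 + u ^ 3 + u ^ 4) - (1 + 1 + 1 + 1 + 1) := by
      have : (4 : R) = 1 + 1 + 1 + 1 := by norm_num
      rw [this]
      noncomm_ring
    rw [h2]; unfold avg; module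
  rw [h]
  exact Submodule.smul_of_tower_mem _ _ (I.mul_mem_left _ hu)

omit [StarRing R] [StarModule ℂ R] in
lemma conj_avg (t x : G) : π t * avg (π x) * π t⁻¹ = avg (π (t * x * t⁻¹)) := by
  unfold avg
  rw [mul_smul_comm, smul_mul_assoc]
  congr 1
  have h1 : π t * π t⁻¹ = 1 := by rw [← map_mul, mul_inv_cancel, map_one]
  simp only [mul_add, add_mul, mul_one, h1, ← map_pow, ← map_mul, conj_pow]

omit [StarRing R] [StarModule ℂ R] in
lemma conj_lap (t : G) (a : Fin 3 → G) :
    π t * lap π a * π t⁻¹ = lap π (fun i => t * a i * t⁻¹) := by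
  unfold lap
  have h1 : π t * π t⁻¹ = 1 := by rw [← map_mul, mul_inv_cancel, map_one]
  simp only [mul_add, add_mul, mul_sub, sub_mul, mul_one, h1, conj_avg]

/-- Elements killed by the Laplacian are fixed by the group generated by the triple. -/
lemma fixed_of_lap_mul (hπ : ∀ h, star (π h) = π h⁻¹)
    (hR : ∀ y x : R, x ∈ Pos R → star y * y + x = 0 → y = 0)
    {a : Fin 3 → G} (ha : IsTriple a) {p : R} (hp : lap π a * p = 0) {γ : G}
    (hγ : γ ∈ Subgroup.closure (Set.range a)) : π γ * p = p := by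
  have hsq : ∀ i, star ((1 - avg (π (a i))) * p) * ((1 - avg (π (a i))) * p) =
      star p * (1 - avg (π (a i))) * p := by
    intro i
    rw [star_mul, star_one_sub_avg hπ (ha.h5 i), mul_assoc, ← mul_assoc (1 - avg (π (a i))),
      one_sub_avg_sq (map_pow_five (ha.h5 i)), mul_assoc]
  have hsum : star p * (1 - avg (π (a 0))) * p + star p * (1 - avg (π (a 1))) * p +
      star p * (1 - avg (π (a 2))) * p = 0 := by
    have : star p * (lap π a * p) = 0 := by rw [hp, mul_zero]
    rw [← this]; unfold lap; noncomm_ring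
  rw [← hsq, ← hsq, ← hsq] at hsum
  have hz : ∀ i, (1 - avg (π (a i))) * p = 0 := by
    intro i
    fin_cases i
    · apply hR _ _ (add_mem (star_mul_self_mem_pos _) (star_mul_self_mem_pos _))
      rw [← add_assoc]; exact hsum
    · apply hR _ _ (add_mem (star_mul_self_mem_pos ((1 - avg (π (a 0))) * p))
        (star_mul_self_mem_pos ((1 - avg (π (a 2))) * p)))
      rw [← hsum]; simp only [Fin.mk_one]; abel
    · apply hR _ _ (add_mem (star_mul_self_mem_pos ((1 - avg (π (a 0))) * p))
        (star_mul_self_mem_pos ((1 - avg (π (a 1))) * p)))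
      rw [← hsum]; simp only [Fin.reduceFinMk]; abel
  induction hγ using Subgroup.closure_induction with
  | mem x hx =>
    obtain ⟨i, rfl⟩ := hx
    have h1 : avg (π (a i)) * p = p := by
      have := hz i
      rw [sub_mul, one_mul, sub_eq_zero] at this
      exact this.symm
    rw [← h1, ← mul_assoc, mul_avg (map_pow_five (ha.h5 i))]
  | one => simp
  | mul x y _ _ hx hy => rw [map_mul, mul_assoc, hy, hx]
  | inv x _ hx =>
    conv_lhs => rw [← hx]
    rw [← mul_assoc, ← map_mul, inv_mul_cancel, map_one, one_mul]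

/-- The compression argument. -/
theorem compression [IsDedekindFiniteMonoid R] (hπ : ∀ h, star (π h) = π h⁻¹)
    (hR : ∀ y x : R, x ∈ Pos R → star y * y + x = 0 → y = 0)
    {a : Fin 3 → G} (ha : IsTriple a) {t : G}
    (ht : ∀ i, t * a i * t⁻¹ ∈ Subgroup.closure (Set.range a))
    {g : R} (hg : star g = g) (hc : Commute g (lap π a)) (hgg : lap π a * g * lap π a = lap π a)
    (I : Ideal R) (hI : ∀ i, π (t * a i * t⁻¹) - 1 ∈ I) (i : Fin 3) : π (a i) - 1 ∈ I := by
  set D := lap π a with hD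
  set p := 1 - g * D with hp
  have hDp : D * p = 0 := by rw [hp, mul_sub, mul_one, ← mul_assoc, hgg, sub_self]
  have sp : star p = p := by
    rw [hp, star_sub, star_one, star_mul, hD, star_lap hπ ha, hg, hc.eq]
  have hpp : p * p = p := by
    conv_lhs => rw [hp, sub_mul, one_mul, mul_assoc, ← hp, hDp, mul_zero, sub_zero]
  have hfix : ∀ γ ∈ Subgroup.closure (Set.range a), π γ * p = p :=
    fun γ hγ => fixed_of_lap_mul hπ hR ha hDp hγ
  have h1 : π t * π t⁻¹ = 1 := by rw [← map_mul, mul_inv_cancel, map_one]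
  have h2 : π t⁻¹ * π t = 1 := by rw [← map_mul, inv_mul_cancel, map_one]
  set p' := π t * p * π t⁻¹ with hp'
  set D' := lap π (fun i => t * a i * t⁻¹) with hD'
  have hD'p : D' * p = 0 := by
    rw [hD']; unfold lap
    simp only [add_mul, sub_mul, one_mul, avg_mul_of_mul_eq (hfix _ (ht _)), sub_self, add_zero]
  have h3 : 1 - p' = π t * g * π t⁻¹ * D' := by
    rw [hD', ← conj_lap, ← hD, hp', hp]
    calc 1 - π t * (1 - g * D) * π t⁻¹ = 1 - π t * π t⁻¹ + π t * g * D * π t⁻¹ := by noncomm_ring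
      _ = π t * g * (π t⁻¹ * π t) * D * π t⁻¹ := by rw [h1, h2]; noncomm_ring
      _ = π t * g * π t⁻¹ * (π t * D * π t⁻¹) := by noncomm_ring
  have h4 : (1 - p') * p = 0 := by rw [h3, mul_assoc, hD'p, mul_zero]
  have sp' : star p' = p' := by
    rw [hp', star_mul, star_mul, hπ, hπ, inv_inv, sp, mul_assoc]
  have h5 : p * (1 - p') = 0 := by
    have := congrArg star h4
    rwa [star_mul, sp, star_sub, star_one, sp', star_zero] at this
  have hp'p' : p' * p' = p' := by
    rw [hp']
    calc π t * p * π t⁻¹ * (π t * p * π t⁻¹) = π t * (p * (π t⁻¹ * π t) * p) * π t⁻¹ := by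
          noncomm_ring
      _ = π t * p * π t⁻¹ := by rw [h2, mul_one, hpp]
  have h6 : (1 - p') * (1 - p') = 1 - p' := by
    simp only [mul_sub, sub_mul, one_mul, mul_one, hp'p']; abel
  have h7 : (π t * p + (1 - p')) * (p * π t⁻¹ + (1 - p')) = 1 := by
    calc (π t * p + (1 - p')) * (p * π t⁻¹ + (1 - p'))
        = π t * (p * p) * π t⁻¹ + π t * (p * (1 - p')) + ((1 - p') * p) * π t⁻¹ +
          (1 - p') * (1 - p') := by noncomm_ring
      _ = 1 := by rw [hpp, h4, h5, h6, ← hp']; simp
  have h8 := mul_eq_one_comm.mp h7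
  have h9 : p * π t⁻¹ * (1 - p') = 0 := by
    rw [hp']
    calc p * π t⁻¹ * (1 - π t * p * π t⁻¹) = p * π t⁻¹ - p * (π t⁻¹ * π t) * p * π t⁻¹ := by
          noncomm_ring
      _ = 0 := by rw [h2, mul_one, hpp, sub_self]
  have h10 : (1 - p') * (π t * p) = 0 := by
    rw [hp']
    calc (1 - π t * p * π t⁻¹) * (π t * p) = π t * p - π t * (p * (π t⁻¹ * π t) * p) := by
          noncomm_ring
      _ = 0 := by rw [h2, mul_one, hpp, sub_self]
  have h11 : p = p' := by
    have : (p * π t⁻¹ + (1 - p')) * (π t * p + (1 - p')) =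
        p * (π t⁻¹ * π t) * p + p * π t⁻¹ * (1 - p') + (1 - p') * (π t * p) +
          (1 - p') * (1 - p') := by noncomm_ring
    rw [this, h2, mul_one, hpp, h9, h10, h6] at h8
    have h12 : p - p' = 0 := by rw [← sub_eq_zero] at h8; rw [← h8]; abel
    exact sub_eq_zero.mp h12
  have hD'I : D' ∈ I := by
    rw [hD']; unfold lap
    exact add_mem (add_mem (one_sub_avg_mem (hI 0)) (one_sub_avg_mem (hI 1)))
      (one_sub_avg_mem (hI 2))
  have h13 : 1 - p ∈ I := by rw [h11, h3]; exact I.mul_mem_left _ hD'I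
  have h14 : π (a i) - 1 = (π (a i) - 1) * (1 - p) := by
    have := hfix (a i) (Subgroup.subset_closure ⟨i, rfl⟩)
    rw [mul_sub, mul_one, sub_mul, this, one_mul, sub_self, sub_zero]
  rw [h14]
  exact I.mul_mem_left _ h13

end Rep

end Pool.Agent.MP_56ff7a_an

end

-- part MP_56ff7a_an.Regular
section

/-!
The left regular representation: invertibility of the Laplacian and non-amenability.
-/

set_option autoImplicit false

namespace Pool.Agent.MP_56ff7a_an

open Filter Topology
open scoped InnerProductSpace Pointwise ENNReal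

lemma memℓp_translate {G : Type} [Group G] (g : G) (ξ : L2 G) :
    Memℓp (fun h : G => ξ (g⁻¹ * h)) 2 :=
  memℓp_gen ((Equiv.mulLeft g⁻¹).summable_iff.mpr ((lp.memℓp ξ).summable (by norm_num)))

/-- Left translation `(λ_g ξ)(h) = ξ(g⁻¹ h)` as a linear map. -/
def translate {G : Type} [Group G] (g : G) : L2 G →ₗ[ℂ] L2 G where
  toFun ξ := ⟨fun h => ξ (g⁻¹ * h), memℓp_translate g ξ⟩
  map_add' _ _ := rfl
  map_smul' _ _ := rfl

lemma norm_translate_le {G : Type} [Group G] (g : G) (ξ : L2 G) :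
    ‖translate g ξ‖ ≤ 1 * ‖ξ‖ := by
  rw [one_mul, lp.norm_eq_tsum_rpow (by norm_num), lp.norm_eq_tsum_rpow (by norm_num)]
  exact le_of_eq (congrArg (· ^ _)
    ((Equiv.mulLeft g⁻¹).tsum_eq (fun h => ‖ξ h‖ ^ (2 : ℝ≥0∞).toReal)))

/-- The left regular representation `λ_g`, a bounded operator on `L2 G`. -/
noncomputable def leftRegular {G : Type} [Group G] (g : G) : L2 G →L[ℂ] L2 G :=
  (translate g).mkContinuous 1 (norm_translate_le g)

variable {G : Type} [Group G]

lemma leftRegular_apply (g : G) (ξ : L2 G) (h : G) : leftRegular g ξ h = ξ (g⁻¹ * h) := rfl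

/-- The left regular representation as a homomorphism. -/
noncomputable def lam (G : Type) [Group G] : G →* (L2 G →L[ℂ] L2 G) where
  toFun := leftRegular
  map_one' := by
    ext ξ h
    rw [leftRegular_apply]; simp
  map_mul' x y := by
    ext ξ h
    change leftRegular (x * y) ξ h = leftRegular x (leftRegular y ξ) h
    simp only [leftRegular_apply, mul_inv_rev, mul_assoc]

lemma lam_apply (g : G) (ξ : L2 G) (h : G) : lam G g ξ h = ξ (g⁻¹ * h) := rfl

lemma star_lam (g : G) : star (lam G g) = lam G g⁻¹ := by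
  rw [ContinuousLinearMap.star_eq_adjoint]
  symm
  rw [ContinuousLinearMap.eq_adjoint_iff]
  intro x y
  rw [lp.inner_eq_tsum, lp.inner_eq_tsum, ← (Equiv.mulLeft g⁻¹).tsum_eq]
  refine tsum_congr fun h => ?_
  simp [lam_apply]

lemma closure_infinite {a : Fin 3 → G} (ha : IsTriple a) {t g : G}
    (ht : ∀ i, t * a i * t⁻¹ ∈ Subgroup.closure (Set.range a))
    (hgt : ∀ i, Commute (t * a i * t⁻¹) g) (hga : ∀ i, g⁻¹ * a i * g = (a i)⁻¹)
    (hne : a 0 ≠ 1) : Infinite (Subgroup.closure (Set.range a)) := by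
  by_contra hfin
  rw [not_infinite_iff_finite] at hfin
  have hmap : ∀ γ ∈ Subgroup.closure (Set.range a),
      t * γ * t⁻¹ ∈ Subgroup.closure (Set.range a) ∧ Commute (t * γ * t⁻¹) g := by
    intro γ hγ
    induction hγ using Subgroup.closure_induction with
    | mem x hx => obtain ⟨i, rfl⟩ := hx; exact ⟨ht i, hgt i⟩
    | one => simp
    | mul x y _ _ hx hy =>
      have : t * (x * y) * t⁻¹ = (t * x * t⁻¹) * (t * y * t⁻¹) := by group
      rw [this]
      exact ⟨mul_mem hx.1 hy.1, hx.2.mul_left hy.2⟩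
    | inv x _ hx =>
      have : t * x⁻¹ * t⁻¹ = (t * x * t⁻¹)⁻¹ := by group
      rw [this]
      exact ⟨inv_mem hx.1, hx.2.inv_left⟩
  let f : Subgroup.closure (Set.range a) → Subgroup.closure (Set.range a) :=
    fun γ => ⟨t * γ * t⁻¹, (hmap γ γ.2).1⟩
  have hf : Function.Injective f := by
    intro x y hxy
    have := congrArg Subtype.val hxy
    simp only [f, mul_left_inj, mul_right_inj] at this
    exact Subtype.ext this
  obtain ⟨γ, hγ⟩ := Finite.surjective_of_injective hf ⟨a 0, Subgroup.subset_closure ⟨0, rfl⟩⟩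
  have h1 : t * γ * t⁻¹ = a 0 := congrArg Subtype.val hγ
  have h2 := (hmap γ γ.2).2
  rw [h1] at h2
  have h3 : a 0 = (a 0)⁻¹ := by
    rw [← hga 0, mul_assoc, h2.eq, inv_mul_cancel_left]
  apply hne
  have h4 : a 0 * a 0 = 1 := by
    nth_rewrite 2 [h3]; exact mul_inv_cancel _
  have h5 : a 0 ^ 5 = a 0 * a 0 * (a 0 * a 0) * a 0 := by
    simp only [pow_succ, pow_zero, one_mul, mul_assoc]
  rw [ha.h5 0, h4] at h5
  simpa using h5.symm

lemma eq_zero_of_fixed {Γ : Subgroup G} [Infinite Γ] {η : L2 G}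
    (hη : ∀ γ ∈ Γ, lam G γ η = η) : η = 0 := by
  ext h
  have hs := ((lp.memℓp η).summable (by norm_num)).tendsto_cofinite_zero
  have hinj : Function.Injective (fun γ : Γ => (γ : G)⁻¹ * h) := by
    intro x y hxy
    simp only [mul_left_inj, inv_inj] at hxy
    exact Subtype.ext hxy
  have h2 := hs.comp hinj.tendsto_cofinite
  have h3 : ((fun i => ‖η i‖ ^ (2 : ℝ≥0∞).toReal) ∘ fun γ : Γ => (γ : G)⁻¹ * h) =
      fun _ => ‖η h‖ ^ (2 : ℝ≥0∞).toReal := by
    funext γ
    have := congrArg (fun v : L2 G => v h) (hη γ γ.2)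
    simp only [lam_apply] at this
    simp only [Function.comp, this]
  rw [h3] at h2
  have h4 := tendsto_nhds_unique tendsto_const_nhds h2
  simpa using h4

lemma exists_lap_inv {a : Fin 3 → G} (ha : IsTriple a)
    [Infinite (Subgroup.closure (Set.range a))] :
    ∃ w : L2 G →L[ℂ] L2 G, ‖w‖ ≤ 20 ∧ w * lap (lam G) a = 1 ∧ lap (lam G) a * w = 1 := by
  obtain ⟨w, -, w2, w3, w4⟩ := exists_pinv (δ := 0) (star_lap star_lam ha)
    (lap_mem_pos star_lam ha) (lap_gap star_lam ha) (by simp) (by simp)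
  have h1 : lap (lam G) a * w * lap (lam G) a = lap (lam G) a := by
    rw [← sub_eq_zero, ← norm_le_zero_iff]; simpa using w4
  have h2 : lap (lam G) a * (1 - w * lap (lam G) a) = 0 := by
    rw [mul_sub, mul_one, ← mul_assoc, h1, sub_self]
  have h3 : 1 - w * lap (lam G) a = 0 := by
    ext1 ξ
    apply eq_zero_of_fixed (Γ := Subgroup.closure (Set.range a))
    intro γ hγ
    have := fixed_of_lap_mul star_lam eq_zero_of_mem_pos ha h2 hγ
    exact congrArg (fun T : L2 G →L[ℂ] L2 G => T ξ) this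
  have h4 : w * lap (lam G) a = 1 := (sub_eq_zero.mp h3).symm
  exact ⟨w, w3, h4, by rw [← w2.eq, h4]⟩

section Indicator

variable [DecidableEq G]

/-- The indicator function of a finite set. -/
noncomputable def ind (F : Finset G) : L2 G := ∑ x ∈ F, lp.single 2 x (1 : ℂ)

omit [Group G] in
lemma norm_ind (F : Finset G) : ‖ind F‖ = Real.sqrt F.card := by
  have := lp.norm_sum_single (E := fun _ : G => ℂ) (p := 2) (by norm_num) (fun _ => (1 : ℂ)) F
  simp only [ENNReal.toReal_ofNat, Real.rpow_ofNat, norm_one, one_pow, Finset.sum_const,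
    nsmul_eq_mul, mul_one] at this
  rw [← this, Real.sqrt_sq (norm_nonneg _)]
  rfl

lemma lam_single (s x : G) : lam G s (lp.single 2 x (1 : ℂ)) = lp.single 2 (s * x) (1 : ℂ) := by
  ext h
  rw [lam_apply, lp.single_apply, lp.single_apply, Pi.single_apply, Pi.single_apply]
  congr 1
  rw [inv_mul_eq_iff_eq_mul]

lemma lam_ind (s : G) (F : Finset G) : lam G s (ind F) = ind (F.image (s * ·)) := by
  unfold ind
  rw [map_sum, Finset.sum_image (fun x _ y _ h => mul_left_cancel h)]
  simp only [lam_single]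

lemma norm_ind_sub {S : Finset G} {s : G} (hs : s ∈ S) (F : Finset G) :
    ‖ind F - lam G s (ind F)‖ ≤ 2 * Real.sqrt ((S * F) \ F).card := by
  rw [lam_ind]
  have hc : (F.image (s * ·)).card = F.card :=
    Finset.card_image_of_injective _ (mul_right_injective s)
  have h1 : ind F - ind (F.image (s * ·)) =
      ind (F \ F.image (s * ·)) - ind (F.image (s * ·) \ F) := by
    unfold ind
    rw [Finset.sum_sdiff_sub_sum_sdiff]
  have h2 : (F.image (s * ·) \ F).card ≤ ((S * F) \ F).card := by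
    apply Finset.card_le_card
    apply Finset.sdiff_subset_sdiff _ (Finset.Subset.refl F)
    intro x hx
    obtain ⟨y, hy, rfl⟩ := Finset.mem_image.mp hx
    exact Finset.mul_mem_mul hs hy
  have h3 : Real.sqrt (F.image (s * ·) \ F).card ≤ Real.sqrt ((S * F) \ F).card :=
    Real.sqrt_le_sqrt (by exact_mod_cast h2)
  rw [h1]
  refine (norm_sub_le _ _).trans ?_
  rw [norm_ind, norm_ind, Finset.card_sdiff_comm hc.symm]
  linarith

end Indicator

lemma norm_one_sub_avg_le {x : G} {ξ : L2 G} {M : ℝ} (hM : 0 ≤ M)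
    (h : ∀ j : ℕ, 1 ≤ j → j ≤ 4 → ‖ξ - lam G (x ^ j) ξ‖ ≤ M) :
    ‖(1 - avg (lam G x)) ξ‖ ≤ M := by
  have h1 : (1 - avg (lam G x)) ξ = (5⁻¹ : ℂ) • ((ξ - lam G (x ^ 1) ξ) + (ξ - lam G (x ^ 2) ξ) +
      (ξ - lam G (x ^ 3) ξ) + (ξ - lam G (x ^ 4) ξ)) := by
    unfold avg
    simp only [sub_apply, add_apply, smul_apply, one_apply_eq_self, map_pow, pow_one]
    module
  rw [h1, norm_smul]
  have h2 := norm_add_le ((ξ - lam G (x ^ 1) ξ) + (ξ - lam G (x ^ 2) ξ) +
      (ξ - lam G (x ^ 3) ξ)) (ξ - lam G (x ^ 4) ξ)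
  have h3 := norm_add_le ((ξ - lam G (x ^ 1) ξ) + (ξ - lam G (x ^ 2) ξ)) (ξ - lam G (x ^ 3) ξ)
  have h4 := norm_add_le (ξ - lam G (x ^ 1) ξ) (ξ - lam G (x ^ 2) ξ)
  have e1 := h 1 (by norm_num) (by norm_num)
  have e2 := h 2 (by norm_num) (by norm_num)
  have e3 := h 3 (by norm_num) (by norm_num)
  have e4 := h 4 (by norm_num) (by norm_num)
  have h5 : ‖(5⁻¹ : ℂ)‖ = 5⁻¹ := by simp
  rw [h5]
  linarith

lemma exists_expanding [DecidableEq G] {a : Fin 3 → G} (ha : IsTriple a)
    [Infinite (Subgroup.closure (Set.range a))] :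
    ∃ S : Finset G, ∀ F : Finset G, (1 + 14400⁻¹ : ℝ) * F.card ≤ (S * F).card := by
  obtain ⟨w, w1, w2, -⟩ := exists_lap_inv ha
  obtain ⟨S, hS⟩ : ∃ S : Finset G, ∀ i j, j ≤ 4 → a i ^ j ∈ S :=
    ⟨(Finset.univ ×ˢ Finset.range 5).image (fun p : Fin 3 × ℕ => a p.1 ^ p.2), fun i j hj =>
      Finset.mem_image.mpr ⟨(i, j), by simp; omega, rfl⟩⟩
  refine ⟨S, fun F => ?_⟩
  have hF : F ⊆ S * F := by
    intro x hx
    have := Finset.mul_mem_mul (hS 0 0 (by norm_num)) hx
    rwa [pow_zero, one_mul] at this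
  set M := 2 * Real.sqrt ((S * F) \ F).card with hM
  have hM0 : 0 ≤ M := by positivity
  have h1 : ∀ i, ‖(1 - avg (lam G (a i))) (ind F)‖ ≤ M := fun i =>
    norm_one_sub_avg_le hM0 (fun j _ hj => norm_ind_sub (hS i j hj) F)
  have h2 : ‖lap (lam G) a (ind F)‖ ≤ 3 * M := by
    unfold lap
    rw [add_apply, add_apply]
    have := norm_add_le ((1 - avg (lam G (a 0))) (ind F) + (1 - avg (lam G (a 1))) (ind F))
      ((1 - avg (lam G (a 2))) (ind F))
    have := norm_add_le ((1 - avg (lam G (a 0))) (ind F)) ((1 - avg (lam G (a 1))) (ind F))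
    linarith [h1 0, h1 1, h1 2]
  have h3 : ‖ind F‖ ≤ 20 * (3 * M) := by
    have : ind F = w (lap (lam G) a (ind F)) :=
      (congrArg (fun T : L2 G →L[ℂ] L2 G => T (ind F)) w2).symm
    rw [this]
    exact (w.le_opNorm _).trans (mul_le_mul w1 h2 (norm_nonneg _) (by norm_num))
  rw [norm_ind, hM] at h3
  have h4 : (F.card : ℝ) ≤ 14400 * ((S * F) \ F).card := by
    have h5 := Real.sq_sqrt (show (0 : ℝ) ≤ F.card by positivity)
    have h6 := Real.sq_sqrt (show (0 : ℝ) ≤ ((S * F) \ F).card by positivity)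
    nlinarith [Real.sqrt_nonneg (F.card : ℝ), Real.sqrt_nonneg (((S * F) \ F).card : ℝ)]
  have h7 : (((S * F) \ F).card : ℝ) = (S * F).card - F.card := by
    rw [Finset.card_sdiff_of_subset hF, Nat.cast_sub (Finset.card_le_card hF)]
  rw [h7] at h4
  linarith

lemma exists_doubling [DecidableEq G] {S : Finset G} {κ : ℝ} (hκ : 0 < κ)
    (hS : ∀ F : Finset G, (1 + κ) * F.card ≤ (S * F).card) :
    ∃ K : Finset G, ∀ F : Finset G, 2 * F.card ≤ (K * F).card := by
  have h : ∀ m : ℕ, ∀ F : Finset G, (1 + κ) ^ m * F.card ≤ (S ^ m * F).card := by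
    intro m
    induction m with
    | zero => intro F; simp
    | succ m ih =>
      intro F
      rw [pow_succ' S, mul_assoc S, pow_succ', mul_assoc]
      exact (mul_le_mul_of_nonneg_left (ih F) (by positivity)).trans (hS _)
  obtain ⟨m, hm⟩ := pow_unbounded_of_one_lt (2 : ℝ) (show 1 < 1 + κ by linarith)
  refine ⟨S ^ m, fun F => ?_⟩
  have h2 : (2 : ℝ) * F.card ≤ (S ^ m * F).card :=
    (mul_le_mul_of_nonneg_right hm.le (by positivity)).trans (h m F)
  exact_mod_cast h2

lemma not_amenable_of_doubling [DecidableEq G] {K : Finset G}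
    (hK : ∀ F : Finset G, 2 * F.card ≤ (K * F).card) : ¬ IsAmenable G := by
  rintro ⟨m, m1, madd, minv⟩
  have hall : ∀ s : Finset (G × Bool),
      s.card ≤ (s.biUnion (fun p => K.image (· * p.1))).card := by
    intro s
    have h1 : s.card ≤ 2 * (s.image Prod.fst).card := by
      have : s ⊆ (s.image Prod.fst) ×ˢ (Finset.univ : Finset Bool) := by
        intro p hp
        exact Finset.mem_product.mpr ⟨Finset.mem_image_of_mem _ hp, Finset.mem_univ _⟩
      have h2 := Finset.card_le_card this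
      rw [Finset.card_product] at h2
      simpa [mul_comm] using h2
    refine h1.trans ((hK _).trans (Finset.card_le_card ?_))
    intro x hx
    obtain ⟨c, hc, y, hy, rfl⟩ := Finset.mem_mul.mp hx
    obtain ⟨p, hp, rfl⟩ := Finset.mem_image.mp hy
    exact Finset.mem_biUnion.mpr ⟨p, hp, Finset.mem_image_of_mem _ hc⟩
  obtain ⟨f, hf, hfK⟩ := (Finset.all_card_le_biUnion_card_iff_exists_injective _).mp hall
  have key : ∀ b : Bool, m (Set.range (fun x => f (x, b))) = 1 := by
    intro b
    have hinj : Function.Injective (fun x => f (x, b)) := fun x y h => congrArg Prod.fst (hf h)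
    have h1 : ∀ K' : Finset G, m ((fun x => f (x, b)) '' {x | f (x, b) * x⁻¹ ∈ K'}) =
        m {x | f (x, b) * x⁻¹ ∈ K'} := by
      intro K'
      induction K' using Finset.induction_on with
      | empty => simp
      | insert c K' hc ih =>
        have hsplit : {x | f (x, b) * x⁻¹ ∈ insert c K'} =
            {x | f (x, b) * x⁻¹ = c} ∪ {x | f (x, b) * x⁻¹ ∈ K'} := by
          ext x; simp
        have hdisj : Disjoint {x | f (x, b) * x⁻¹ = c} {x | f (x, b) * x⁻¹ ∈ K'} := by
          rw [Set.disjoint_left]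
          intro x hx hx'
          simp only [Set.mem_ofPred_eq] at hx hx'
          exact hc (hx ▸ hx')
        have himg : (fun x => f (x, b)) '' {x | f (x, b) * x⁻¹ = c} =
            (fun x => c * x) '' {x | f (x, b) * x⁻¹ = c} := by
          apply Set.image_congr
          intro x hx
          simp only [Set.mem_ofPred_eq] at hx
          rw [← hx, inv_mul_cancel_right]
        rw [hsplit, Set.image_union, madd _ _ ((Set.disjoint_image_iff hinj).mpr hdisj),
          madd _ _ hdisj, ih, himg, minv]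
    have h2 : {x | f (x, b) * x⁻¹ ∈ K} = Set.univ := by
      ext x
      simp only [Set.mem_ofPred_eq, Set.mem_univ, iff_true]
      obtain ⟨c, hc, h⟩ := Finset.mem_image.mp (hfK (x, b))
      rw [← h]; simpa using hc
    have h3 := h1 K
    rwa [h2, Set.image_univ, m1] at h3
  have hdisj : Disjoint (Set.range (fun x => f (x, true))) (Set.range (fun x => f (x, false))) := by
    rw [Set.disjoint_left]
    rintro _ ⟨x, rfl⟩ ⟨y, hy⟩
    have := congrArg Prod.snd (hf hy)
    simp at this
  have h4 := madd _ _ (disjoint_compl_right (a := Set.range (fun x => f (x, true)) ∪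
    Set.range (fun x => f (x, false))))
  rw [Set.union_compl_self, m1, madd _ _ hdisj, key, key] at h4
  have h5 : (1 : ℝ≥0∞) + 1 ≤ 1 := by
    conv_rhs => rw [h4]
    exact le_self_add
  norm_num at h5

theorem not_amenable {a : Fin 3 → G} (ha : IsTriple a)
    [Infinite (Subgroup.closure (Set.range a))] : ¬ IsAmenable G := by
  classical
  obtain ⟨S, hS⟩ := exists_expanding ha
  obtain ⟨K, hK⟩ := exists_doubling (by norm_num) hS
  exact not_amenable_of_doubling hK

end Pool.Agent.MP_56ff7a_an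

end
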