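import Pool.Agent.MP_56ff7a_an.H20.Defs
import Mathlib
import Pool.Agent.MP_56ff7a_an.Mg.Regular

-- part MP_56ff7a_an.H20.Cor
section

/-!
The C*-algebra of bounded sequences modulo null sequences.
-/

namespace Pool.Agent.MP_56ff7a_an.H20

open scoped ENNReal
open Filter Topology

variable (B : Type) [CStarAlgebra B] [Nontrivial B]

/-- Bounded sequences. -/
abbrev Sq : Type := lp (fun _ : ℕ => B) ∞

/-- Null sequences. -/
def nul : Ideal (Sq B) where
  carrier := nullSequences fun _ => B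
  add_mem' := fun {x y} hx hy => squeeze_zero (fun _ => norm_nonneg _)
    (fun n => norm_add_le (x n) (y n)) (by simpa using Tendsto.add hx hy)
  zero_mem' := by simp [nullSequences]
  smul_mem' := fun c x hx => squeeze_zero (fun _ => norm_nonneg _)
    (fun n => (norm_mul_le (c n) (x n)).trans (mul_le_mul_of_nonneg_right
      (lp.norm_apply_le_norm ENNReal.top_ne_zero c n) (norm_nonneg _)))
    (by simpa using Tendsto.const_mul ‖c‖ hx)

variable {B}

theorem mem_nul {x : Sq B} : x ∈ nul B ↔ Tendsto (fun n => ‖x n‖) atTop (𝓝 0) := Iff.rfl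

theorem star_mem_nul {x : Sq B} (hx : x ∈ nul B) : star x ∈ nul B := by
  rw [mem_nul] at hx ⊢
  simpa using hx

instance : (nul B).IsTwoSided where
  mul_mem_of_left := fun {x} c hx => by
    simpa using star_mem_nul ((nul B).mul_mem_left (star c) (star_mem_nul hx))

theorem Sq.le (x : Sq B) (n : ℕ) : ‖x n‖ ≤ ‖x‖ := lp.norm_apply_le_norm ENNReal.top_ne_zero x n

instance : IsClosed (nul B : Set (Sq B)) := by
  refine isClosed_of_closure_subset fun x hx => mem_nul.2 (Metric.tendsto_atTop.2 fun ε hε => ?_)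
  obtain ⟨y, hy, h⟩ := Metric.mem_closure_iff.1 hx (ε / 2) (half_pos hε)
  obtain ⟨N, hN⟩ := Metric.tendsto_atTop.1 (mem_nul.1 hy) (ε / 2) (half_pos hε)
  refine ⟨N, fun n hn => ?_⟩
  have h1 := hN n hn
  have h2 : ‖x n - y n‖ ≤ ‖x - y‖ := Sq.le (x - y) n
  have h3 := norm_sub_norm_le (x n) (y n)
  rw [dist_eq_norm] at h
  simp only [dist_zero_right, norm_norm] at h1 ⊢
  linarith

variable (B)

/-- Bounded sequences modulo null sequences. -/
def Cor : Type := Sq B ⧸ nul B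

noncomputable instance : Ring (Cor B) := inferInstanceAs (Ring (Sq B ⧸ nul B))

noncomputable instance : NormedAddCommGroup (Cor B) :=
  inferInstanceAs (NormedAddCommGroup (Sq B ⧸ nul B))

noncomputable instance : Algebra ℂ (Cor B) := inferInstanceAs (Algebra ℂ (Sq B ⧸ nul B))

/-- The quotient map. -/
noncomputable def mk : Sq B →ₐ[ℂ] Cor B := Ideal.Quotient.mkₐ ℂ (nul B)

variable {B}

theorem mk_surj : Function.Surjective (mk B) := Ideal.Quotient.mkₐ_surjective ℂ _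

theorem mk_eq {x y : Sq B} : mk B x = mk B y ↔ x - y ∈ nul B := Ideal.Quotient.eq

theorem mk_eq_zero {x : Sq B} : mk B x = 0 ↔ x ∈ nul B := Ideal.Quotient.eq_zero_iff_mem

theorem norm_mk_le' (x : Sq B) : ‖mk B x‖ ≤ ‖x‖ := Submodule.Quotient.norm_mk_le (nul B) x

theorem ev_le (x : Sq B) {r : ℝ} (h : ‖mk B x‖ < r) : ∀ᶠ n in atTop, ‖x n‖ < r := by
  obtain ⟨y, h1, h2⟩ := QuotientAddGroup.norm_lt_iff.1 h
  have h3 : x - y ∈ nul B := mk_eq.1 h1.symm
  filter_upwards [(mem_nul.1 h3).eventually (gt_mem_nhds (sub_pos.2 h2))] with n hn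
  have h4 := norm_sub_norm_le (x n) (y n)
  have h5 := Sq.le y n
  change ‖x n - y n‖ < _ at hn
  linarith

theorem norm_mk_le (x : Sq B) {r : ℝ} (h : ∀ᶠ n in atTop, ‖x n‖ ≤ r) : ‖mk B x‖ ≤ r := by
  classical
  have hr : 0 ≤ r := by obtain ⟨n, hn⟩ := h.exists; exact (norm_nonneg _).trans hn
  have h1 : ∀ n, ‖if ‖x n‖ ≤ r then x n else 0‖ ≤ r := fun n => by split_ifs <;> simp [*]
  let y : Sq B := ⟨fun n => if ‖x n‖ ≤ r then x n else 0,
    memℓp_infty ⟨r, by rintro _ ⟨n, rfl⟩; exact h1 n⟩⟩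
  have h2 : mk B x = mk B y := mk_eq.2 (mem_nul.2 (tendsto_const_nhds.congr' (by
    filter_upwards [h] with n hn
    change 0 = ‖x n - if ‖x n‖ ≤ r then x n else 0‖
    simp [hn])))
  rw [h2]
  exact (norm_mk_le' y).trans (lp.norm_le_of_forall_le hr h1)

theorem norm_mk_le_of (x : Sq B) {r : ℝ} (h : ∀ ε > 0, ∀ᶠ n in atTop, ‖x n‖ ≤ r + ε) :
    ‖mk B x‖ ≤ r := le_of_forall_pos_le_add fun ε hε => norm_mk_le x (h ε hε)

noncomputable instance : Star (Cor B) where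
  star x := mk B (star (Function.surjInv mk_surj x))

theorem star_mk (x : Sq B) : star (mk B x) = mk B (star x) :=
  mk_eq.2 (by
    rw [← star_sub]; exact star_mem_nul (mk_eq.1 (Function.surjInv_eq mk_surj _)))

theorem le_of_sq {a b c : ℝ} (h : ∀ r s, b < r → c < s → a ≤ r * s) : a ≤ b * c := by
  have : Tendsto (fun ε : ℝ => (b + ε) * (c + ε)) (𝓝[>] 0) (𝓝 ((b + 0) * (c + 0))) :=
    (Continuous.tendsto (by fun_prop) 0).mono_left nhdsWithin_le_nhds
  simp only [add_zero] at this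
  exact ge_of_tendsto this (by
    filter_upwards [self_mem_nhdsWithin] with ε hε
    exact h _ _ (lt_add_of_pos_right _ hε) (lt_add_of_pos_right _ hε))

noncomputable instance : NormedRing (Cor B) where
  __ := (inferInstance : Ring (Cor B))
  __ := (inferInstance : NormedAddCommGroup (Cor B))
  norm_mul_le x y := by
    obtain ⟨x, rfl⟩ := mk_surj x
    obtain ⟨y, rfl⟩ := mk_surj y
    rw [← map_mul]
    refine le_of_sq fun r s hr hs => norm_mk_le _ ?_
    filter_upwards [ev_le x hr, ev_le y hs] with n h1 h2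
    exact (norm_mul_le (x n) (y n)).trans
      (mul_le_mul h1.le h2.le (norm_nonneg _) ((norm_nonneg _).trans h1.le))

noncomputable instance : CStarAlgebra (Cor B) where
  __ := (inferInstance : NormedRing (Cor B))
  __ := (inferInstance : Algebra ℂ (Cor B))
  star_involutive x := by
    obtain ⟨x, rfl⟩ := mk_surj x
    rw [star_mk, star_mk, star_star]
  star_mul x y := by
    obtain ⟨x, rfl⟩ := mk_surj x
    obtain ⟨y, rfl⟩ := mk_surj y
    rw [← map_mul, star_mk, star_mk, star_mk, star_mul, map_mul]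
  star_add x y := by
    obtain ⟨x, rfl⟩ := mk_surj x
    obtain ⟨y, rfl⟩ := mk_surj y
    rw [← map_add, star_mk, star_mk, star_mk, star_add, map_add]
  toCompleteSpace := Submodule.Quotient.completeSpace (nul B)
  norm_mul_self_le x := by
    obtain ⟨x, rfl⟩ := mk_surj x
    rw [star_mk, ← map_mul, ← sq, ← Real.le_sqrt (norm_nonneg _) (norm_nonneg _)]
    refine le_of_forall_gt_imp_ge_of_dense fun r hr => norm_mk_le _ ?_
    have hr0 := (Real.sqrt_nonneg _).trans_lt hr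
    filter_upwards [ev_le _ ((Real.sqrt_lt' hr0).1 hr)] with n hn
    change ‖star (x n) * x n‖ < _ at hn
    rw [CStarRing.norm_star_mul_self, ← sq] at hn
    exact (pow_le_pow_iff_left₀ (norm_nonneg _) hr0.le two_ne_zero).1 hn.le
  norm_smul_le c x := (Submodule.Quotient.normedSpace (nul B) ℂ).norm_smul_le c x
  star_smul c x := by
    obtain ⟨x, rfl⟩ := mk_surj x
    rw [← map_smul, star_mk, star_mk, star_smul, map_smul]

/-- The quotient map as a star homomorphism. -/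
noncomputable def mkS : Sq B →⋆ₙₐ[ℂ] Cor B where
  toFun := mk B
  map_smul' := map_smul (mk B)
  map_zero' := map_zero (mk B)
  map_add' := map_add (mk B)
  map_mul' := map_mul (mk B)
  map_star' x := (star_mk x).symm

/-- Constant sequences. -/
def cst (b : B) : Sq B := ⟨fun _ => b, memℓp_infty ⟨‖b‖, by rintro _ ⟨n, rfl⟩; exact le_rfl⟩⟩

/-- The diagonal embedding. -/
noncomputable def dg : B →⋆ₐ[ℂ] Cor B where
  toFun b := mk B (cst b)
  map_one' := map_one (mk B)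
  map_mul' a b := map_mul (mk B) (cst a) (cst b)
  map_zero' := map_zero (mk B)
  map_add' a b := map_add (mk B) (cst a) (cst b)
  commutes' c := (mk B).commutes c
  map_star' a := (star_mk (cst a)).symm

theorem lift_of_wsp [TopologicalSpace.SeparableSpace B] {C : Type} [CStarAlgebra C]
    {A : StarSubalgebra ℂ C} (h : IsWeaklySemiprojective A) (φ : A →⋆ₙₐ[ℂ] Cor B) :
    ∃ ψ : A →⋆ₙₐ[ℂ] Sq B, ∀ x, mk B (ψ x) = φ x :=
  h (fun _ => B) (Cor B) mkS mk_surj (fun _ => mk_eq_zero) φ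

end Pool.Agent.MP_56ff7a_an.H20

end

-- part MP_56ff7a_an.H20.Qc
section

/-!
Quasicentral approximate units.
-/

namespace Pool.Agent.MP_56ff7a_an.H20

open scoped ENNReal
open Filter Topology

variable {B D : Type} [CStarAlgebra B] [CStarAlgebra D] (q : B →⋆ₐ[ℂ] D)

theorem cont_hom : Continuous q :=
  AddMonoidHomClass.continuous_of_bound q 1 fun x => by
    simpa using NonUnitalStarAlgHom.norm_apply_le q x

theorem norm_mul_cfc {x h : B} [PartialOrder B] [StarOrderedRing B] (hx : star x * x ≤ h)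
    {f : ℝ → ℝ} (hf : ContinuousOn f (spectrum ℝ h)) {r : ℝ} (hr : 0 ≤ r)
    (H : ∀ t ∈ spectrum ℝ h, 0 ≤ t → f t * t * f t ≤ r ^ 2) : ‖x * cfc f h‖ ≤ r := by
  have h0 : 0 ≤ h := (star_mul_self_nonneg x).trans hx
  have hs : IsSelfAdjoint (cfc f h) := cfc_predicate f h
  have h1 : star (x * cfc f h) * (x * cfc f h) ≤ cfc (fun t => f t * t * f t) h := by
    rw [cfc_mul _ _ h, cfc_mul _ _ h, cfc_id' ℝ h, star_mul, hs.star_eq]
    simpa [mul_assoc, hs.star_eq] using star_left_conjugate_le_conjugate hx (cfc f h)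
  have h2 := (CStarAlgebra.norm_le_norm_of_nonneg_of_le (star_mul_self_nonneg _) h1).trans
    (norm_cfc_le (sq_nonneg r) fun t ht => by
      have h3 := spectrum_nonneg_of_nonneg h0 ht
      rw [Real.norm_of_nonneg (by nlinarith [mul_self_nonneg (f t)])]
      exact H t ht h3)
  rw [CStarRing.norm_star_mul_self, ← sq] at h2
  exact (pow_le_pow_iff_left₀ (norm_nonneg _) hr two_ne_zero).1 h2

theorem exists_near (b : B) {ε : ℝ} (hε : 0 < ε) : ∃ i, q i = 0 ∧ ‖b - i‖ ≤ ‖q b‖ + ε := by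
  let _ := CStarAlgebra.spectralOrder B
  have := CStarAlgebra.spectralOrderedRing B
  let g : ℝ → ℝ := fun t => min 1 (max 0 ((t - ‖q b‖ ^ 2) / ε ^ 2))
  have hg : Continuous g := by fun_prop
  have hs := IsSelfAdjoint.star_mul_self b
  refine ⟨b * cfc g (star b * b), ?_, ?_⟩
  · rw [map_mul, StarAlgHom.map_cfc q g _ hg.continuousOn (cont_hom q) hs (hs.map q),
      cfc_congr (g := 0) fun t ht => ?_, cfc_zero, mul_zero]
    rcases subsingleton_or_nontrivial D with h | h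
    · simp [spectrum.of_subsingleton] at ht
    have h1 := spectrum.norm_le_norm_of_mem ht
    rw [map_mul, map_star, CStarRing.norm_star_mul_self, ← sq] at h1
    have h2 : (t - ‖q b‖ ^ 2) / ε ^ 2 ≤ 0 :=
      div_nonpos_of_nonpos_of_nonneg (by linarith [Real.le_norm_self t]) (sq_nonneg _)
    simp [g, h2]
  · have h1 : b - b * cfc g (star b * b) = b * cfc (fun t => 1 - g t) (star b * b) := by
      rw [cfc_sub _ _ _, cfc_const_one ℝ _, mul_sub, mul_one]
    rw [h1]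
    refine norm_mul_cfc le_rfl (by fun_prop) (by positivity) fun t _ ht => ?_
    have h2 : 0 ≤ g t := le_min zero_le_one (le_max_left _ _)
    have h3 : g t ≤ 1 := min_le_left _ _
    by_cases h4 : t ≤ (‖q b‖ + ε) ^ 2
    · nlinarith [mul_nonneg h2 ht, mul_nonneg (mul_nonneg h2 ht) (sub_nonneg.2 h3)]
    · have h5 : 1 ≤ (t - ‖q b‖ ^ 2) / ε ^ 2 := by
        rw [le_div_iff₀ (by positivity)]
        nlinarith [mul_nonneg (norm_nonneg (q b)) hε.le]
      have : g t = 1 := min_eq_left (h5.trans (le_max_right _ _))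
      rw [this]
      simp only [sub_self, zero_mul]
      positivity

theorem exists_au (J : Finset B) (hJ : ∀ x ∈ J, q x = 0) {ε : ℝ} (hε : 0 < ε) :
    ∃ u, IsSelfAdjoint u ∧ ‖1 - (2 : ℝ) • u‖ ≤ 1 ∧ q u = 0 ∧ ∀ x ∈ J, ‖x * (1 - u)‖ ≤ ε := by
  let _ := CStarAlgebra.spectralOrder B
  have := CStarAlgebra.spectralOrderedRing B
  let g : ℝ → ℝ := fun t => min 1 (|t| / ε ^ 2)
  have hg : Continuous g := by fun_prop
  have h0 : 0 ≤ ∑ x ∈ J, star x * x := Finset.sum_nonneg fun x _ => star_mul_self_nonneg x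
  have hs := IsSelfAdjoint.of_nonneg h0
  have h2 : ∀ t, 0 ≤ g t := fun t => le_min zero_le_one (by positivity)
  have h3 : ∀ t, g t ≤ 1 := fun t => min_le_left _ _
  refine ⟨cfc g (∑ x ∈ J, star x * x), cfc_predicate _ _, ?_, ?_, fun x hx => ?_⟩
  · rw [← cfc_smul (2 : ℝ) g _, ← cfc_const_one ℝ (∑ x ∈ J, star x * x), ← cfc_sub _ _ _]
    refine norm_cfc_le zero_le_one fun t _ => ?_
    rw [Real.norm_eq_abs, abs_le, smul_eq_mul]
    constructor <;> linarith [h2 t, h3 t]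
  · rw [StarAlgHom.map_cfc q g _ hg.continuousOn (cont_hom q) hs (hs.map q), map_sum,
      Finset.sum_eq_zero fun x hx => by rw [map_mul, hJ x hx, mul_zero], cfc_apply_zero]
    simp [g]
  · rw [← cfc_const_one ℝ (∑ x ∈ J, star x * x), ← cfc_sub _ _ _]
    refine norm_mul_cfc (Finset.single_le_sum (f := fun x => star x * x)
      (fun x _ => star_mul_self_nonneg x) hx) (by fun_prop) hε.le fun t _ ht => ?_
    by_cases h4 : t ≤ ε ^ 2
    · nlinarith [mul_nonneg (h2 t) ht, mul_nonneg (mul_nonneg (h2 t) ht) (sub_nonneg.2 (h3 t))]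
    · have : g t = 1 := min_eq_left (by
        rw [le_div_iff₀ (by positivity), abs_of_nonneg ht]; linarith)
      rw [this]
      simp only [sub_self, zero_mul]
      positivity

theorem norm_one_le' : ‖(1 : B)‖ ≤ 1 := by
  nontriviality B
  exact norm_one.le

theorem norm_le_one_of {u : B} (h : ‖1 - (2 : ℝ) • u‖ ≤ 1) : ‖u‖ ≤ 1 := by
  have h1 := norm_sub_le (1 : B) (1 - (2 : ℝ) • u)
  rw [sub_sub_cancel, norm_smul, Real.norm_two] at h1
  linarith [norm_one_le' (B := B)]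

theorem exists_sum (S J : Finset B) (hJ : ∀ x ∈ J, q x = 0) {ε : ℝ} (hε : 0 < ε) (N : ℕ) :
    ∃ s, IsSelfAdjoint s ∧ ‖(N : ℝ) • 1 - (2 : ℝ) • s‖ ≤ N ∧ q s = 0 ∧
      (∀ x ∈ J, ‖x * ((N : ℝ) • 1 - s)‖ ≤ N * ε) ∧
      ∀ b ∈ S, ‖s * b - b * s‖ ^ 2 ≤ N * (2 * (‖b‖ + 1) * ε + 4 * ‖b‖ ^ 2) := by
  classical
  induction N with
  | zero => exact ⟨0, .zero _, by simp, map_zero q, by simp, by simp⟩
  | succ N ih =>
    obtain ⟨s, s1, s2, s3, s4, s5⟩ := ih
    obtain ⟨u, u1, u2, u3, u4⟩ := exists_au q (J ∪ S.image (fun b => star (s * b - b * s)) ∪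
      S.image fun b => star (s * b - b * s) * b) (fun x hx => by
        simp only [Finset.mem_union, Finset.mem_image] at hx
        rcases hx with (hx | ⟨b, -, rfl⟩) | ⟨b, -, rfl⟩
        · exact hJ x hx
        all_goals simp [map_star, s3]) hε
    refine ⟨s + u, s1.add u1, ?_, by rw [map_add, s3, u3, add_zero], fun x hx => ?_,
      fun b hb => ?_⟩
    · have : ((N + 1 : ℕ) : ℝ) • (1 : B) - (2 : ℝ) • (s + u) =
          ((N : ℝ) • 1 - (2 : ℝ) • s) + (1 - (2 : ℝ) • u) := by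
        push_cast; module
      rw [this]
      push_cast
      exact (norm_add_le _ _).trans (add_le_add s2 u2)
    · have : x * (((N + 1 : ℕ) : ℝ) • (1 : B) - (s + u)) =
          x * ((N : ℝ) • 1 - s) + x * (1 - u) := by
        rw [← mul_add]; congr 1; push_cast; module
      rw [this]
      push_cast
      rw [add_mul, one_mul]
      exact (norm_add_le _ _).trans (add_le_add (s4 x hx) (u4 x (by simp [hx])))
    · set c := s * b - b * s
      set d := u * b - b * u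
      have h1 : ‖star c * d‖ ≤ (‖b‖ + 1) * ε := by
        have h2 : star c * d = star c * b * (1 - u) - star c * (1 - u) * b := by
          simp only [d]; noncomm_ring
        have h3 := u4 (star c * b) (by simp only [Finset.mem_union, Finset.mem_image]; grind)
        have h4 := u4 (star c) (by simp only [Finset.mem_union, Finset.mem_image]; grind)
        have h5 := norm_mul_le (star c * (1 - u)) b
        have h6 := mul_le_mul_of_nonneg_right h4 (norm_nonneg b)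
        rw [h2]
        linarith [norm_sub_le (star c * b * (1 - u)) (star c * (1 - u) * b)]
      have h2 : ‖d‖ ≤ 2 * ‖b‖ := by
        have := mul_le_mul_of_nonneg_right (norm_le_one_of u2) (norm_nonneg b)
        linarith [norm_sub_le (u * b) (b * u), norm_mul_le u b, norm_mul_le b u]
      have h3 : (s + u) * b - b * (s + u) = c + d := by simp only [c, d]; noncomm_ring
      have h4 : star (c + d) * (c + d) =
          star c * c + star c * d + star (star c * d) + star d * d := by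
        simp only [star_add, star_mul, star_star]; noncomm_ring
      have h5 : ‖c + d‖ ^ 2 ≤ ‖c‖ ^ 2 + ‖star c * d‖ + ‖star c * d‖ + ‖d‖ ^ 2 := by
        rw [sq, ← CStarRing.norm_star_mul_self, h4, sq, sq, ← CStarRing.norm_star_mul_self,
          ← CStarRing.norm_star_mul_self]
        exact norm_add₄_le.trans (by rw [norm_star])
      rw [h3]
      push_cast
      nlinarith [s5 b hb, norm_nonneg d, norm_nonneg b]

theorem exists_qc (S J : Finset B) (hJ : ∀ x ∈ J, q x = 0) {ε : ℝ} (hε : 0 < ε) :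
    ∃ e, IsSelfAdjoint e ∧ ‖1 - (2 : ℝ) • e‖ ≤ 1 ∧ q e = 0 ∧ (∀ x ∈ J, ‖x * (1 - e)‖ ≤ ε) ∧
      ∀ b ∈ S, ‖e * b - b * e‖ ≤ ε := by
  obtain ⟨N, hN⟩ := exists_nat_gt ((∑ b ∈ S, (2 * (‖b‖ + 1) * ε + 4 * ‖b‖ ^ 2)) / ε ^ 2)
  have h0 : ∀ b ∈ S, 0 ≤ 2 * (‖b‖ + 1) * ε + 4 * ‖b‖ ^ 2 := fun b _ => by positivity
  have hN0 : (0 : ℝ) < N := lt_of_le_of_lt (div_nonneg (Finset.sum_nonneg h0) (sq_nonneg _)) hN
  obtain ⟨s, s1, s2, s3, s4, s5⟩ := exists_sum q S J hJ hε N
  have key : ∀ {x y : B} {r : ℝ}, (N : ℝ) • x = y → ‖y‖ ≤ N * r → ‖x‖ ≤ r := fun h1 h2 => by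
    rw [← h1, norm_smul, Real.norm_of_nonneg hN0.le] at h2
    exact le_of_mul_le_mul_left h2 hN0
  have e1 : (N : ℝ) • (N : ℝ)⁻¹ • s = s := smul_inv_smul₀ hN0.ne' s
  refine ⟨(N : ℝ)⁻¹ • s, (IsSelfAdjoint.all _).smul s1, key ?_ (by simpa using s2), ?_,
    fun x hx => key ?_ (s4 x hx), fun b hb => key (y := s * b - b * s) ?_ ?_⟩
  · rw [smul_sub, smul_comm _ (2 : ℝ), e1]
  · rw [← Complex.coe_smul, map_smul, s3, smul_zero]
  · rw [← mul_smul_comm, smul_sub, e1]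
  · rw [smul_sub, ← smul_mul_assoc, ← mul_smul_comm, e1]
  · refine (pow_le_pow_iff_left₀ (norm_nonneg _) (by positivity) two_ne_zero).1
      ((s5 b hb).trans ?_)
    rw [div_lt_iff₀ (by positivity)] at hN
    nlinarith [Finset.single_le_sum h0 hb]

theorem exists_central [Nontrivial B] [TopologicalSpace.SeparableSpace B] :
    ∃ e : Sq B, (∀ n, q (e n) = 0) ∧ IsSelfAdjoint (mk B e) ∧ ‖1 - (2 : ℝ) • mk B e‖ ≤ 1 ∧
      (∀ b, Commute (mk B e) (dg b)) ∧ ∀ i, q i = 0 → dg i * (1 - mk B e) = 0 := by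
  classical
  have : SecondCountableTopology B := UniformSpace.secondCountable_of_separable B
  have : Nonempty {i // q i = 0} := ⟨⟨0, map_zero q⟩⟩
  let d := TopologicalSpace.denseSeq B
  let d' := TopologicalSpace.denseSeq {i // q i = 0}
  choose e e1 e2 e3 e4 e5 using fun n : ℕ => exists_qc q ((Finset.range n).image d)
    ((Finset.range n).image fun m => (d' m).1) (fun x hx => by
      obtain ⟨m, -, rfl⟩ := Finset.mem_image.1 hx; exact (d' m).2) (Nat.one_div_pos_of_nat (n := n))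
  let E : Sq B := ⟨e, memℓp_infty ⟨1, by rintro _ ⟨n, rfl⟩; exact norm_le_one_of (e2 n)⟩⟩
  have h0 : ∀ (x : Sq B) (m : ℕ), (∀ n, m < n → ‖x n‖ ≤ 1 / ((n : ℝ) + 1)) → mk B x = 0 :=
    fun x m h => mk_eq_zero.2 (squeeze_zero' (.of_forall fun _ => norm_nonneg _)
      ((eventually_gt_atTop m).mono h) tendsto_one_div_add_atTop_nhds_zero_nat)
  refine ⟨E, e3, ?_, ?_, fun b => ?_, fun i hi => ?_⟩
  · rw [IsSelfAdjoint, star_mk]
    congr 1
    ext n
    exact (e1 n).star_eq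
  · rw [← Complex.coe_smul, ← map_smul, ← map_one (mk B), ← map_sub]
    exact norm_mk_le _ (.of_forall fun n => by
      have := e2 n
      rwa [← Complex.coe_smul] at this)
  · refine (TopologicalSpace.denseRange_denseSeq B).induction_on b (isClosed_eq ?_ ?_) fun m => ?_
    · exact continuous_const.mul (cont_hom dg)
    · exact (cont_hom dg).mul continuous_const
    · have := h0 (E * cst (d m) - cst (d m) * E) m fun n hn =>
        e5 n _ (Finset.mem_image_of_mem _ (Finset.mem_range.2 hn))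
      rw [map_sub, map_mul, map_mul] at this
      exact sub_eq_zero.1 this
  · refine (TopologicalSpace.denseRange_denseSeq {i // q i = 0}).induction_on
      (p := fun i => dg i.1 * (1 - mk B E) = 0) ⟨i, hi⟩ (isClosed_eq
        (((cont_hom dg).comp continuous_subtype_val).mul continuous_const) continuous_const)
      fun m => ?_
    have := h0 (cst (d' m).1 * (1 - E)) m fun n hn =>
      e4 n _ (Finset.mem_image_of_mem (fun m => (d' m).1) (Finset.mem_range.2 hn))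
    rwa [map_mul, map_sub, map_one] at this

end Pool.Agent.MP_56ff7a_an.H20

end

-- part MP_56ff7a_an.H20.Bern
section

/-!
Bernstein partitions of unity in a C*-algebra.
-/

namespace Pool.Agent.MP_56ff7a_an.H20

open Filter Topology Finset

variable {C : Type} [CStarAlgebra C] {e : C}

theorem norm_sum_sa {ι : Type} (s : Finset ι) (he : IsSelfAdjoint e) (f : ι → ℝ → ℝ)
    (hf : ∀ i, Continuous (f i)) (f0 : ∀ i, ∀ t ∈ spectrum ℝ e, 0 ≤ f i t) (b : ι → C)
    (hb : ∀ i, IsSelfAdjoint (b i)) (hc : ∀ i, Commute e (b i)) (β : ι → ℝ)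
    (hβ : ∀ i ∈ s, ‖b i‖ ≤ β i) {r : ℝ} (hr : 0 ≤ r)
    (h : ∀ t ∈ spectrum ℝ e, ∑ i ∈ s, β i * f i t ≤ r) : ‖∑ i ∈ s, cfc (f i) e * b i‖ ≤ r := by
  let _ := CStarAlgebra.spectralOrder C
  have := CStarAlgebra.spectralOrderedRing C
  have key : ∀ b : ι → C, (∀ i, IsSelfAdjoint (b i)) → (∀ i, Commute e (b i)) →
      (∀ i ∈ s, ‖b i‖ ≤ β i) → ∑ i ∈ s, cfc (f i) e * b i ≤ algebraMap ℝ C r := fun b hb hc hβ => by
    have h1 : ∑ i ∈ s, cfc (f i) e * b i ≤ ∑ i ∈ s, cfc (fun t => β i * f i t) e :=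
      sum_le_sum fun i hi => by
        rw [cfc_const_mul _ _ _, ← sub_nonneg, Algebra.smul_def, Algebra.commutes, ← mul_sub]
        refine Commute.mul_nonneg (cfc_nonneg (f0 i)) (sub_nonneg.2
          ((hb i).le_algebraMap_norm_self.trans ?_)) ?_
        · rw [← sub_nonneg, ← map_sub, Algebra.algebraMap_eq_smul_one]
          exact smul_nonneg (sub_nonneg.2 (hβ i hi)) zero_le_one
        · exact (Algebra.commute_algebraMap_right _ _).sub_right (he.commute_cfc (hc i) _)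
    refine h1.trans ?_
    rw [← cfc_sum _ _ _]
    exact cfc_le_algebraMap _ _ _ (fun t ht => by simpa using h t ht) 
      (((continuous_finsetSum s fun i _ => (hf i).const_mul (β i)).congr
        fun t => by simp).continuousOn)
  have h1 := key b hb hc hβ
  have h2 := key (fun i => -b i) (fun i => (hb i).neg) (fun i => (hc i).neg_right)
    fun i hi => by simpa using hβ i hi
  have h3 : IsSelfAdjoint (∑ i ∈ s, cfc (f i) e * b i) := isSelfAdjoint_sum _ fun i _ =>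
    ((cfc_predicate (f i) e).commute_iff (hb i)).1 (he.commute_cfc (hc i) _)
  simp only [mul_neg, sum_neg_distrib] at h2
  rw [neg_le, ← map_neg, algebraMap_le_iff_le_spectrum] at h2
  rw [le_algebraMap_iff_spectrum_le] at h1
  rw [← cfc_id' ℝ _ h3]
  exact norm_cfc_le hr fun t ht => abs_le.2 ⟨h2 t ht, h1 t ht⟩

theorem norm_sum_cfc {ι : Type} (s : Finset ι) (he : IsSelfAdjoint e) (f : ι → ℝ → ℝ)
    (hf : ∀ i, Continuous (f i)) (f0 : ∀ i, ∀ t ∈ spectrum ℝ e, 0 ≤ f i t) (b : ι → C)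
    (hc : ∀ i, Commute e (b i)) (β : ι → ℝ) (hβ : ∀ i ∈ s, ‖b i‖ ≤ β i) {r : ℝ} (hr : 0 ≤ r)
    (h : ∀ t ∈ spectrum ℝ e, ∑ i ∈ s, β i * f i t ≤ r) :
    ‖∑ i ∈ s, cfc (f i) e * b i‖ ≤ 2 * r := by
  have hc' : ∀ i, Commute e (star (b i)) := fun i => by
    simpa [he.star_eq] using (hc i).star_star
  have h1 := norm_sum_sa s he f hf f0 (fun i => (realPart (b i) : C)) (fun i => (realPart _).2)
    (fun i => by
      rw [realPart_apply_coe]; exact ((hc i).add_right (hc' i)).smul_right _) β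
    (fun i hi => (realPart.norm_le _).trans (hβ i hi)) hr h
  have h2 := norm_sum_sa s he f hf f0 (fun i => (imaginaryPart (b i) : C))
    (fun i => (imaginaryPart _).2) (fun i => by
      rw [imaginaryPart_apply_coe]
      exact (((hc i).sub_right (hc' i)).smul_right _).smul_right _) β
    (fun i hi => (imaginaryPart.norm_le _).trans (hβ i hi)) hr h
  have h3 : ∑ i ∈ s, cfc (f i) e * b i = ∑ i ∈ s, cfc (f i) e * (realPart (b i) : C) +
      Complex.I • ∑ i ∈ s, cfc (f i) e * (imaginaryPart (b i) : C) := by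
    rw [smul_sum, ← sum_add_distrib]
    refine sum_congr rfl fun i _ => ?_
    rw [← mul_smul_comm, ← mul_add, realPart_add_I_smul_imaginaryPart]
  rw [h3]
  refine (norm_add_le _ _).trans ?_
  rw [norm_smul, Complex.norm_I]
  linarith

/-- The Bernstein basis. -/
noncomputable def bn (N j : ℕ) (t : ℝ) : ℝ := N.choose j * t ^ j * (1 - t) ^ (N - j)

theorem bn_cont (N j : ℕ) : Continuous (bn N j) := by unfold bn; fun_prop

theorem bn_nonneg (N j : ℕ) {t : ℝ} (ht : t ∈ Set.Icc (0 : ℝ) 1) : 0 ≤ bn N j t := by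
  have := ht.1
  have := sub_nonneg.2 ht.2
  unfold bn; positivity

theorem bn_sum (N : ℕ) (t : ℝ) : ∑ j ∈ range (N + 1), bn N j t = 1 := by
  simpa [bn, bernsteinPolynomial, Polynomial.eval_finsetSum] using
    congrArg (Polynomial.eval t) (bernsteinPolynomial.sum ℝ N)

theorem bn_var (N : ℕ) (t : ℝ) :
    ∑ j ∈ range (N + 1), (N * t - j) ^ 2 * bn N j t = N * t * (1 - t) := by
  simpa [bn, bernsteinPolynomial, Polynomial.eval_finsetSum] using
    congrArg (Polynomial.eval t) (bernsteinPolynomial.variance ℝ N)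

theorem bn_abs {N : ℕ} (hN : 0 < N) {t : ℝ} (ht : t ∈ Set.Icc (0 : ℝ) 1) :
    ∑ j ∈ range (N + 1), |(j : ℝ) / N - t| * bn N j t ≤ (√N)⁻¹ := by
  have h0 : (0 : ℝ) < N := by positivity
  have h1 : 0 < √(N : ℝ) := Real.sqrt_pos.2 h0
  have h2 : √(N : ℝ) * √N = N := Real.mul_self_sqrt h0.le
  have h3 : ∀ j ∈ range (N + 1), |(j : ℝ) / N - t| * bn N j t ≤
      (√N)⁻¹ / 2 * bn N j t + (√N)⁻¹ / 2 / N * ((N * t - j) ^ 2 * bn N j t) := fun j _ => by
    rw [← mul_assoc, ← add_mul]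
    refine mul_le_mul_of_nonneg_right ?_ (bn_nonneg N j ht)
    have h4 : |(j : ℝ) / N - t| = |N * t - j| / N := by
      rw [abs_sub_comm, eq_div_iff h0.ne', ← abs_of_pos h0, ← abs_mul, abs_of_pos h0]
      congr 1; field_simp
    rw [h4, ← sq_abs (N * t - j)]
    generalize |N * t - j| = u
    generalize √(N : ℝ) = w at h1 h2
    rw [← h2, ← sub_nonneg]
    have : w⁻¹ / 2 + w⁻¹ / 2 / (w * w) * u ^ 2 - u / (w * w) = (w - u) ^ 2 / (2 * w ^ 3) := by
      field_simp; ring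
    rw [this]; positivity
  refine (sum_le_sum h3).trans ?_
  rw [sum_add_distrib, ← mul_sum, ← mul_sum, bn_sum, bn_var]
  have h4 : (√N)⁻¹ / 2 / N * (N * t * (1 - t)) = (√(N : ℝ))⁻¹ / 2 * (t * (1 - t)) := by
    field_simp
  have h5 : t * (1 - t) ≤ 1 := by nlinarith [ht.1, ht.2]
  have h6 : 0 < (√(N : ℝ))⁻¹ / 2 := by positivity
  rw [h4]
  nlinarith

theorem spec_mem (he : ‖1 - (2 : ℝ) • e‖ ≤ 1) {t : ℝ} (ht : t ∈ spectrum ℝ e) :
    t ∈ Set.Icc (0 : ℝ) 1 := by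
  rcases subsingleton_or_nontrivial C with h | h
  · simp [spectrum.of_subsingleton] at ht
  have h1 : 1 - 2 * t ∈ spectrum ℝ (1 - (2 : ℝ) • e) := by
    rw [spectrum.mem_iff] at ht ⊢
    intro h
    refine ht ?_
    have h2 : algebraMap ℝ C t - e =
        algebraMap ℝ C (-2⁻¹) * (algebraMap ℝ C (1 - 2 * t) - (1 - (2 : ℝ) • e)) := by
      simp only [Algebra.algebraMap_eq_smul_one, smul_mul_assoc, one_mul]; module
    rw [h2]
    exact ((IsUnit.mk0 (-2⁻¹ : ℝ) (by norm_num)).map _).mul h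
  have h2 := abs_le.1 ((spectrum.norm_le_norm_of_mem h1).trans he)
  constructor <;> linarith [h2.1, h2.2]

theorem cfc_bn_sum (he : IsSelfAdjoint e) (N : ℕ) : ∑ j ∈ range (N + 1), cfc (bn N j) e = 1 := by
  rw [← cfc_sum _ _ _ fun j _ => (bn_cont N j).continuousOn, ← cfc_const_one ℝ e]
  exact cfc_congr fun t _ => by simpa using bn_sum N t

theorem norm_double (he : IsSelfAdjoint e) (he' : ‖1 - (2 : ℝ) • e‖ ≤ 1) {N M : ℕ} (hN : 0 < N)
    (hM : 0 < M) (a : ℕ → ℕ → C) (hc : ∀ j l, Commute e (a j l)) {K : ℝ} (hK : 0 ≤ K)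
    (ha : ∀ j ≤ N, ∀ l ≤ M, ‖a j l‖ ≤ K * |(j : ℝ) / N - l / M|) :
    ‖∑ j ∈ range (N + 1), ∑ l ∈ range (M + 1), cfc (bn N j) e * cfc (bn M l) e * a j l‖ ≤
      2 * (K * ((√N)⁻¹ + (√M)⁻¹)) := by
  rw [← sum_product']
  simp only [← cfc_mul _ _ e (bn_cont _ _).continuousOn (bn_cont _ _).continuousOn]
  refine norm_sum_cfc _ he (fun p : ℕ × ℕ => fun t => bn N p.1 t * bn M p.2 t)
    (fun p => (bn_cont _ _).mul (bn_cont _ _)) (fun p t ht => mul_nonneg
      (bn_nonneg _ _ (spec_mem he' ht)) (bn_nonneg _ _ (spec_mem he' ht))) _ (fun p => hc _ _)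
    (fun p => K * |(p.1 : ℝ) / N - p.2 / M|) (fun p hp => ha _
      (Nat.lt_succ_iff.1 (mem_range.1 (mem_product.1 hp).1)) _
      (Nat.lt_succ_iff.1 (mem_range.1 (mem_product.1 hp).2))) (by positivity) fun t ht => ?_
  have ht' := spec_mem he' ht
  calc _ ≤ ∑ p ∈ range (N + 1) ×ˢ range (M + 1), K * (|(p.1 : ℝ) / N - t| * bn N p.1 t * bn M p.2 t
        + bn N p.1 t * (|(p.2 : ℝ) / M - t| * bn M p.2 t)) := sum_le_sum fun p _ => by
        have h1 := abs_sub_le ((p.1 : ℝ) / N) t (p.2 / M)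
        rw [abs_sub_comm t] at h1
        have h2 := mul_le_mul_of_nonneg_right h1
          (mul_nonneg (bn_nonneg N p.1 ht') (bn_nonneg M p.2 ht'))
        rw [mul_assoc]
        exact mul_le_mul_of_nonneg_left (by linarith) hK
    _ ≤ _ := by
        rw [← mul_sum, sum_add_distrib, sum_product, sum_product]
        dsimp only
        rw [← sum_mul_sum, ← sum_mul_sum, bn_sum, bn_sum, mul_one, one_mul]
        exact mul_le_mul_of_nonneg_left (add_le_add (bn_abs hN ht') (bn_abs hM ht')) hK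

end Pool.Agent.MP_56ff7a_an.H20

end

-- part MP_56ff7a_an.H20.Lift
section

/-!
Asymptotic homotopy lifting, and extension of representations to the generated C*-algebra.
-/

namespace Pool.Agent.MP_56ff7a_an.H20

open Filter Topology Finset

theorem node_mem {N j : ℕ} (h : j ≤ N) : (j : ℚ) / N ∈ Set.Icc (0 : ℚ) 1 :=
  ⟨by positivity, div_le_one_of_le₀ (by exact_mod_cast h) (by positivity)⟩

theorem norm_unit_le {B G : Type} [CStarAlgebra B] [Group G] (U : G →* B)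
    (hs : ∀ g, star (U g) = U g⁻¹) (g : G) : ‖U g‖ ≤ 1 := by
  have h1 := CStarRing.norm_star_mul_self (x := U g)
  rw [hs, ← map_mul, inv_mul_cancel, map_one] at h1
  nlinarith [norm_one_le' (B := B), norm_nonneg (U g)]

theorem tendsto_sqrt_inv : Tendsto (fun N : ℕ => (√((N + 1 : ℕ) : ℝ))⁻¹) atTop (𝓝 0) :=
  tendsto_inv_atTop_zero.comp (Real.tendsto_sqrt_atTop.comp
    (tendsto_natCast_atTop_atTop.comp (tendsto_add_atTop_nat 1)))

theorem cfc_bn_lt {C : Type} [CStarAlgebra C] {e : C} (he : IsSelfAdjoint e) {N j : ℕ}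
    (hj : j < N + 1) : ∃ y, cfc (bn (N + 1) j) e = (1 - e) * y := by
  refine ⟨cfc (fun t : ℝ => ((N + 1).choose j : ℝ) * t ^ j * (1 - t) ^ (N - j)) e, ?_⟩
  have : 1 - e = cfc (fun t : ℝ => 1 - t) e := by
    rw [cfc_sub _ _ _, cfc_id' ℝ e, cfc_const_one ℝ e]
  rw [this, ← cfc_mul _ _ _]
  refine cfc_congr fun t _ => ?_
  rw [bn, Nat.succ_sub (Nat.lt_succ_iff.1 hj), pow_succ]
  ring

theorem cfc_bn_succ {C : Type} [CStarAlgebra C] {e : C} (he : IsSelfAdjoint e) (N j : ℕ) :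
    ∃ y, cfc (bn N (j + 1)) e = e * y := by
  refine ⟨cfc (fun t : ℝ => (N.choose (j + 1) : ℝ) * t ^ j * (1 - t) ^ (N - (j + 1))) e, ?_⟩
  nth_rewrite 2 [← cfc_id' ℝ e]
  rw [← cfc_mul _ _ _]
  refine cfc_congr fun t _ => ?_
  rw [bn, pow_succ]
  ring

theorem homotopy_lift {B D G : Type} [CStarAlgebra B] [CStarAlgebra D] [Nontrivial B]
    [TopologicalSpace.SeparableSpace B] [Group G] (q : B →⋆ₐ[ℂ] D) (U : ℚ → G →* B)
    (hs : ∀ t g, star (U t g) = U t g⁻¹) {K : ℝ} (hK : 0 ≤ K)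
    (hU : ∀ s ∈ Set.Icc (0 : ℚ) 1, ∀ t ∈ Set.Icc (0 : ℚ) 1, ∀ g,
      ‖U s g - U t g‖ ≤ K * |(s : ℝ) - t|) :
    ∃ V : G →* Cor B, (∀ g, star (V g) = V g⁻¹) ∧
      (∀ (f : G →₀ ℂ) (r : ℝ), ‖f.sum fun g c => c • U 1 g‖ ≤ r →
        (∀ t, ‖f.sum fun g c => c • q (U t g)‖ ≤ r) → ‖f.sum fun g c => c • V g‖ ≤ 2 * r) ∧
      ∀ g (x : Sq B), mk B x = V g → Tendsto (fun n => ‖q (x n) - q (U 0 g)‖) atTop (𝓝 0) := by
  obtain ⟨E, e0, e1, e2, e3, e4⟩ := exists_central q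
  set e := mk B E
  have hd : ∀ b : B, ‖(dg b : Cor B)‖ ≤ ‖b‖ := NonUnitalStarAlgHom.norm_apply_le dg
  have hc : ∀ (f : ℝ → ℝ) (b : B), Commute (cfc f e) (dg b) := fun f b => e1.commute_cfc (e3 b) f
  let Φ : ℕ → G → Cor B := fun N g =>
    ∑ j ∈ range (N + 1 + 1), cfc (bn (N + 1) j) e * dg (U ((j : ℚ) / (N + 1 : ℕ)) g)
  have hL : ∀ (N M : ℕ) g, ∀ j ≤ N, ∀ l ≤ M, ‖U ((j : ℚ) / N) g - U ((l : ℚ) / M) g‖ ≤
      K * |(j : ℝ) / N - l / M| := fun N M g j hj l hl => by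
    simpa using hU _ (node_mem hj) _ (node_mem hl) g
  have h1 : ∀ g, CauchySeq fun N => Φ N g := fun g => by
    refine cauchySeq_of_le_tendsto_0' (fun N => 2 * (K * ((√((N + 1 : ℕ) : ℝ))⁻¹ +
      (√((N + 1 : ℕ) : ℝ))⁻¹))) (fun N M h => ?_) (by
        simpa using ((tendsto_sqrt_inv.add tendsto_sqrt_inv).const_mul K).const_mul 2)
    have h2 := norm_double e1 e2 N.succ_pos M.succ_pos
      (fun j l => dg (U ((j : ℚ) / (N + 1 : ℕ)) g - U ((l : ℚ) / (M + 1 : ℕ)) g))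
      (fun _ _ => e3 _) hK fun j hj l hl => (hd _).trans (hL _ _ g j hj l hl)
    have h3 : Φ N g - Φ M g = ∑ j ∈ range (N + 1 + 1), ∑ l ∈ range (M + 1 + 1),
        cfc (bn (N + 1) j) e * cfc (bn (M + 1) l) e *
          dg (U ((j : ℚ) / (N + 1 : ℕ)) g - U ((l : ℚ) / (M + 1 : ℕ)) g) := by
      simp only [map_sub, mul_sub, sum_sub_distrib]
      congr 1
      · refine sum_congr rfl fun j _ => ?_
        rw [← sum_mul, ← mul_sum, cfc_bn_sum e1, mul_one]
      · rw [sum_comm]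
        refine sum_congr rfl fun j _ => ?_
        rw [← sum_mul, ← sum_mul, cfc_bn_sum e1, one_mul]
    rw [dist_eq_norm, h3]
    refine h2.trans ?_
    gcongr
    omega
  choose V hV using fun g => cauchySeq_tendsto_of_complete (h1 g)
  have h2 : ∀ g h, V (g * h) = V g * V h := fun g h => by
    refine (sub_eq_zero.1 (tendsto_nhds_unique (((hV g).mul (hV h)).sub (hV (g * h)))
      (squeeze_zero_norm (fun N => ?_) (by
        simpa using ((tendsto_sqrt_inv.add tendsto_sqrt_inv).const_mul K).const_mul 2)))).symm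
    have h2 := norm_double e1 e2 N.succ_pos N.succ_pos
      (fun j l => dg (U ((j : ℚ) / (N + 1 : ℕ)) g *
        (U ((l : ℚ) / (N + 1 : ℕ)) h - U ((j : ℚ) / (N + 1 : ℕ)) h)))
      (fun _ _ => e3 _) hK fun j hj l hl => (hd _).trans ((norm_mul_le _ _).trans (by
        rw [abs_sub_comm]
        exact (mul_le_of_le_one_left (norm_nonneg _) (norm_unit_le _ (hs _) g)).trans
          (hL _ _ h l hl j hj)))
    have h3 : Φ N g * Φ N h - Φ N (g * h) = ∑ j ∈ range (N + 1 + 1), ∑ l ∈ range (N + 1 + 1),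
        cfc (bn (N + 1) j) e * cfc (bn (N + 1) l) e * dg (U ((j : ℚ) / (N + 1 : ℕ)) g *
          (U ((l : ℚ) / (N + 1 : ℕ)) h - U ((j : ℚ) / (N + 1 : ℕ)) h)) := by
      simp only [map_sub, mul_sub, sum_sub_distrib, map_mul]
      congr 1
      · rw [sum_mul_sum]
        refine sum_congr rfl fun j _ => sum_congr rfl fun l _ => ?_
        rw [mul_assoc, mul_assoc, ← mul_assoc (dg _), ← (hc _ _).eq, mul_assoc]
      · refine sum_congr rfl fun j _ => ?_
        rw [← sum_mul, ← mul_sum, cfc_bn_sum e1, mul_one, map_mul, map_mul]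
    rw [h3]
    simpa using h2
  have h3 : V 1 = 1 := tendsto_nhds_unique (hV 1) (by
    simp only [Φ, map_one, mul_one, cfc_bn_sum e1]; exact tendsto_const_nhds)
  refine ⟨⟨⟨V, h3⟩, h2⟩, fun g => ?_, fun f r f1 f2 => ?_, fun g x hx => ?_⟩
  · refine tendsto_nhds_unique (hV g).star ((hV g⁻¹).congr fun N => ?_)
    simp only [Φ, star_sum, star_mul, ← map_star, hs]
    exact sum_congr rfl fun j _ => by rw [(cfc_predicate (bn _ j) e).star_eq, (hc _ _).eq]
  · have h4 : Tendsto (fun N => ‖f.sum fun g c => c • Φ N g‖) atTop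
        (𝓝 ‖f.sum fun g c => c • V g‖) :=
      (tendsto_finsetSum _ fun g _ => (hV g).const_smul _).norm
    refine le_of_tendsto' h4 fun N => le_of_forall_pos_le_add fun ε hε => ?_
    have h5 : ∀ j, ∃ b : B, j ∈ range (N + 1 + 1) → ‖b‖ ≤ r + ε / 2 ∧ cfc (bn (N + 1) j) e *
        dg (f.sum fun g c => c • U ((j : ℚ) / (N + 1 : ℕ)) g) = cfc (bn (N + 1) j) e * dg b := by
      intro j
      by_cases hj : j < N + 1
      · obtain ⟨i, i1, i2⟩ := exists_near q
          (f.sum fun g c => c • U ((j : ℚ) / (N + 1 : ℕ)) g) (half_pos hε)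
        refine ⟨_, fun _ => ⟨i2.trans ?_, ?_⟩⟩
        · simpa [Finsupp.sum] using f2 ((j : ℚ) / (N + 1 : ℕ))
        · obtain ⟨y, h6⟩ := cfc_bn_lt e1 hj
          rw [map_sub, mul_sub, (hc _ i).eq, h6, ← mul_assoc (dg i), e4 i i1, zero_mul, sub_zero]
      · refine ⟨_, fun h => ⟨?_, rfl⟩⟩
        obtain rfl : j = N + 1 := by rw [mem_range] at h; omega
        rw [div_self (by positivity)]
        linarith
    choose b hb using h5
    have h6 : (f.sum fun g c => c • Φ N g) =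
        ∑ j ∈ range (N + 1 + 1), cfc (bn (N + 1) j) e * dg (b j) := by
      rw [← sum_congr rfl fun j hj => (hb j hj).2]
      simp only [Finsupp.sum, Φ, smul_sum, map_sum, map_smul, mul_sum, mul_smul_comm]
      exact sum_comm
    have h7 : 0 ≤ r + ε / 2 := (norm_nonneg _).trans (hb 0 (by simp)).1
    rw [h6]
    refine (norm_sum_cfc _ e1 _ (bn_cont _) (fun j t ht => bn_nonneg _ _ (spec_mem e2 ht)) _
      (fun j => e3 _) (fun _ => r + ε / 2) (fun j hj => (hd _).trans (hb j hj).1) h7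
      fun t _ => ?_).trans (by linarith)
    rw [← mul_sum, bn_sum, mul_one]
  · have h4 : ∀ N, ∃ y, Φ N g - dg (U 0 g) = e * y := fun N => by
      choose y hy using cfc_bn_succ e1 (N + 1)
      refine ⟨∑ j ∈ range (N + 1), y j * dg (U (((j + 1 : ℕ) : ℚ) / (N + 1 : ℕ)) g - U 0 g), ?_⟩
      rw [← one_mul (dg (U 0 g)), ← cfc_bn_sum e1 (N + 1), sum_mul, ← sum_sub_distrib,
        sum_range_succ', mul_sum]
      simp only [Nat.cast_zero, zero_div, sub_self, add_zero, ← mul_sub, ← map_sub]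
      exact sum_congr rfl fun j _ => by rw [hy, mul_assoc]
    refine Metric.tendsto_nhds.2 fun ε hε => ?_
    obtain ⟨N, hN⟩ := (Metric.tendsto_nhds.1 (hV g) ε hε).exists
    obtain ⟨y, hy⟩ := h4 N
    obtain ⟨y, rfl⟩ := mk_surj y
    have h5 : ‖mk B (x - cst (U 0 g) - E * y)‖ < ε := by
      rw [map_sub, map_sub, map_mul, ← hy, hx]
      rw [dist_comm, dist_eq_norm, ← sub_sub_sub_cancel_right _ _ (dg (U 0 g))] at hN
      exact hN
    filter_upwards [ev_le _ h5] with n hn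
    have h6 := NonUnitalStarAlgHom.norm_apply_le q (x n - U 0 g - E n * y n)
    rw [map_sub, map_sub, map_mul, e0, zero_mul, sub_zero] at h6
    simpa using h6.trans_lt hn

theorem adjoin_le_span {A : Type} [CStarAlgebra A] {s : Set A} (h1 : 1 ∈ s)
    (h2 : ∀ x ∈ s, ∀ y ∈ s, x * y ∈ s) (h3 : ∀ x ∈ s, star x ∈ s) {x : A}
    (hx : x ∈ StarAlgebra.adjoin ℂ s) : x ∈ Submodule.span ℂ s := by
  induction hx using StarAlgebra.adjoin_induction with
  | mem x hx => exact Submodule.subset_span hx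
  | algebraMap r =>
    rw [Algebra.algebraMap_eq_smul_one]
    exact Submodule.smul_mem _ _ (Submodule.subset_span h1)
  | add x y _ _ hx hy => exact add_mem hx hy
  | mul x y _ _ hx hy =>
    have := Submodule.mul_mem_mul hx hy
    rw [Submodule.span_mul_span] at this
    exact Submodule.span_mono (by rintro _ ⟨a, ha, b, hb, rfl⟩; exact h2 a ha b hb) this
  | star x _ hx =>
    refine Submodule.span_induction (p := fun y _ => star y ∈ Submodule.span ℂ s)
      (fun y hy => Submodule.subset_span (h3 y hy)) (by simp) (fun a b _ _ ha hb => ?_)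
      (fun c a _ ha => ?_) hx
    · rw [star_add]; exact add_mem ha hb
    · rw [star_smul]; exact Submodule.smul_mem _ _ ha

instance {C : Type} [CStarAlgebra C] (s : Set C) : IsClosed (generatedCStar s : Set C) :=
  StarSubalgebra.isClosed_topologicalClosure _

theorem exists_ext {G A Q : Type} [Group G] [CStarAlgebra A] [CStarAlgebra Q] (l : G →* A)
    (V : G →* Q) (hl : ∀ g, star (l g) = l g⁻¹) (hV : ∀ g, star (V g) = V g⁻¹) {K : ℝ}
    (h : ∀ f : G →₀ ℂ, ‖f.sum fun g c => c • V g‖ ≤ K * ‖f.sum fun g c => c • l g‖) :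
    ∃ φ : generatedCStar (Set.range l) →⋆ₙₐ[ℂ] Q,
      ∀ g (x : generatedCStar (Set.range l)), x.1 = l g → φ x = V g := by
  let Γ := generatedCStar (Set.range (l.prod V))
  have h1 : ∀ x ∈ Γ, ‖x.2‖ ≤ K * ‖x.1‖ := fun x hx => by
    refine closure_minimal (t := {x : A × Q | ‖x.2‖ ≤ K * ‖x.1‖}) (fun y hy => ?_)
      (isClosed_le (by fun_prop) (by fun_prop)) hx
    obtain ⟨f, rfl⟩ := Finsupp.mem_span_range_iff_exists_finsupp.1 (adjoin_le_span
      (s := Set.range (l.prod V)) ⟨1, map_one _⟩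
      (by rintro _ ⟨a, rfl⟩ _ ⟨b, rfl⟩; exact ⟨a * b, map_mul _ _ _⟩)
      (by rintro _ ⟨a, rfl⟩; exact ⟨a⁻¹, Prod.ext (hl a).symm (hV a).symm⟩) hy)
    simpa [Finsupp.sum, Prod.fst_sum, Prod.snd_sum] using h f
  let p : Γ →⋆ₐ[ℂ] A := (StarAlgHom.fst ℂ A Q).comp Γ.subtype
  have h2 : Function.Injective p := (injective_iff_map_eq_zero p).2 fun x hx => by
    have h3 := h1 x x.2
    have h4 : x.1.1 = 0 := hx
    rw [h4, norm_zero, mul_zero, norm_le_zero_iff] at h3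
    exact Subtype.ext (Prod.ext h4 h3)
  have h3 : IsClosed (Set.range p) :=
    (NonUnitalStarAlgHom.isometry p h2).isClosedEmbedding.isClosed_range
  have h4 : generatedCStar (Set.range l) ≤ p.range :=
    StarSubalgebra.topologicalClosure_minimal (StarAlgebra.adjoin_le (by
      rintro _ ⟨g, rfl⟩
      exact ⟨⟨(l g, V g), StarSubalgebra.le_topologicalClosure _
        (StarAlgebra.subset_adjoin _ _ ⟨g, rfl⟩)⟩, rfl⟩)) h3
  let E := StarAlgEquiv.ofInjective p h2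
  refine ⟨(((StarAlgHom.snd ℂ A Q).comp Γ.subtype).comp ((E.symm : p.range →⋆ₐ[ℂ] Γ).comp
    (StarSubalgebra.inclusion h4))).toNonUnitalStarAlgHom, fun g x hx => ?_⟩
  have h5 : E.symm ⟨x.1, h4 x.2⟩ = ⟨(l g, V g), StarSubalgebra.le_topologicalClosure _
      (StarAlgebra.subset_adjoin _ _ ⟨g, rfl⟩)⟩ := E.symm_apply_eq.2 (Subtype.ext hx)
  exact congrArg (fun y : Γ => y.1.2) h5

end Pool.Agent.MP_56ff7a_an.H20

end

-- part MP_56ff7a_an.H20.Free
section

/-!
Word combinatorics in the free group on two generators.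
-/

namespace Pool.Agent.MP_56ff7a_an.H20

open Filter Finset

/-- The free group on two generators. -/
abbrev F : Type := FreeGroup (Fin 2)

/-- Letters. -/
def lt (x : Fin 2 × Bool) : F := FreeGroup.mk [x]

theorem lt_inv (x : Fin 2 × Bool) : (lt x)⁻¹ = lt (x.1, !x.2) := rfl

theorem norm_lt (x : Fin 2 × Bool) : (lt x).norm = 1 := rfl

theorem lt_ne (x : Fin 2 × Bool) : lt x ≠ 1 := fun h => by simpa [h] using norm_lt x

theorem toWord_lt (x : Fin 2 × Bool) (h : F) :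
    (lt x * h).toWord = FreeGroup.reduce (x :: h.toWord) := by
  conv_lhs => rw [← FreeGroup.mk_toWord (x := h), lt, FreeGroup.mul_mk, FreeGroup.toWord_mk]
  rfl

theorem norm_le_lt (x : Fin 2 × Bool) (h : F) : h.norm ≤ (lt x * h).norm + 1 := by
  have := FreeGroup.norm_mul_le (lt x)⁻¹ (lt x * h)
  rw [inv_mul_cancel_left, FreeGroup.norm_inv_eq, norm_lt] at this
  omega

theorem exists_bad (h : F) : ∃ y : Fin 2 × Bool, (∀ x ≠ y, (lt x * h).norm = h.norm + 1) ∧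
    (h ≠ 1 → (lt y * h).norm + 1 = h.norm) := by
  simp only [FreeGroup.norm, toWord_lt, FreeGroup.reduce.cons, FreeGroup.reduce_toWord,
    ne_eq, ← FreeGroup.toWord_eq_nil_iff]
  rcases h.toWord with _ | ⟨y, L⟩
  · simp
  · refine ⟨(y.1, !y.2), fun x hx => ?_, by simp⟩
    have : ¬(x.1 = y.1 ∧ x.2 = !y.2) := fun h => hx (Prod.ext h.1 h.2)
    simp [this]

theorem F_ind {p : F → Prop} (h1 : p 1)
    (hs : ∀ x h, (lt x * h).norm = h.norm + 1 → p h → p (lt x * h)) (h : F) : p h := by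
  induction hn : h.norm generalizing h with
  | zero => rwa [FreeGroup.norm_eq_zero.1 hn]
  | succ n ih =>
    obtain ⟨y, -, hy⟩ := exists_bad h
    have h2 := hy (fun h3 => by simp [h3] at hn)
    have h3 := hs (y.1, !y.2) (lt y * h)
    rw [← lt_inv, inv_mul_cancel_left] at h3
    exact h3 h2.symm (ih _ (by omega))

/-- The weight `2 ^ (-|h|)`. -/
noncomputable def wt (h : F) : ℝ := (1 / 2) ^ h.norm

theorem wt_pos (h : F) : 0 < wt h := by unfold wt; positivity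

theorem sum_wt (h : F) : ∑ x, wt (lt x * h) ≤ 7 / 2 * wt h := by
  obtain ⟨y, hy, -⟩ := exists_bad h
  rw [← add_sum_erase _ _ (mem_univ y), sum_congr rfl fun x hx => show wt (lt x * h) = wt h / 2 by
    rw [wt, hy x (ne_of_mem_erase hx), pow_succ, wt]; ring]
  have h1 : wt h ≥ (1 / 2) ^ ((lt y * h).norm + 1) → wt (lt y * h) ≤ 2 * wt h := fun h => by
    rw [pow_succ] at h; rw [wt]; linarith
  have h2 := h1 (pow_le_pow_of_le_one (by norm_num) (by norm_num) (norm_le_lt y h))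
  simp only [sum_const, card_erase_of_mem (mem_univ y), card_univ, Fintype.card_prod,
    Fintype.card_fin, Fintype.card_bool, nsmul_eq_mul]
  norm_num
  linarith

/-- Inversion of letters. -/
def fl : Fin 2 × Bool ≃ Fin 2 × Bool := (Equiv.refl _).prodCongr Equiv.boolNot

theorem sum_lt_inv {M : Type*} [AddCommMonoid M] (φ : F → M) :
    ∑ x, φ (lt x)⁻¹ = ∑ x, φ (lt x) := fl.sum_comp fun x => φ (lt x)

theorem exists_words (n : ℕ) : ∃ (W : Type) (_ : Fintype W) (v : W → F),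
    (∀ k, ∑ w, wt (v w * k) ≤ (7 / 2) ^ n * wt k) ∧
    (∀ k, ∑ w, wt ((v w)⁻¹ * k) ≤ (7 / 2) ^ n * wt k) ∧
    ∀ (A : Type) [Ring A] (π : F → A), (∀ g h, π (g * h) = π g * π h) →
      ∑ w, π (v w) = (∑ x, π (lt x)) ^ n * π 1 := by
  induction n with
  | zero => exact ⟨Unit, inferInstance, fun _ => 1, by simp, by simp, by simp⟩
  | succ n ih =>
    obtain ⟨W, _, v, h1, h2, h3⟩ := ih
    refine ⟨(Fin 2 × Bool) × W, inferInstance, fun p => lt p.1 * v p.2, fun k => ?_, fun k => ?_,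
      fun A _ π hπ => ?_⟩
    · rw [Fintype.sum_prod_type_right, pow_succ', mul_assoc]
      refine le_trans (sum_le_sum fun w _ => ?_)
        ((mul_sum _ _ _).ge.trans (mul_le_mul_of_nonneg_left (h1 k) (by norm_num)))
      simpa only [mul_assoc] using sum_wt (v w * k)
    · rw [Fintype.sum_prod_type, pow_succ, mul_assoc]
      refine le_trans (sum_le_sum fun x _ => ?_) ((mul_sum _ _ _).ge.trans
        (mul_le_mul_of_nonneg_left ((sum_lt_inv fun g => wt (g * k)).trans_le (sum_wt k))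
          (by positivity)))
      simpa only [mul_inv_rev, mul_assoc] using h2 ((lt x)⁻¹ * k)
    · rw [Fintype.sum_prod_type, pow_succ', mul_assoc, ← h3 A π hπ, sum_mul_sum]
      simp only [hπ]

instance (k : ℕ) : Finite {h : F // h.norm ≤ k} :=
  ((List.finite_length_le (Fin 2 × Bool) k).preimage
    (f := FreeGroup.toWord) FreeGroup.toWord_injective.injOn).to_subtype

theorem exists_fin (k : ℕ) : ∃ p : F →* Equiv.Perm F, Finite p.range ∧
    ∀ h : F, h.norm ≤ k → p h 1 = h := by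
  classical
  have h1 : ∀ i : Fin 2, ∃ σ : Equiv.Perm {h : F // h.norm ≤ k}, ∀ (u : F) h1 h2,
      σ ⟨u, h1⟩ = ⟨lt (i, true) * u, h2⟩ := fun i => by
    have : Finite {h : F // h.norm ≤ k ∧ (lt (i, true) * h).norm ≤ k} :=
      Finite.of_injective (fun h => (⟨h.1, h.2.1⟩ : {h : F // h.norm ≤ k}))
        fun a b h => Subtype.ext (Subtype.mk.inj h)
    obtain ⟨σ, hσ⟩ := Equiv.Perm.exists_extending_pair
      (α := {h : F // h.norm ≤ k ∧ (lt (i, true) * h).norm ≤ k})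
      (f := fun h => (⟨h.1, h.2.1⟩ : {h : F // h.norm ≤ k}))
      (g := fun h => ⟨lt (i, true) * h.1, h.2.2⟩)
      (fun a b h => Subtype.ext (Subtype.mk.inj h))
      (fun a b h => Subtype.ext (mul_left_cancel (Subtype.mk.inj h)))
    exact ⟨σ, fun u h1 h2 => hσ ⟨u, h1, h2⟩⟩
  choose σ hσ using h1
  refine ⟨Equiv.Perm.ofSubtype.comp (FreeGroup.lift σ), ?_, fun h => ?_⟩
  · exact ((Set.finite_range Equiv.Perm.ofSubtype).subset
      (by rintro _ ⟨h, rfl⟩; exact ⟨_, rfl⟩)).to_subtype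
  · induction h using F_ind with
    | h1 => simp
    | hs x h e ih =>
      intro hk
      have h2 : h.norm ≤ k := by omega
      rw [map_mul, Equiv.Perm.mul_apply, ih h2, MonoidHom.comp_apply,
        Equiv.Perm.ofSubtype_apply_of_mem (p := fun h : F => h.norm ≤ k) _ h2]
      obtain ⟨i, _ | _⟩ := x
      · have h3 : lt (i, false) = (FreeGroup.of i)⁻¹ := rfl
        rw [h3, map_inv, FreeGroup.lift_apply_of]
        have h4 : lt (i, true) * (lt (i, false) * h) = h := mul_inv_cancel_left (lt (i, true)) h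
        have h5 := hσ i _ hk (h4.symm ▸ h2)
        simp only [h4] at h5
        rw [← h5]; simp [h3]
      · have h3 : lt (i, true) = FreeGroup.of i := rfl
        rw [h3, FreeGroup.lift_apply_of, hσ i h h2 hk]
        rfl

end Pool.Agent.MP_56ff7a_an.H20

end

-- part MP_56ff7a_an.H20.Rot
section

/-!
The Pytlik-Szwarc family of unitary representations of the free group is uniformly Lipschitz.
-/

namespace Pool.Agent.MP_56ff7a_an.H20

open Finset Real

section Rep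

variable {G K : Type} [Group G] [NormedAddCommGroup K] [InnerProductSpace ℂ K]
  (U : G →* (K →L[ℂ] K)) (h : ∀ g, ‖U g‖ ≤ 1)
include h

theorem norm_rep (g : G) (ξ : K) : ‖U g ξ‖ = ‖ξ‖ := by
  have h1 : ∀ g ξ, ‖U g ξ‖ ≤ ‖ξ‖ := fun g ξ =>
    ((U g).le_opNorm ξ).trans (mul_le_of_le_one_left (norm_nonneg _) (h g))
  refine (h1 g ξ).antisymm ?_
  have h2 := h1 g⁻¹ (U g ξ)
  rwa [← ContinuousLinearMap.mul_apply, ← map_mul, inv_mul_cancel, map_one] at h2

theorem star_rep [CompleteSpace K] (g : G) : star (U g) = U g⁻¹ := by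
  have h1 : star (U g) * U g = 1 := (U g).norm_map_iff_adjoint_comp_self.1 (norm_rep U h g)
  rw [← mul_one (star (U g)), ← map_one U, ← mul_inv_cancel g, map_mul, ← mul_assoc, h1, one_mul]

end Rep

theorem norm_lam {G : Type} [Group G] (g : G) (ξ : L2 G) : ‖lam G g ξ‖ = ‖ξ‖ :=
  norm_rep _ (norm_unit_le _ star_lam) g ξ

theorem norm_add_single {I : Type} [DecidableEq I] (v : L2 I) (i : I) (a : ℂ) :
    ‖v + lp.single 2 i a‖ ^ 2 = ‖v‖ ^ 2 - ‖v i‖ ^ 2 + ‖v i + a‖ ^ 2 := by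
  rw [norm_add_sq (𝕜 := ℂ), norm_add_sq (𝕜 := ℂ), lp.inner_single_right,
    lp.norm_single (by norm_num)]
  ring

theorem norm_add_two {I : Type} [DecidableEq I] (v : L2 I) {i j : I} (h : j ≠ i) (a b : ℂ) :
    ‖v + lp.single 2 i a + lp.single 2 j b‖ ^ 2 =
      ‖v‖ ^ 2 - ‖v i‖ ^ 2 - ‖v j‖ ^ 2 + ‖v i + a‖ ^ 2 + ‖v j + b‖ ^ 2 := by
  have : (v + lp.single 2 i a : L2 I) j = v j := by simp [h]
  rw [norm_add_single, norm_add_single, this]
  ring

/-- Evaluation. -/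
noncomputable def ev (u : F) : L2 F →L[ℂ] ℂ := lp.evalCLM ℂ (fun _ : F => ℂ) 2 u

/-- Translation followed by a rotation in the plane of two point masses. -/
noncomputable def rot (θ : ℝ) (s : F) : BL2 F :=
  lam F s + (lp.singleContinuousLinearMap ℂ (fun _ : F => ℂ) 2 1).comp
    (((cos θ : ℂ) - 1) • ev s⁻¹ + (sin θ : ℂ) • ev 1) +
    (lp.singleContinuousLinearMap ℂ (fun _ : F => ℂ) 2 s).comp
      (((cos θ : ℂ) - 1) • ev 1 - (sin θ : ℂ) • ev s⁻¹)

theorem rot_eq (θ : ℝ) (s : F) (ξ : L2 F) : rot θ s ξ = lam F s ξ +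
    lp.single 2 1 (((cos θ : ℂ) - 1) * ξ s⁻¹ + (sin θ : ℂ) * ξ 1) +
    lp.single 2 s (((cos θ : ℂ) - 1) * ξ 1 - (sin θ : ℂ) * ξ s⁻¹) := rfl

theorem rot_one (θ : ℝ) {s : F} (hs : s ≠ 1) (ξ : L2 F) :
    rot θ s ξ 1 = cos θ * ξ s⁻¹ + sin θ * ξ 1 := by
  simp only [rot_eq, lp.coeFn_add, Pi.add_apply, lam_apply, lp.single_apply_self,
    lp.single_apply_ne _ _ _ hs.symm, mul_one]
  ring

theorem rot_self (θ : ℝ) {s : F} (hs : s ≠ 1) (ξ : L2 F) :
    rot θ s ξ s = cos θ * ξ 1 - sin θ * ξ s⁻¹ := by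
  simp only [rot_eq, lp.coeFn_add, Pi.add_apply, lam_apply, lp.single_apply_self,
    lp.single_apply_ne _ _ _ hs, inv_mul_cancel]
  ring

theorem rot_ne (θ : ℝ) {s u : F} (h1 : u ≠ 1) (h2 : u ≠ s) (ξ : L2 F) :
    rot θ s ξ u = ξ (s⁻¹ * u) := by
  simp only [rot_eq, lp.coeFn_add, Pi.add_apply, lam_apply, lp.single_apply_ne _ _ _ h1,
    lp.single_apply_ne _ _ _ h2, add_zero]

theorem cs_sq (θ : ℝ) : (cos θ : ℂ) ^ 2 + (sin θ : ℂ) ^ 2 = 1 := by
  exact_mod_cast cos_sq_add_sin_sq θ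

theorem rot_mul (θ : ℝ) {s : F} (hs : s ≠ 1) : rot θ s * rot θ s⁻¹ = 1 := by
  have hs' := inv_ne_one.2 hs
  ext ξ u
  change rot θ s (rot θ s⁻¹ ξ) u = ξ u
  by_cases h1 : u = 1
  · rw [h1, rot_one θ hs, rot_one θ hs', rot_self θ hs']
    linear_combination ξ 1 * cs_sq θ
  by_cases h2 : u = s
  · rw [h2, rot_self θ hs, rot_one θ hs', rot_self θ hs', inv_inv]
    linear_combination ξ s * cs_sq θ
  rw [rot_ne θ h1 h2, rot_ne θ (fun h => h2 (inv_mul_eq_one.1 h).symm) (by simpa using h1)]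
  simp

theorem norm_rot (θ : ℝ) {s : F} (hs : s ≠ 1) (ξ : L2 F) : ‖rot θ s ξ‖ = ‖ξ‖ := by
  rw [← sq_eq_sq₀ (norm_nonneg _) (norm_nonneg _), rot_eq, norm_add_two _ hs, norm_lam]
  simp only [lam_apply, mul_one, inv_mul_cancel, Complex.sq_norm, Complex.normSq_apply,
    Complex.add_re, Complex.add_im, Complex.mul_re, Complex.mul_im, Complex.sub_re,
    Complex.sub_im, Complex.ofReal_re, Complex.ofReal_im, Complex.one_re, Complex.one_im]
  linear_combination ((ξ 1).re ^ 2 + (ξ 1).im ^ 2 + (ξ s⁻¹).re ^ 2 + (ξ s⁻¹).im ^ 2) *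
    cos_sq_add_sin_sq θ

/-- The deformed representation. -/
noncomputable def sg (θ : ℝ) : F →* BL2 F :=
  (Units.coeHom _).comp (FreeGroup.lift fun i => ⟨rot θ (lt (i, true)), rot θ (lt (i, true))⁻¹,
    rot_mul θ (lt_ne _), by simpa using rot_mul θ (inv_ne_one.2 (lt_ne (i, true)))⟩)

theorem sg_lt (θ : ℝ) (x : Fin 2 × Bool) : sg θ (lt x) = rot θ (lt x) := by
  obtain ⟨i, _ | _⟩ := x
  · change sg θ (FreeGroup.of i)⁻¹ = _
    rw [sg, MonoidHom.comp_apply, map_inv, FreeGroup.lift_apply_of]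
    rfl
  · change sg θ (FreeGroup.of i) = _
    rw [sg, MonoidHom.comp_apply, FreeGroup.lift_apply_of]
    rfl

theorem sg_mul (θ : ℝ) (x : Fin 2 × Bool) (h : F) (ξ : L2 F) :
    sg θ (lt x * h) ξ = rot θ (lt x) (sg θ h ξ) := by
  rw [map_mul, sg_lt]; rfl

theorem norm_sg (θ : ℝ) (h : F) : ‖sg θ h‖ ≤ 1 := by
  refine ContinuousLinearMap.opNorm_le_bound _ zero_le_one fun ξ => ?_
  induction h using F_ind with
  | h1 => simp
  | hs x h _ ih => rwa [sg_mul, norm_rot θ (lt_ne x)]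

theorem sg_zero : sg 0 = lam F := by
  ext i : 1
  refine (sg_lt 0 (i, true)).trans ?_
  ext ξ : 1
  simp [rot_eq]
  rfl

theorem sg_far (θ : ℝ) (ξ : L2 F) (h u : F) (hu : h.norm < u.norm + (u⁻¹ * h).norm) :
    sg θ h ξ u = ξ (h⁻¹ * u) := by
  induction h using F_ind generalizing u with
  | h1 => simp
  | hs x h e ih =>
    have h1 := norm_le_lt x ((lt x)⁻¹ * u)
    have h2 := FreeGroup.norm_mul_le (lt x) ((lt x)⁻¹ * u)
    rw [mul_inv_cancel_left, norm_lt] at h2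
    rw [sg_mul, rot_ne, ih, mul_inv_rev, mul_assoc]
    · rw [mul_inv_rev, inv_inv, mul_assoc]; omega
    · rintro rfl; simp at hu
    · rintro rfl; rw [inv_mul_cancel_left, norm_lt] at hu; omega

theorem pot {d X E p b q : ℝ} (h0 : 0 ≤ p) (h1 : 0 ≤ b) (h2 : 0 ≤ q)
    (hp : p ≤ 9 / 10 * d + (X + E)) (hb : b ≤ d + (X + E)) (hq : q ≤ X + 9 / 10 * E) :
    30 * p ^ 2 + b ^ 2 + 4000 * q ^ 2 ≤ 30 * d ^ 2 + 4000 * E ^ 2 + 40401 * X ^ 2 := by
  have e1 := pow_le_pow_left₀ h0 hp 2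
  have e2 := pow_le_pow_left₀ h1 hb 2
  have e3 := pow_le_pow_left₀ h2 hq 2
  nlinarith [sq_nonneg (d - 6 * (X + E)), sq_nonneg (X - E), sq_nonneg (E - 10 * X),
    sq_nonneg d, sq_nonneg X, sq_nonneg (X + E)]

theorem norm_lin {a b A B : ℝ} (ha : |a| ≤ A) (hb : |b| ≤ B) (x y : ℂ) :
    ‖a * x + b * y‖ ≤ A * ‖x‖ + B * ‖y‖ := by
  refine (norm_add_le _ _).trans ?_
  rw [norm_mul, norm_mul, Complex.norm_real, Complex.norm_real, norm_eq_abs, norm_eq_abs]
  gcongr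

theorem sg_pot {θ φ : ℝ} (hθ : |sin θ| ≤ 9 / 10) (hφ : |sin φ| ≤ 9 / 10) (ξ : L2 F) (h : F) :
    ∃ A : Finset F, (∀ u ∈ A, u.norm ≤ h.norm) ∧
      ‖sg θ h ξ - sg φ h ξ‖ ^ 2 + 29 * ‖(sg θ h ξ - sg φ h ξ) 1‖ ^ 2 +
        4000 * (|θ - φ| * ‖sg φ h ξ 1‖) ^ 2 ≤ 40401 * ∑ u ∈ A, (|θ - φ| * ‖ξ u‖) ^ 2 := by
  induction h using F_ind with
  | h1 => exact ⟨{1}, by simp, by simp; gcongr; norm_num⟩
  | hs x h e ih =>
    obtain ⟨A, h1, h2⟩ := ih
    have h3 : (lt x * h)⁻¹ ∉ A := fun h3 => by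
      have := h1 _ h3
      rw [FreeGroup.norm_inv_eq] at this; omega
    refine ⟨insert (lt x * h)⁻¹ A, fun u hu => ?_, ?_⟩
    · rcases mem_insert.1 hu with rfl | hu
      · exact FreeGroup.norm_inv_eq.le
      · exact (h1 u hu).trans (by omega)
    have h4 : ∀ θ, sg θ h ξ (lt x)⁻¹ = ξ (lt x * h)⁻¹ := fun θ => by
      rw [sg_far, mul_inv_rev]
      rw [inv_inv]; omega
    rw [sum_insert h3, sg_mul, sg_mul]
    set D := sg θ h ξ - sg φ h ξ with hD
    have h5 : D (lt x)⁻¹ = 0 := by simp [hD, h4]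
    have h6 : rot θ (lt x) (sg θ h ξ) - rot φ (lt x) (sg φ h ξ) = rot θ (lt x) D +
        lp.single 2 1 ((cos θ - cos φ : ℝ) * ξ (lt x * h)⁻¹ + (sin θ - sin φ : ℝ) * sg φ h ξ 1) +
        lp.single 2 (lt x)
          ((sin φ - sin θ : ℝ) * ξ (lt x * h)⁻¹ + (cos θ - cos φ : ℝ) * sg φ h ξ 1) := by
      ext u
      simp only [hD, map_sub, lp.coeFn_add, lp.coeFn_sub, Pi.add_apply, Pi.sub_apply]
      by_cases e1 : u = 1
      · simp only [e1, rot_one _ (lt_ne x), h4, lp.single_apply_self,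
          lp.single_apply_ne _ _ _ (lt_ne x).symm, Complex.ofReal_sub]
        ring
      by_cases e2 : u = lt x
      · simp only [e2, rot_self _ (lt_ne x), h4, lp.single_apply_self,
          lp.single_apply_ne _ _ _ (lt_ne x), Complex.ofReal_sub]
        ring
      simp only [rot_ne _ e1 e2, lp.single_apply_ne _ _ _ e1, lp.single_apply_ne _ _ _ e2, add_zero]
    have hc := abs_cos_sub_cos_le θ φ
    have hs := abs_sin_sub_sin_le θ φ
    have h7 : ‖(sin θ : ℂ) * D 1‖ ^ 2 + ‖(cos θ : ℂ) * D 1‖ ^ 2 = ‖D 1‖ ^ 2 := by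
      simp only [norm_mul, Complex.norm_real, norm_eq_abs, mul_pow, sq_abs]
      linear_combination ‖D 1‖ ^ 2 * sin_sq_add_cos_sq θ
    have h8 : ∀ {a A : ℝ}, |a| ≤ A → ‖(a : ℂ) * D 1‖ ≤ A * ‖D 1‖ := fun ha => by
      simpa using norm_lin ha ha (D 1) 0
    have h9 := pot (norm_nonneg _) (norm_nonneg _) (by positivity)
      ((norm_add_le _ _).trans (add_le_add (h8 hθ) (norm_lin hc hs (ξ (lt x * h)⁻¹) (sg φ h ξ 1))))
      ((norm_add_le _ _).trans (add_le_add ((h8 (abs_cos_le_one θ)).trans_eq (one_mul _))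
        (norm_lin ((abs_sub_comm _ _).trans_le hs) hc (ξ (lt x * h)⁻¹) (sg φ h ξ 1))))
      ((mul_le_mul_of_nonneg_left (norm_lin (abs_cos_le_one φ) hφ (ξ (lt x * h)⁻¹) (sg φ h ξ 1))
        (abs_nonneg (θ - φ))).trans_eq (by ring))
    rw [h6, norm_add_two _ (lt_ne x), norm_rot _ (lt_ne x)]
    simp only [lp.coeFn_add, Pi.add_apply, lp.single_apply_self, rot_one _ (lt_ne x), h5, h4,
      lp.single_apply_ne _ _ _ (lt_ne x).symm, rot_self _ (lt_ne x), mul_zero, add_zero, zero_add,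
      sub_zero]
    linarith

theorem sg_lip {θ φ : ℝ} (hθ : |sin θ| ≤ 9 / 10) (hφ : |sin φ| ≤ 9 / 10) (h : F) :
    ‖sg θ h - sg φ h‖ ≤ 201 * |θ - φ| := by
  refine ContinuousLinearMap.opNorm_le_bound _ (by positivity) fun ξ => ?_
  obtain ⟨A, -, h1⟩ := sg_pot hθ hφ ξ h
  have h2 : ∑ u ∈ A, ‖ξ u‖ ^ 2 ≤ ‖ξ‖ ^ 2 := by
    simpa using lp.sum_rpow_le_norm_rpow (p := 2) (by norm_num) ξ A
  simp only [mul_pow, ← mul_sum] at h1
  refine (pow_le_pow_iff_left₀ (norm_nonneg _) (by positivity) two_ne_zero).1 ?_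
  have h3 := mul_le_mul_of_nonneg_left h2 (sq_nonneg |θ - φ|)
  have h4 := mul_nonneg (sq_nonneg |θ - φ|) (sq_nonneg ‖sg φ h ξ 1‖)
  rw [ContinuousLinearMap.sub_apply, mul_pow, mul_pow]
  nlinarith [sq_nonneg ‖(sg θ h ξ - sg φ h ξ) 1‖]

theorem sg_coef (θ : ℝ) (x : Fin 2 × Bool) : sg θ (lt x) (lp.single 2 1 1) 1 = sin θ := by
  rw [sg_lt, rot_one θ (lt_ne x), lp.single_apply_self,
    lp.single_apply_ne _ _ _ (inv_ne_one.2 (lt_ne x))]
  ring

end Pool.Agent.MP_56ff7a_an.H20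

end

-- part MP_56ff7a_an.H20.Op
section

/-!
Induced representations as weighted permutation operators.
-/

namespace Pool.Agent.MP_56ff7a_an.H20

open Finset Filter Topology

theorem hasSum_sq {I : Type} {E : I → Type} [∀ i, NormedAddCommGroup (E i)] (ξ : lp E 2) :
    HasSum (fun i => ‖ξ i‖ ^ 2) (‖ξ‖ ^ 2) := by
  simpa using lp.hasSum_norm (p := 2) (by norm_num) ξ

theorem mem_of_sq {I : Type} {E : I → Type} [∀ i, NormedAddCommGroup (E i)] {f : ∀ i, E i}
    (h : Summable fun i => ‖f i‖ ^ 2) : Memℓp f 2 := memℓp_gen (by simpa using h)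

/-- Square summable families of vectors. -/
abbrev KK (Z : Type) : Type := lp (fun _ : Z => L2 F) 2

/-- Bounded operators. -/
abbrev BK (Z : Type) : Type := KK Z →L[ℂ] KK Z

section W

variable {Z : Type} (π : Equiv.Perm Z) {u : Z → BL2 F} {C : ℝ}

theorem w_le (hu : ∀ z, ‖u z‖ ≤ C) (ξ : KK Z) (z : Z) :
    ‖u z (ξ (π z))‖ ^ 2 ≤ C ^ 2 * ‖ξ (π z)‖ ^ 2 := by
  rw [← mul_pow]
  exact pow_le_pow_left₀ (norm_nonneg _) ((u z).le_of_opNorm_le (hu z) _) 2

theorem w_sum (ξ : KK Z) (C : ℝ) :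
    HasSum (fun z => C ^ 2 * ‖ξ (π z)‖ ^ 2) (C ^ 2 * ‖ξ‖ ^ 2) :=
  (π.hasSum_iff.2 (hasSum_sq ξ)).mul_left _

theorem w_norm (hC : 0 ≤ C) (hu : ∀ z, ‖u z‖ ≤ C) {ξ η : KK Z} (h : ∀ z, η z = u z (ξ (π z))) :
    ‖η‖ ≤ C * ‖ξ‖ := by
  refine (pow_le_pow_iff_left₀ (norm_nonneg _) (by positivity) two_ne_zero).1 ?_
  rw [mul_pow]
  exact hasSum_le (fun z => h z ▸ w_le π hu ξ z) (hasSum_sq η) (w_sum π ξ C)

/-- Weighted permutation operators. -/
noncomputable def wop (hu : ∀ z, ‖u z‖ ≤ 1) : BK Z :=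
  LinearMap.mkContinuous
    { toFun := fun ξ => ⟨fun z => u z (ξ (π z)), mem_of_sq (Summable.of_nonneg_of_le
        (fun _ => sq_nonneg _) (w_le π hu ξ) (w_sum π ξ 1).summable)⟩
      map_add' := fun _ _ => lp.ext (funext fun z => map_add (u z) _ _)
      map_smul' := fun _ _ => lp.ext (funext fun z => map_smul (u z) _ _) } 1
    fun _ => w_norm π zero_le_one hu fun _ => rfl

theorem norm_wop (hu : ∀ z, ‖u z‖ ≤ 1) : ‖wop π hu‖ ≤ 1 :=
  LinearMap.mkContinuous_norm_le _ zero_le_one _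

end W

theorem tempered {G J Z : Type} [Group G] (E : J × G ≃ Z × F) (w : Z → BL2 F)
    (hw : ∀ z v, ‖w z v‖ = ‖v‖) (A : G → BK Z)
    (hA : ∀ g ξ j γ, w (E (j, γ)).1 (A g ξ (E (j, γ)).1) (E (j, γ)).2 =
      w (E (j, g⁻¹ * γ)).1 (ξ (E (j, g⁻¹ * γ)).1) (E (j, g⁻¹ * γ)).2) (f : G →₀ ℂ) :
    ‖f.sum fun g c => c • A g‖ ≤ ‖f.sum fun g c => c • lam G g‖ := by
  have h1 : ∀ ξ : KK Z, HasSum (fun p => ‖w (E p).1 (ξ (E p).1) (E p).2‖ ^ 2) (‖ξ‖ ^ 2) := by
    intro ξ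
    have h2 : ∀ z, HasSum (fun i => ‖w z (ξ z) i‖ ^ 2) (‖ξ z‖ ^ 2) := fun z =>
      hw z (ξ z) ▸ hasSum_sq (w z (ξ z))
    have h3 : Summable fun p : Z × F => ‖w p.1 (ξ p.1) p.2‖ ^ 2 :=
      (summable_prod_of_nonneg fun _ => sq_nonneg _).2 ⟨fun z => (h2 z).summable, by
        simpa only [fun z => (h2 z).tsum_eq] using (hasSum_sq ξ).summable⟩
    have h4 := (h3.hasSum.prod_fiberwise h2).unique (hasSum_sq ξ)
    exact E.hasSum_iff.2 (h4 ▸ h3.hasSum)
  let L : KK Z → J → L2 G := fun ξ j => ⟨fun γ => w (E (j, γ)).1 (ξ (E (j, γ)).1) (E (j, γ)).2,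
    mem_of_sq ((h1 ξ).summable.prod_factor j)⟩
  have h2 : ∀ ξ, HasSum (fun j => ‖L ξ j‖ ^ 2) (‖ξ‖ ^ 2) := fun ξ =>
    (h1 ξ).prod_fiberwise fun j => hasSum_sq (L ξ j)
  refine ContinuousLinearMap.opNorm_le_bound _ (norm_nonneg _) fun ξ => ?_
  refine (pow_le_pow_iff_left₀ (norm_nonneg _) (by positivity) two_ne_zero).1 ?_
  rw [mul_pow]
  refine hasSum_le (fun j => ?_) (h2 _) ((h2 ξ).mul_left _)
  have h3 : L ((f.sum fun g c => c • A g) ξ) j = (f.sum fun g c => c • lam G g) (L ξ j) := by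
    ext γ
    simp only [L, Finsupp.sum, _root_.sum_apply, smul_apply,
      lp.coeFn_sum, Finset.sum_apply, map_sum, lp.coeFn_smul, Pi.smul_apply, map_smul, hA,
      lam_apply]
  rw [h3, ← mul_pow]
  exact pow_le_pow_left₀ (norm_nonneg _) (ContinuousLinearMap.le_opNorm _ _) 2

/-- A decomposition of a group into cosets of a free subgroup. -/
structure Dec {G : Type} [Group G] (ι : F →* G) where
  /-- The coset space. -/
  X : Type
  /-- The base coset. -/
  o : X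
  /-- The decomposition. -/
  e : X × F ≃ G
  e_mul : ∀ x h k, e (x, h * k) = e (x, h) * ι k
  e_o : e (o, 1) = 1

variable {G : Type} [Group G] {ι : F →* G}

theorem exists_dec (hι : Function.Injective ι) : Nonempty (Dec ι) := by
  obtain ⟨S, hS, h1⟩ := ι.range.exists_isComplement_left 1
  exact ⟨⟨S, ⟨1, h1⟩, Equiv.ofBijective (fun p => p.1 * ι p.2) (hS.comp
    ((Equiv.refl S).prodCongr (MonoidHom.ofInjective hι).toEquiv).bijective),
    fun x h k => by simp [mul_assoc], by simp⟩⟩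

namespace Dec

variable (D : Dec ι) {Y : Type}

/-- The action on cosets and the cocycle. -/
def cm (g : G) (x : D.X) : D.X × F := D.e.symm (g * D.e (x, 1))

theorem cm_spec (g : G) (x : D.X) (h : F) :
    g * D.e (x, h) = D.e ((D.cm g x).1, (D.cm g x).2 * h) := by
  rw [D.e_mul, cm, Prod.mk.eta, Equiv.apply_symm_apply, mul_assoc, ← D.e_mul, one_mul]

theorem cm_one (x : D.X) : D.cm 1 x = (x, 1) := by simp [cm]

theorem cm_mul (g k : G) (x : D.X) : D.cm (g * k) x =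
    ((D.cm g (D.cm k x).1).1, (D.cm g (D.cm k x).1).2 * (D.cm k x).2) := by
  rw [cm, Equiv.symm_apply_eq, mul_assoc, cm_spec, cm_spec, mul_one]

theorem cm_o (h : F) : D.cm (ι h) D.o = (D.o, h) := by
  rw [cm, Equiv.symm_apply_eq, ← one_mul h, D.e_mul, D.e_o, one_mul, one_mul, mul_one]

/-- The induced action. -/
def act (a : F →* Equiv.Perm Y) : G →* Equiv.Perm (D.X × Y) := MonoidHom.toHomPerm
  { toFun := fun g p => ((D.cm g p.1).1, a (D.cm g p.1).2 p.2)
    map_one' := funext fun p => by simp [cm_one]; rfl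
    map_mul' := fun g k => funext fun p => by simp [cm_mul]; rfl }

theorem act_apply (a : F →* Equiv.Perm Y) (g : G) (p : D.X × Y) :
    D.act a g p = ((D.cm g p.1).1, a (D.cm g p.1).2 p.2) := rfl

/-- The induced representation. -/
noncomputable def ind (a : F →* Equiv.Perm Y) (θ : ℝ) : G →* BK (D.X × Y) where
  toFun g := wop (D.act a g⁻¹) fun z => norm_sg θ (D.cm g⁻¹ z.1).2⁻¹
  map_one' := by
    ext ξ z : 3
    change sg θ (D.cm 1⁻¹ z.1).2⁻¹ (ξ (D.act a 1⁻¹ z)) = ξ z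
    simp [cm_one]
  map_mul' g k := by
    ext ξ z : 3
    change sg θ (D.cm (g * k)⁻¹ z.1).2⁻¹ (ξ (D.act a (g * k)⁻¹ z)) = sg θ (D.cm g⁻¹ z.1).2⁻¹
      (sg θ (D.cm k⁻¹ (D.cm g⁻¹ z.1).1).2⁻¹ (ξ (D.act a k⁻¹ (D.act a g⁻¹ z))))
    simp [cm_mul]

theorem ind_apply (a : F →* Equiv.Perm Y) (θ : ℝ) (g : G) (ξ : KK (D.X × Y)) (z : D.X × Y) :
    D.ind a θ g ξ z = sg θ (D.cm g⁻¹ z.1).2⁻¹ (ξ (D.act a g⁻¹ z)) := rfl

theorem star_ind (a : F →* Equiv.Perm Y) (θ : ℝ) (g : G) : star (D.ind a θ g) = D.ind a θ g⁻¹ :=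
  star_rep (D.ind a θ) (fun g => norm_wop (D.act a g⁻¹) fun z => norm_sg θ (D.cm g⁻¹ z.1).2⁻¹) g

theorem ind_lip (a : F →* Equiv.Perm Y) {θ φ : ℝ} (hθ : |Real.sin θ| ≤ 9 / 10)
    (hφ : |Real.sin φ| ≤ 9 / 10) (g : G) : ‖D.ind a θ g - D.ind a φ g‖ ≤ 201 * |θ - φ| :=
  ContinuousLinearMap.opNorm_le_bound _ (by positivity) fun _ => w_norm (D.act a g⁻¹)
    (by positivity) (fun z => sg_lip hθ hφ (D.cm g⁻¹ z.1).2⁻¹) fun _ => rfl

theorem symm_mul (g γ : G) : D.e.symm (g * γ) =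
    ((D.cm g (D.e.symm γ).1).1, (D.cm g (D.e.symm γ).1).2 * (D.e.symm γ).2) := by
  rw [Equiv.symm_apply_eq, ← cm_spec, Prod.mk.eta, Equiv.apply_symm_apply]

theorem temp_zero (a : F →* Equiv.Perm Y) (f : G →₀ ℂ) :
    ‖f.sum fun g c => c • D.ind a 0 g‖ ≤ ‖f.sum fun g c => c • lam G g‖ := by
  refine tempered (J := Y) ⟨fun p => (((D.e.symm p.2).1, a (D.e.symm p.2).2 p.1), (D.e.symm p.2).2),
    fun p => ((a p.2)⁻¹ p.1.2, D.e (p.1.1, p.2)), fun p => by simp, fun p => by simp⟩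
    (fun _ => 1) (fun _ _ => rfl) _ (fun g ξ j γ => ?_) f
  simp [ind_apply, sg_zero, lam_apply, act_apply, symm_mul]

theorem temp_reg (θ : ℝ) (f : G →₀ ℂ) :
    ‖f.sum fun g c => c • D.ind (MulAction.toPermHom F F) θ g‖ ≤
      ‖f.sum fun g c => c • lam G g‖ := by
  refine tempered (J := F) ((Equiv.prodComm _ _).trans (D.e.symm.prodCongr (Equiv.refl F)))
    (fun z => sg θ z.2⁻¹) (fun z v => norm_rep _ (norm_sg θ) _ v) _ (fun g ξ j γ => ?_) f
  simp [ind_apply, act_apply, symm_mul]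

/-- The commuting right action. -/
noncomputable def rgt (β : Equiv.Perm Y) : BK (D.X × Y) :=
  wop ((Equiv.refl _).prodCongr β⁻¹) (u := fun _ => 1) fun _ => norm_one_le'

theorem rgt_apply (β : Equiv.Perm Y) (ξ : KK (D.X × Y)) (z : D.X × Y) :
    D.rgt β ξ z = ξ (z.1, β⁻¹ z.2) := rfl

/-- The commuting right action as a homomorphism. -/
noncomputable def rgtH : Equiv.Perm Y →* BK (D.X × Y) where
  toFun := D.rgt
  map_one' := rfl
  map_mul' _ _ := rfl

theorem star_rgtH (β : Equiv.Perm Y) : star (D.rgtH β) = D.rgtH β⁻¹ :=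
  star_rep D.rgtH (fun β => norm_wop ((Equiv.refl _).prodCongr β⁻¹) fun _ => norm_one_le') β

open Classical in
/-- Point masses. -/
noncomputable def pt (y : Y) : KK (D.X × Y) := lp.single 2 (D.o, y) (lp.single 2 1 1)

open Classical in
theorem pt_apply (y : Y) (z : D.X × Y) :
    D.pt y z = if z = (D.o, y) then lp.single 2 1 1 else 0 := by
  rw [pt, lp.single_apply, Pi.single_apply]

theorem pt_congr {Y' : Type} {y : Y} {y' : Y'} {z : D.X × Y} {z' : D.X × Y'}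
    (h : z = (D.o, y) ↔ z' = (D.o, y')) : D.pt y z = D.pt y' z' := by
  rw [pt_apply, pt_apply]
  by_cases h1 : z = (D.o, y)
  · rw [if_pos h1, if_pos (h.1 h1)]
  · rw [if_neg h1, if_neg (mt h.2 h1)]

theorem rgt_pt (β : Equiv.Perm Y) (y : Y) : D.rgtH β (D.pt y) = D.pt (β y) := by
  ext z : 2
  exact D.pt_congr (by simp [Prod.ext_iff, Equiv.symm_apply_eq])

/-- Matrix coefficients. -/
noncomputable def om (y y' : Y) : BK (D.X × Y) →L[ℂ] ℂ :=
  (ev 1).comp ((lp.evalCLM ℂ (fun _ : D.X × Y => L2 F) 2 (D.o, y)).comp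
    (ContinuousLinearMap.apply ℂ _ (D.pt y')))

theorem om_apply (y y' : Y) (T : BK (D.X × Y)) : D.om y y' T = T (D.pt y') (D.o, y) 1 := rfl

theorem norm_om (y y' : Y) (T : BK (D.X × Y)) : ‖D.om y y' T‖ ≤ ‖T‖ := by
  refine (lp.norm_apply_le_norm two_ne_zero (T (D.pt y') (D.o, y)) 1).trans
    ((lp.norm_apply_le_norm two_ne_zero (T (D.pt y')) (D.o, y)).trans ((T.le_opNorm _).trans ?_))
  simp [pt, lp.norm_single]

/-- Pairs of weighted permutation operators with the same data. -/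
def Tw (a : F →* Equiv.Perm Y) (m : BK (D.X × Y) × BK (D.X × F)) : Prop :=
  ∃ (g : G) (u : D.X → BL2 F), (∀ ξ z, m.1 ξ z = u z.1 (ξ (D.act a g z))) ∧
    ∀ ξ z, m.2 ξ z = u z.1 (ξ (D.act (MulAction.toPermHom F F) g z))

variable {D} {a : F →* Equiv.Perm Y} {m n : BK (D.X × Y) × BK (D.X × F)}

theorem Tw.one : D.Tw a 1 := ⟨1, fun _ => 1, by simp, by simp⟩

theorem Tw.mul (hm : D.Tw a m) (hn : D.Tw a n) : D.Tw a (m * n) := by
  obtain ⟨g, u, h1, h2⟩ := hm
  obtain ⟨k, v, h3, h4⟩ := hn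
  exact ⟨k * g, fun x => u x * v (D.cm g x).1, fun ξ z => by simp [h1, h3, act_apply, cm_mul],
    fun ξ z => by simp [h2, h4, act_apply, cm_mul, mul_assoc]⟩

theorem Tw.comm (hm : D.Tw a m) {β : Equiv.Perm Y} (hβ : ∀ h, Commute (a h) β) :
    m.1 * D.rgtH β = D.rgtH β * m.1 := by
  obtain ⟨g, u, h1, -⟩ := hm
  ext ξ z : 3
  change m.1 (D.rgt β ξ) z = D.rgt β (m.1 ξ) z
  rw [h1, rgt_apply, rgt_apply, h1, act_apply, act_apply, ← Equiv.Perm.mul_apply,
    ← (hβ _).inv_right.eq, Equiv.Perm.mul_apply]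

theorem Tw.ev (hm : D.Tw a m) {y : ℕ → Y} (hy : ∀ h ≠ 1, ∀ᶠ k in atTop, a h (y k) ≠ y k) (t : F) :
    ∀ᶠ k in atTop, D.om (y k) (a t (y k)) m.1 = D.om 1 t m.2 := by
  obtain ⟨g, u, h1, h2⟩ := hm
  have h3 : ∀ᶠ k in atTop, a (D.cm g D.o).2 (y k) = a t (y k) ↔ (D.cm g D.o).2 = t := by
    by_cases h : (D.cm g D.o).2 = t
    · simp [h]
    · filter_upwards [hy (t⁻¹ * (D.cm g D.o).2) fun h4 => h (inv_mul_eq_one.1 h4).symm] with k hk
      simpa [h, Equiv.symm_apply_eq] using hk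
  filter_upwards [h3] with k hk
  rw [om_apply, om_apply, h1, h2, D.pt_congr]
  simp [act_apply, hk, Prod.ext_iff]

end Dec

end Pool.Agent.MP_56ff7a_an.H20

end

-- part MP_56ff7a_an.H20.Schur
section

/-!
Schur test and the power trick.
-/

namespace Pool.Agent.MP_56ff7a_an.H20

open Finset Filter Topology

theorem schur {G W : Type} [Group G] (S : Finset W) (v : W → G) (p : G → ℝ) (hp : ∀ g, 0 < p g)
    {C : ℝ} (hC : 0 ≤ C) (h1 : ∀ g, ∑ w ∈ S, p (v w * g) ≤ C * p g)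
    (h2 : ∀ g, ∑ w ∈ S, p ((v w)⁻¹ * g) ≤ C * p g) : ‖∑ w ∈ S, lam G (v w)‖ ≤ C := by
  refine ContinuousLinearMap.opNorm_le_bound _ hC fun ξ => ?_
  refine (pow_le_pow_iff_left₀ (norm_nonneg _) (by positivity) two_ne_zero).1 ?_
  have h3 : ∀ g, ∑ w ∈ S, p (v w * g) / p g * ‖ξ g‖ ^ 2 ≤ C * ‖ξ g‖ ^ 2 := fun g => by
    rw [← sum_mul, ← sum_div]
    exact mul_le_mul_of_nonneg_right ((div_le_iff₀ (hp g)).2 (h1 g)) (sq_nonneg _)
  have h0 : ∀ w g, 0 ≤ p (v w * g) / p g * ‖ξ g‖ ^ 2 := fun w g =>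
    mul_nonneg (div_pos (hp _) (hp _)).le (sq_nonneg _)
  have h4 : ∀ w ∈ S, Summable fun g => p (v w * g) / p g * ‖ξ g‖ ^ 2 := fun w hw =>
    Summable.of_nonneg_of_le (h0 w) (fun g => (single_le_sum (fun w _ => h0 w g) hw).trans (h3 g))
      ((hasSum_sq ξ).summable.mul_left C)
  have h5 := hasSum_sum fun w hw => (h4 w hw).hasSum
  have h6 : HasSum (fun g => ∑ w ∈ S, p g / p ((v w)⁻¹ * g) * ‖ξ ((v w)⁻¹ * g)‖ ^ 2)
      (∑ w ∈ S, ∑' g, p (v w * g) / p g * ‖ξ g‖ ^ 2) := hasSum_sum fun w hw => by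
    simpa [Function.comp_def] using (Equiv.mulLeft (v w)⁻¹).hasSum_iff.2 (h4 w hw).hasSum
  have h7 := hasSum_le h3 h5 ((hasSum_sq ξ).mul_left C)
  refine (hasSum_le (fun g => ?_) (hasSum_sq _) (h6.mul_left C)).trans (by nlinarith)
  have h8 : ‖(∑ w ∈ S, lam G (v w)) ξ g‖ ≤ ∑ w ∈ S, ‖ξ ((v w)⁻¹ * g)‖ := by
    simpa only [_root_.sum_apply, lp.coeFn_sum, Finset.sum_apply, lam_apply] using
      norm_sum_le S fun w => ξ ((v w)⁻¹ * g)
  refine (pow_le_pow_left₀ (norm_nonneg _) h8 2).trans ?_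
  have h9 := sum_sq_le_sum_mul_sum_of_sq_le_mul S (r := fun w => ‖ξ ((v w)⁻¹ * g)‖)
    (f := fun w => p ((v w)⁻¹ * g) / p g)
    (g := fun w => p g / p ((v w)⁻¹ * g) * ‖ξ ((v w)⁻¹ * g)‖ ^ 2)
    (fun w _ => (div_pos (hp _) (hp _)).le)
    (fun w _ => mul_nonneg (div_pos (hp _) (hp _)).le (sq_nonneg _))
    fun w _ => le_of_eq (by have := hp g; have := hp ((v w)⁻¹ * g); field_simp)
  refine h9.trans (mul_le_mul_of_nonneg_right ?_ (sum_nonneg fun w _ =>
    mul_nonneg (div_pos (hp _) (hp _)).le (sq_nonneg _)))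
  rw [← sum_div]
  exact (div_le_iff₀ (hp g)).2 (h2 g)

theorem le_of_pow {t c N : ℝ} (hc : 0 < c) (h : ∀ j : ℕ, t ^ 2 ^ j ≤ N * c ^ 2 ^ j) : t ≤ c := by
  by_contra hn
  have h1 : 1 < t / c := (one_lt_div hc).2 (not_le.1 hn)
  obtain ⟨j, hj⟩ := pow_unbounded_of_one_lt N h1
  have h2 := pow_le_pow_right₀ h1.le (Nat.lt_two_pow_self (n := j)).le
  rw [div_pow _ _ (2 ^ j), le_div_iff₀ (by positivity)] at h2
  have h3 := mul_lt_mul_of_pos_right hj (show 0 < c ^ 2 ^ j by positivity)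
  linarith [h j]

variable {G : Type} [Group G] {ι : F →* G}

/-- The reduced group C*-algebra. -/
noncomputable abbrev Cr (G : Type) [Group G] : StarSubalgebra ℂ (BL2 G) :=
  generatedCStar (Set.range (lam G))

/-- The canonical unitaries. -/
noncomputable def lamr (G : Type) [Group G] : G →* Cr G :=
  (lam G).codRestrict _ fun g =>
    StarSubalgebra.le_topologicalClosure _ (StarAlgebra.subset_adjoin _ _ ⟨g, rfl⟩)

theorem power (D : Dec ι) {A P : Type} [CStarAlgebra A] [Group P] (θ : Cr G →⋆ₙₐ[ℂ] A)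
    (b : F →* P) (hb : Finite b.range) (ρ : P →* A) (h1 : ∀ β, star (ρ β) = ρ β⁻¹)
    (h2 : ∀ x h, Commute (θ x) (ρ (b h))) :
    ‖∑ x, θ (lamr G (ι (lt x))) * ρ (b (lt x))‖ ≤ 7 / 2 := by
  classical
  let π : F → A := fun h => θ (lamr G (ι h)) * ρ (b h)
  have h3 : ∀ g h, π (g * h) = π g * π h := fun g h => by
    simp only [π, map_mul]
    exact ((h2 _ g).symm.mul_mul_mul_comm _ _).symm
  have h4 : IsSelfAdjoint (∑ x, π (lt x)) := by
    rw [IsSelfAdjoint, star_sum, ← sum_lt_inv π]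
    refine sum_congr rfl fun x _ => ?_
    have : star (lamr G (ι (lt x))) = lamr G (ι (lt x)⁻¹) :=
      Subtype.ext ((star_lam _).trans (by rw [map_inv ι]; rfl))
    simp only [π]
    rw [star_mul, h1, ← map_star, this, ← map_inv b, (h2 _ _).eq]
  have h5 : (∑ x, π (lt x)) * π 1 = ∑ x, π (lt x) := by
    simp only [sum_mul, ← h3, mul_one]
  have hf : (Set.range b).Finite := hb
  refine le_of_pow (N := hf.toFinset.card) (by norm_num) fun j => ?_
  obtain ⟨W, _, v, e1, e2, e3⟩ := exists_words (2 ^ j)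
  have h6 := e3 A π h3
  obtain ⟨n, hn⟩ := Nat.exists_eq_succ_of_ne_zero (show 2 ^ j ≠ 0 by positivity)
  rw [hn, pow_succ, mul_assoc, h5, ← pow_succ, ← Nat.succ_eq_add_one, ← hn,
    ← sum_fiberwise_of_maps_to (t := hf.toFinset) (g := fun w => b (v w)) (by simp)] at h6
  have h7 : ‖(∑ x, π (lt x)) ^ 2 ^ j‖ = ‖∑ x, π (lt x)‖ ^ 2 ^ j := by
    simpa using congrArg NNReal.toReal (h4.nnnorm_pow_two_pow j)
  rw [← h7, ← h6, ← nsmul_eq_mul]
  refine (norm_sum_le _ _).trans (sum_le_card_nsmul _ _ _ fun β _ => ?_)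
  rw [sum_congr rfl (g := fun w => θ (lamr G (ι (v w))) * ρ β) fun w hw => by
    rw [← (mem_filter.1 hw).2], ← sum_mul, ← map_sum]
  refine (norm_mul_le _ _).trans ((mul_le_of_le_one_right (norm_nonneg _)
    (norm_unit_le ρ h1 β)).trans ((NonUnitalStarAlgHom.norm_apply_le θ _).trans ?_))
  have h8 : ∀ h g, (D.e.symm (ι h * g)⁻¹).2⁻¹ = h * (D.e.symm g⁻¹).2⁻¹ := fun h g => by
    have : D.e.symm (ι h * g)⁻¹ = ((D.e.symm g⁻¹).1, (D.e.symm g⁻¹).2 * h⁻¹) := by
      rw [Equiv.symm_apply_eq, D.e_mul]; simp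
    rw [this, mul_inv_rev (D.e.symm g⁻¹).2, inv_inv]
  change ‖(Cr G).subtype _‖ ≤ _
  rw [map_sum]
  refine schur _ (fun w => ι (v w)) (fun g => wt (D.e.symm g⁻¹).2⁻¹) (fun _ => wt_pos _)
    (by positivity) (fun g => ?_) fun g => ?_
  · simp only [h8]
    exact (sum_le_univ_sum_of_nonneg fun _ => (wt_pos _).le).trans (e1 _)
  · simp only [← map_inv, h8]
    exact (sum_le_univ_sum_of_nonneg fun _ => (wt_pos _).le).trans (e2 _)

end Pool.Agent.MP_56ff7a_an.H20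

end
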